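import Mathlib

set_option autoImplicit false

/-!
# Pinwheel scheduling with durations and bins
-/

namespace Q229.DP

open Finset

/-- Feasibility for jobs indexed by `J` with frequencies `f` and durations `p`. -/
def FeasJ {J : Type} (f p : J → ℕ) : Prop :=
  ∃ S : ℕ → J, ∀ i : J, (∀ t, ∃ s, t ≤ s ∧ S s = i) ∧
    ∀ a b : ℕ, a < b → S a = i → S b = i → (∀ t, a < t → t < b → S t ≠ i) →
      ∑ t ∈ Ioc a b, p (S t) ≤ f i

/-- Bins of capacity `Z`: the job `j` has size `p j` and must be in one of any `g j` consecutive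
bins. -/
def BinJ {J : Type} (Z : ℕ) (g p : J → ℕ) : Prop :=
  ∃ A : ℕ → Finset J, (∀ z, ∑ j ∈ A z, p j ≤ Z) ∧ ∀ j z, ∃ i, i < g j ∧ j ∈ A (z + i)

/-- frequencies of the scheduling instance; `none` is the separating job -/
def ff {J : Type} (Z w : ℕ) (g : J → ℕ) : Option J → ℕ
  | none => w + Z
  | some j => g j * (w + Z) + Z

/-- durations of the scheduling instance -/
def pp {J : Type} (w : ℕ) (p : J → ℕ) : Option J → ℕ
  | none => w
  | some j => p j

section down

variable {J : Type} [Fintype J] {Z w : ℕ} {g p : J → ℕ}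

theorem bin_of_feas (hw : ∀ j, (g j + 1) * Z < w) (h : FeasJ (ff Z w g) (pp w p)) :
    BinJ Z g p := by
  classical
  obtain ⟨S, hS⟩ := h
  choose t ht using fun j => (hS (some j)).1 0
  have hT : ∃ T0, ∀ j, t j < T0 := ⟨univ.sup t + 1, fun j =>
    Nat.lt_succ_of_le (Finset.le_sup (mem_univ j))⟩
  obtain ⟨T0, hT0⟩ := hT
  have hn : ∀ t, ∃ s, t < s ∧ S s = none := by
    intro t
    obtain ⟨s, hs, hs'⟩ := (hS none).1 (t + 1)
    exact ⟨s, by omega, hs'⟩
  have hnx : ∀ t, ∃ s, t < s ∧ S s = none ∧ ∀ r, t < r → r < s → S r ≠ none := by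
    intro t
    refine ⟨Nat.find (hn t), (Nat.find_spec (hn t)).1, (Nat.find_spec (hn t)).2, ?_⟩
    intro r h1 h2 h3
    exact Nat.find_min (hn t) h2 ⟨h1, h3⟩
  choose nx hnx1 hnx2 hnx3 using hnx
  obtain ⟨u, hu0, hun, hlt, hbet⟩ : ∃ u : ℕ → ℕ, T0 < u 0 ∧ (∀ k, S (u k) = none) ∧
      (∀ k, u k < u (k + 1)) ∧ ∀ k t, u k < t → t < u (k + 1) → S t ≠ none := by
    refine ⟨fun k => nx^[k] (nx T0), hnx1 T0, ?_, ?_, ?_⟩
    · intro k
      cases k with
      | zero => exact hnx2 T0
      | succ k => beta_reduce; rw [Function.iterate_succ_apply']; exact hnx2 _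
    · intro k
      beta_reduce
      rw [Function.iterate_succ_apply']
      exact hnx1 _
    · intro k t
      beta_reduce
      rw [Function.iterate_succ_apply']
      exact hnx3 _ t
  have hmono : StrictMono u := strictMono_nat_of_lt_succ hlt
  refine ⟨fun k => univ.filter fun j => ∃ t, u k < t ∧ t < u (k + 1) ∧ S t = some j, ?_, ?_⟩
  · intro k
    have h1 := (hS none).2 (u k) (u (k + 1)) (hlt k) (hun k) (hun (k + 1)) (hbet k)
    have h2 : Ioc (u k) (u (k + 1)) = insert (u (k + 1)) (Ioo (u k) (u (k + 1))) := by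
      ext x
      have := hlt k
      simp only [mem_Ioc, mem_insert, mem_Ioo]
      omega
    rw [h2, sum_insert (by simp), hun] at h1
    have h3 : ∑ t ∈ Ioo (u k) (u (k + 1)), pp w p (S t) ≤ Z := by
      have h4 : w + ∑ t ∈ Ioo (u k) (u (k + 1)), pp w p (S t) ≤ w + Z := h1
      omega
    refine le_trans ?_ h3
    have h4 : ∀ j ∈ univ.filter (fun j => ∃ t, u k < t ∧ t < u (k + 1) ∧ S t = some j),
        ∃ t, u k < t ∧ t < u (k + 1) ∧ S t = some j := fun j hj => (mem_filter.1 hj).2
    choose! τ hτ using h4
    have h5 : ∑ j ∈ univ.filter (fun j => ∃ t, u k < t ∧ t < u (k + 1) ∧ S t = some j), p j =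
        ∑ t ∈ (univ.filter (fun j => ∃ t, u k < t ∧ t < u (k + 1) ∧ S t = some j)).image τ,
          pp w p (S t) := by
      rw [sum_image]
      · refine sum_congr rfl fun j hj => ?_
        rw [(hτ j hj).2.2]
        rfl
      · intro j hj j' hj' he
        have h6 := (hτ j hj).2.2
        have h7 := (hτ j' hj').2.2
        rw [he, h7] at h6
        exact (Option.some.inj h6).symm
    rw [h5]
    refine sum_le_sum_of_subset ?_
    intro x hx
    obtain ⟨j, hj, rfl⟩ := mem_image.1 hx
    have h6 := hτ j hj
    exact mem_Ioo.2 ⟨h6.1, h6.2.1⟩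
  · intro j z
    by_contra hcon
    push Not at hcon
    have hA : ∀ i, i < g j → ∀ t, u (z + i) < t → t < u (z + i + 1) → S t ≠ some j := by
      intro i hi t h1 h2 h3
      exact hcon i hi (mem_filter.2 ⟨mem_univ _, t, h1, h2, h3⟩)
    have hB : ∀ n, n ≤ g j → ∀ t, u z ≤ t → t ≤ u (z + n) → S t ≠ some j := by
      intro n
      induction n with
      | zero =>
        intro _ t h1 h2
        have : t = u z := le_antisymm h2 h1
        rw [this, hun]
        simp
      | succ n ih =>
        intro hn' t h1 h2
        rcases le_or_gt t (u (z + n)) with h3 | h3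
        · exact ih (by omega) t h1 h3
        · rcases Nat.lt_or_ge t (u (z + n + 1)) with h4 | h4
          · exact hA n (by omega) t h3 h4
          · have : t = u (z + n + 1) := le_antisymm h2 h4
            rw [this, hun]
            simp
    have hex : ∃ a, a ≤ u z ∧ S a = some j := ⟨t j, by
      have h1 := hT0 j
      have h2 := hmono.monotone (Nat.zero_le z)
      omega, (ht j).2⟩
    obtain ⟨a0, ha0, ha0'⟩ := hex
    set a := Nat.findGreatest (fun t => S t = some j) (u z) with ha
    have ha1 : S a = some j := Nat.findGreatest_spec (P := fun t => S t = some j) ha0 ha0'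
    have ha2 : ∀ k, a < k → k ≤ u z → S k ≠ some j := fun k h1 h2 =>
      Nat.findGreatest_is_greatest h1 h2
    have ha3 : a ≤ u z := Nat.findGreatest_le _
    have ha4 : a < u z := by
      rcases Nat.lt_or_ge a (u z) with h | h
      · exact h
      · have h1 : a = u z := le_antisymm ha3 h
        rw [h1, hun] at ha1
        cases ha1
    have hb : ∃ b, a < b ∧ S b = some j := by
      obtain ⟨s, hs, hs'⟩ := (hS (some j)).1 (a + 1)
      exact ⟨s, by omega, hs'⟩
    obtain ⟨hb1, hb2⟩ := Nat.find_spec hb
    have hb3 : ∀ t, a < t → t < Nat.find hb → S t ≠ some j := fun t h1 h2 h3 =>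
      Nat.find_min hb h2 ⟨h1, h3⟩
    have hb4 : u (z + g j) < Nat.find hb := by
      by_contra h
      push Not at h
      rcases le_or_gt (Nat.find hb) (u z) with h1 | h1
      · exact ha2 _ hb1 h1 hb2
      · exact hB (g j) le_rfl _ h1.le h hb2
    have h1 := (hS (some j)).2 a (Nat.find hb) hb1 ha1 hb2 hb3
    have h2 : (g j + 1) * w ≤ ∑ t ∈ Ioc a (Nat.find hb), pp w p (S t) := by
      have h3 : (g j + 1) * w = ∑ t ∈ (range (g j + 1)).image (fun i => u (z + i)),
          pp w p (S t) := by
        rw [sum_image]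
        · rw [sum_congr rfl (fun i _ => by rw [hun] : ∀ i ∈ range (g j + 1),
            pp w p (S (u (z + i))) = pp w p none)]
          simp [pp]
        · intro i _ i' _ he
          have := hmono.injective he
          omega
      rw [h3]
      refine sum_le_sum_of_subset ?_
      intro x hx
      obtain ⟨i, hi, rfl⟩ := mem_image.1 hx
      rw [mem_range] at hi
      have h4 := hmono.monotone (show z ≤ z + i by omega)
      have h5 := hmono.monotone (show z + i ≤ z + g j by omega)
      exact mem_Ioc.2 ⟨by omega, by omega⟩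
    have h3 := le_trans h2 h1
    have h4 : (g j + 1) * w ≤ g j * (w + Z) + Z := h3
    have h5 := hw j
    nlinarith

end down

section concat

variable {α : Type} (B : ℕ → List α)

/-- concatenation of the first `k` blocks -/
def pre : ℕ → List α
  | 0 => []
  | k + 1 => pre k ++ B k

theorem pre_mono {k l : ℕ} (h : k ≤ l) : pre B k <+: pre B l := by
  induction l with
  | zero => rw [Nat.le_zero.1 h]
  | succ l ih =>
    rcases Nat.lt_or_ge l k with h1 | h1
    · rw [le_antisymm h h1]
    · exact (ih h1).trans (List.prefix_append _ _)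

variable {B}

theorem le_length_pre (hB : ∀ k, B k ≠ []) (k : ℕ) : k ≤ (pre B k).length := by
  induction k with
  | zero => exact Nat.zero_le _
  | succ k ih =>
    have := List.length_pos_iff.2 (hB k)
    rw [pre, List.length_append]
    omega

/-- the infinite concatenation -/
def cat (B : ℕ → List α) (d : α) (t : ℕ) : α := (pre B (t + 1)).getD t d

theorem cat_eq (hB : ∀ k, B k ≠ []) (d : α) {k t : ℕ} (h : t < (pre B k).length) :
    cat B d t = (pre B k)[t] := by
  unfold cat
  have h1 : t < (pre B (t + 1)).length := le_length_pre hB (t + 1)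
  rw [List.getD_eq_getElem _ _ h1]
  rcases le_total (t + 1) k with h2 | h2
  · exact (pre_mono B h2).getElem h1
  · exact ((pre_mono B h2).getElem h).symm

theorem cat_block (hB : ∀ k, B k ≠ []) (d : α) {k i : ℕ} (h : i < (B k).length) :
    cat B d ((pre B k).length + i) = (B k)[i] := by
  have h1 : (pre B k).length + i < (pre B (k + 1)).length := by
    rw [pre, List.length_append]; omega
  rw [cat_eq hB d h1]
  simp only [pre]
  rw [List.getElem_append_right (by omega)]
  simp

theorem exists_block (hB : ∀ k, B k ≠ []) (t : ℕ) :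
    ∃ k, (pre B k).length ≤ t ∧ t < (pre B (k + 1)).length := by
  have hex : ∃ k, t < (pre B (k + 1)).length := ⟨t, le_length_pre hB (t + 1)⟩
  classical
  refine ⟨Nat.find hex, ?_, Nat.find_spec hex⟩
  rcases Nat.eq_zero_or_pos (Nat.find hex) with h | h
  · rw [h]; exact Nat.zero_le _
  · have := Nat.find_min hex (show Nat.find hex - 1 < Nat.find hex by omega)
    rw [not_lt, show Nat.find hex - 1 + 1 = Nat.find hex by omega] at this
    exact this

theorem sum_block (hB : ∀ k, B k ≠ []) (d : α) (q : α → ℕ) (k : ℕ) :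
    ∑ t ∈ range (pre B (k + 1)).length, q (cat B d t) =
      ∑ t ∈ range (pre B k).length, q (cat B d t) + ((B k).map q).sum := by
  have h1 : (pre B (k + 1)).length = (pre B k).length + (B k).length := by
    rw [pre, List.length_append]
  rw [h1, sum_range_add]
  congr 1
  rw [← Fin.sum_univ_eq_sum_range (fun i => q (cat B d ((pre B k).length + i)))]
  rw [← Fin.sum_univ_getElem ((B k).map q)]
  simp only [List.getElem_map]
  refine Fintype.sum_equiv (finCongr (by simp)) _ _ ?_
  intro i
  rw [cat_block hB d i.isLt]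
  rfl

end concat

section up

variable {J : Type} {Z w : ℕ} {g p : J → ℕ}

theorem feas_of_bin (h : BinJ Z g p) : FeasJ (ff Z w g) (pp w p) := by
  classical
  obtain ⟨A, hA, hg⟩ := h
  let B : ℕ → List (Option J) := fun z => none :: (A z).toList.map some
  have hB : ∀ k, B k ≠ [] := fun k => List.cons_ne_nil _ _
  set S := cat B none with hS
  set st : ℕ → ℕ := fun k => (pre B k).length with hst
  have hstlt : ∀ k, st k < st (k + 1) := by
    intro k
    have := List.length_pos_iff.2 (hB k)
    show (pre B k).length < (pre B (k + 1)).length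
    rw [pre, List.length_append]
    omega
  have hmono : StrictMono st := strictMono_nat_of_lt_succ hstlt
  have hstk : ∀ k, k ≤ st k := le_length_pre hB
  have hblk : ∀ k i (h : i < (B k).length), S (st k + i) = (B k)[i] := fun k i h =>
    cat_block hB none h
  have hS0 : ∀ k, S (st k) = none := fun k => hblk k 0 (by simp [B])
  have hsome : ∀ k t, st k < t → t < st (k + 1) → ∃ j ∈ A k, S t = some j := by
    intro k t h1 h2
    obtain ⟨i, rfl⟩ := Nat.exists_eq_add_of_le h1.le
    have h3 : st (k + 1) = st k + (B k).length := by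
      show (pre B (k + 1)).length = (pre B k).length + (B k).length
      rw [pre, List.length_append]
    have h4 : i < (B k).length := by omega
    obtain ⟨i, rfl⟩ := Nat.exists_eq_succ_of_ne_zero (show i ≠ 0 by omega)
    rw [hblk k _ h4]
    have h5 : i < (A k).toList.length := by
      have : (B k).length = (A k).toList.length + 1 := by simp [B]
      omega
    refine ⟨(A k).toList[i], Finset.mem_toList.1 (List.getElem_mem h5), ?_⟩
    simp [B]
  have hmem : ∀ k, ∀ j ∈ A k, ∃ t, st k < t ∧ t < st (k + 1) ∧ S t = some j := by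
    intro k j hj
    obtain ⟨i, hi, he⟩ := List.getElem_of_mem (Finset.mem_toList.2 hj)
    have h3 : st (k + 1) = st k + (B k).length := by
      show (pre B (k + 1)).length = (pre B k).length + (B k).length
      rw [pre, List.length_append]
    have h4 : (B k).length = (A k).toList.length + 1 := by simp [B]
    refine ⟨st k + (i + 1), by omega, by omega, ?_⟩
    rw [hblk k (i + 1) (by omega)]
    simp [B, he]
  have hsum : ∀ k, ∑ t ∈ range (st (k + 1)), pp w p (S t) ≤
      ∑ t ∈ range (st k), pp w p (S t) + (w + Z) := by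
    intro k
    have h1 := sum_block hB none (pp w p) k
    have h2 : ((B k).map (pp w p)).sum ≤ w + Z := by
      have h3 : ((B k).map (pp w p)).sum = w + ∑ j ∈ A k, p j := by
        simp only [B, List.map_cons, List.sum_cons, List.map_map]
        congr 1
        exact Finset.sum_map_toList (A k) p
      rw [h3]
      exact Nat.add_le_add_left (hA k) _
    exact le_trans (le_of_eq h1) (Nat.add_le_add_left h2 _)
  have hsum' : ∀ k n, ∑ t ∈ range (st (k + n)), pp w p (S t) ≤
      ∑ t ∈ range (st k), pp w p (S t) + n * (w + Z) := by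
    intro k n
    induction n with
    | zero => simp
    | succ n ih =>
      have := hsum (k + n)
      rw [show k + (n + 1) = k + n + 1 by omega]
      calc _ ≤ _ := this
        _ ≤ _ := Nat.add_le_add_right ih _
        _ = _ := by ring
  have hIoc : ∀ a b, a ≤ b → ∑ t ∈ Ioc a b, pp w p (S t) + ∑ t ∈ range (a + 1), pp w p (S t) =
      ∑ t ∈ range (b + 1), pp w p (S t) := by
    intro a b hab
    rw [add_comm]
    have h1 : range (b + 1) = range (a + 1) ∪ Ioc a b := by
      ext x; simp only [mem_range, mem_union, mem_Ioc]; omega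
    rw [h1, sum_union]
    rw [disjoint_left]
    intro x hx hx'
    rw [mem_range] at hx
    rw [mem_Ioc] at hx'
    omega
  have hw0 : ∀ k, ∑ t ∈ range (st k + 1), pp w p (S t) =
      ∑ t ∈ range (st k), pp w p (S t) + w := by
    intro k
    rw [sum_range_succ, hS0]
    rfl
  have hinc : ∀ a b, a ≤ b → ∑ t ∈ range a, pp w p (S t) ≤ ∑ t ∈ range b, pp w p (S t) :=
    fun a b hab => sum_le_sum_of_subset (range_mono hab)
  refine ⟨S, fun i => ?_⟩
  cases i with
  | none =>
    refine ⟨fun t => ⟨st t, hstk t, hS0 t⟩, ?_⟩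
    intro a b hab ha hb hbet
    obtain ⟨k, hk1, hk2⟩ := exists_block hB a
    have hak : a = st k := by
      by_contra h
      obtain ⟨j, _, hj⟩ := hsome k a (lt_of_le_of_ne hk1 (Ne.symm h)) hk2
      rw [ha] at hj
      cases hj
    have hbk : b ≤ st (k + 1) := by
      by_contra h
      push Not at h
      exact hbet (st (k + 1)) (by rw [hak]; exact hstlt k) h (hS0 (k + 1))
    have h1 := hIoc a b hab.le
    have h2 := hsum k
    have h3 := hw0 k
    have h4 := hw0 (k + 1)
    have h5 := hinc (b + 1) (st (k + 1) + 1) (by omega)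
    rw [hak] at h1
    rw [hak]
    show _ ≤ w + Z
    omega
  | some j =>
    constructor
    · intro t
      obtain ⟨i, _, hi⟩ := hg j t
      obtain ⟨s, hs1, _, hs2⟩ := hmem _ j hi
      exact ⟨s, by have := hstk (t + i); omega, hs2⟩
    · intro a b hab ha hb hbet
      obtain ⟨k, hk1, hk2⟩ := exists_block hB a
      have hk1' : st k ≤ a := hk1
      have hk2' : a < st (k + 1) := hk2
      obtain ⟨i, hi, hi'⟩ := hg j (k + 1)
      obtain ⟨s, hs1, hs2, hs3⟩ := hmem _ j hi'
      have hbs : b ≤ s := by
        by_contra h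
        push Not at h
        refine hbet s ?_ h hs3
        have := hmono.monotone (show k + 1 ≤ k + 1 + i by omega)
        omega
      have h1 := hIoc a b hab.le
      have h2 := hsum' k (i + 2)
      have h3 := hw0 k
      have h5 := hinc (b + 1) (st (k + (i + 2))) (by
        rw [show k + (i + 2) = k + 1 + i + 1 by omega]; omega)
      have h6 := hinc (st k + 1) (a + 1) (by omega)
      have h7 : (i + 2) * (w + Z) ≤ (g j + 1) * (w + Z) := Nat.mul_le_mul_right _ (by omega)
      have h8 : (g j + 1) * (w + Z) = g j * (w + Z) + Z + w := by ring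
      show _ ≤ g j * (w + Z) + Z
      omega

end up

theorem feas_iff_bin {J : Type} [Fintype J] {Z w : ℕ} {g p : J → ℕ}
    (hw : ∀ j, (g j + 1) * Z < w) : FeasJ (ff Z w g) (pp w p) ↔ BinJ Z g p :=
  ⟨bin_of_feas hw, feas_of_bin⟩

end Q229.DP
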