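import Pool.Agent.Q229.DP.Sound2

set_option autoImplicit false

/-!
# Sequences of positions give packings of the bin instance
-/

namespace Q229.DP

open Finset Classical

theorem exists_add_mod {N : ℕ} (ζ c : ℕ) (hc : c < N) : ∃ i, i < N ∧ (ζ + i) % N = c := by
  have h1 : ζ % N < N := Nat.mod_lt _ (by omega)
  have h2 := Nat.div_add_mod ζ N
  rcases le_or_gt (ζ % N) c with h | h
  · refine ⟨c - ζ % N, by omega, ?_⟩
    have h3 : ζ + (c - ζ % N) = c + N * (ζ / N) := by omega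
    rw [h3, Nat.add_mul_mod_self_left, Nat.mod_eq_of_lt hc]
  · refine ⟨c + N - ζ % N, by omega, ?_⟩
    have h3 : ζ + (c + N - ζ % N) = c + N * (ζ / N + 1) := by
      rw [Nat.mul_add, Nat.mul_one]; omega
    rw [h3, Nat.add_mul_mod_self_left, Nat.mod_eq_of_lt hc]

theorem exists_add_mod4 {M : ℕ} (ζ : ℕ) {a r : ℕ} (ha : a < 4) (hr : r < M) :
    ∃ i, i < 4 * M ∧ (ζ + i) % 4 = a ∧ (ζ + i) / 4 % M = r := by
  obtain ⟨i, h1, h2⟩ := exists_add_mod (N := 4 * M) ζ (a + 4 * r) (by omega)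
  rw [Nat.mod_mul] at h2
  refine ⟨i, h1, ?_, ?_⟩ <;> omega

theorem pow_mod_ne {τ i j : ℕ} (hij : i < j) (h : τ % 2 ^ (j + 1) = 2 ^ j) :
    τ % 2 ^ (i + 1) ≠ 2 ^ i := by
  have h1 : 2 ^ (i + 1) ∣ τ := by
    have h2 := Nat.div_add_mod τ (2 ^ (j + 1))
    rw [h] at h2
    rw [← h2]
    exact Nat.dvd_add (Dvd.dvd.mul_right (pow_dvd_pow 2 (by omega)) _) (pow_dvd_pow 2 (by omega))
  rw [Nat.mod_eq_zero_of_dvd h1]
  exact (pow_pos (by norm_num) i).ne

namespace Sys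

variable {I : Type} [Fintype I] {Q : Sys I}

/-- membership of jobs in bins -/
def memJ (pos : ℕ → I → ℕ) (ζ : ℕ) : JJ I Q.m → Prop
  | Sum.inl _ => ζ % 2 = 1
  | Sum.inr (Sum.inl κ) => ζ % 4 = κ.val
  | Sum.inr (Sum.inr (Sum.inl i)) => ζ % 4 = pos (ζ / 4) i
  | Sum.inr (Sum.inr (Sum.inr (Sum.inl j))) =>
      ζ % 4 = 0 ∧ ζ / 4 % 2 ^ (j.val + 1) = 2 ^ j.val
  | Sum.inr (Sum.inr (Sum.inr (Sum.inr true))) => ζ % 4 = 0 ∧ ζ / 4 % 2 ^ Q.m = 0
  | Sum.inr (Sum.inr (Sum.inr (Sum.inr false))) => ζ % 4 = 2 ∧ ζ / 4 % 2 ^ Q.m = 2 ^ (Q.m - 1)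

omit [Fintype I] in
theorem sum_C_le (τ : ℕ) (P : Prop) [Decidable P] :
    ∑ j : Fin Q.m, (if P ∧ τ % 2 ^ (j.val + 1) = 2 ^ j.val then 5 else 0) ≤ 5 := by
  by_cases h : ∃ j : Fin Q.m, P ∧ τ % 2 ^ (j.val + 1) = 2 ^ j.val
  · obtain ⟨j, hj, hj'⟩ := h
    rw [Finset.sum_eq_single j]
    · split_ifs <;> omega
    · intro i _ hne
      refine if_neg ?_
      rintro ⟨_, hi⟩
      rcases Nat.lt_or_gt_of_ne (fun he => hne (Fin.ext he) : i.val ≠ j.val) with h1 | h1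
      · exact pow_mod_ne h1 hj' hi
      · exact pow_mod_ne h1 hi hj'
    · intro h1; exact absurd (mem_univ j) h1
  · push Not at h
    rw [Finset.sum_eq_zero]
    · omega
    · intro i _
      exact if_neg (fun h1 => h i h1.1 h1.2)

omit [Fintype I] in
theorem sum_C_zero {τ : ℕ} (P : Prop) [Decidable P] (hτ : τ % 2 ^ Q.m = 0) :
    ∑ j : Fin Q.m, (if P ∧ τ % 2 ^ (j.val + 1) = 2 ^ j.val then 5 else 0) = 0 := by
  refine Finset.sum_eq_zero fun j _ => if_neg ?_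
  rintro ⟨_, h1⟩
  have h2 : 2 ^ (j.val + 1) ∣ τ :=
    (pow_dvd_pow 2 (by have := j.isLt; omega)).trans (Nat.dvd_of_mod_eq_zero hτ)
  rw [Nat.mod_eq_zero_of_dvd h2] at h1
  exact (pow_pos (by norm_num) j.val).ne h1

theorem complete (h : Q.Ok) (pos : ℕ → I → ℕ) (h3 : ∀ τ i, pos τ i < 3)
    (hb : ∀ τ κ, κ < 3 → ∑ i, (if pos τ i = κ then Q.β i else 0) = Q.bc κ)
    (hmv : ∀ τ i, ¬ (pos τ i = 0 ∧ pos (τ + 1) i = 2))
    (hX : ∀ τ, ∑ i, (if pos τ i = 1 then Q.z i else 0) ≤ 1)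
    (hall : ∑ i, Q.z i ≤ 3)
    (hS : ∀ τ, τ % 2 ^ Q.m = 0 → ∀ i, pos τ i = 0 → Q.z i = 0)
    (hH : ∀ τ, τ % 2 ^ Q.m = 2 ^ (Q.m - 1) → ∀ i, pos τ i = 2 → Q.z i = 0) :
    BinJ Q.Z Q.gJ Q.pJ := by
  refine ⟨fun ζ => univ.filter fun j => memJ pos ζ j, ?_, ?_⟩
  · intro ζ
    rw [sum_split]
    simp only [mem_filter, mem_univ, true_and]
    have h4 : ζ % 4 < 4 := Nat.mod_lt _ (by norm_num)
    have e1 : (∑ κ : Fin 4, if memJ (Q := Q) pos ζ (Q.jE κ) then Q.Z - Q.cap κ.val else 0) =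
        Q.Z - Q.cap (ζ % 4) := by
      rw [Finset.sum_eq_single ⟨ζ % 4, h4⟩]
      · exact if_pos rfl
      · intro κ _ hne
        refine if_neg ?_
        intro he
        exact hne (Fin.ext he.symm)
      · intro h1; exact absurd (mem_univ _) h1
    have hz3 : ∀ κ, ∑ i, (if pos (ζ / 4) i = κ then Q.z i else 0) ≤ 3 := by
      intro κ
      refine le_trans (sum_le_sum fun i _ => ?_) hall
      split_ifs <;> omega
    have e2 : (∑ i, if memJ (Q := Q) pos ζ (Q.jI i) then 32 * Q.β i + Q.z i else 0) =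
        32 * (∑ i, if pos (ζ / 4) i = ζ % 4 then Q.β i else 0) +
          ∑ i, if pos (ζ / 4) i = ζ % 4 then Q.z i else 0 := by
      rw [mul_sum, ← sum_add_distrib]
      refine sum_congr rfl fun i _ => ?_
      by_cases h5 : pos (ζ / 4) i = ζ % 4
      · rw [if_pos (show memJ (Q := Q) pos ζ (Q.jI i) from h5.symm), if_pos h5, if_pos h5]
      · rw [if_neg (show ¬ memJ (Q := Q) pos ζ (Q.jI i) from fun h6 => h5 h6.symm), if_neg h5,
          if_neg h5]
        rfl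
    have e3 : (∑ j, if memJ (Q := Q) pos ζ (Q.jC j) then 5 else 0) =
        ∑ j : Fin Q.m, if ζ % 4 = 0 ∧ ζ / 4 % 2 ^ (j.val + 1) = 2 ^ j.val then 5 else 0 := by
      refine sum_congr rfl fun j _ => ?_
      exact if_congr Iff.rfl rfl rfl
    have e4 : (if memJ (Q := Q) pos ζ Q.jY then 9 else 0) = if ζ % 2 = 1 then 9 else 0 :=
      if_congr Iff.rfl rfl rfl
    have e5 : (if memJ (Q := Q) pos ζ (Q.jR true) then 8 else 0) =
        if ζ % 4 = 0 ∧ ζ / 4 % 2 ^ Q.m = 0 then 8 else 0 := if_congr Iff.rfl rfl rfl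
    have e6 : (if memJ (Q := Q) pos ζ (Q.jR false) then 4 else 0) =
        if ζ % 4 = 2 ∧ ζ / 4 % 2 ^ Q.m = 2 ^ (Q.m - 1) then 4 else 0 :=
      if_congr Iff.rfl rfl rfl
    rw [e1, e2, e3, e4, e5, e6]
    have hle := cap_le h (ζ % 4)
    have hC := sum_C_le (Q := Q) (ζ / 4) (ζ % 4 = 0)
    have hC0 : ζ / 4 % 2 ^ Q.m = 0 → (∑ j : Fin Q.m,
        if ζ % 4 = 0 ∧ ζ / 4 % 2 ^ (j.val + 1) = 2 ^ j.val then 5 else 0) = 0 :=
      fun h5 => sum_C_zero _ h5
    have hCn : ζ % 4 ≠ 0 → (∑ j : Fin Q.m,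
        if ζ % 4 = 0 ∧ ζ / 4 % 2 ^ (j.val + 1) = 2 ^ j.val then 5 else 0) = 0 :=
      fun h5 => Finset.sum_eq_zero fun j _ => if_neg (fun h6 => h5 h6.1)
    generalize (∑ j : Fin Q.m,
        if ζ % 4 = 0 ∧ ζ / 4 % 2 ^ (j.val + 1) = 2 ^ j.val then 5 else 0) = C at *
    have hB := hb (ζ / 4)
    have hX' := hX (ζ / 4)
    have hS0 : ζ / 4 % 2 ^ Q.m = 0 → ζ % 4 = 0 →
        ∑ i, (if pos (ζ / 4) i = ζ % 4 then Q.z i else 0) = 0 := by
      intro h5 h6
      refine Finset.sum_eq_zero fun i _ => ?_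
      split_ifs with h7
      · exact hS _ h5 i (h7.trans h6)
      · rfl
    have hH0 : ζ / 4 % 2 ^ Q.m = 2 ^ (Q.m - 1) → ζ % 4 = 2 →
        ∑ i, (if pos (ζ / 4) i = ζ % 4 then Q.z i else 0) = 0 := by
      intro h5 h6
      refine Finset.sum_eq_zero fun i _ => ?_
      split_ifs with h7
      · exact hH _ h5 i (h7.trans h6)
      · rfl
    have h2 : ζ % 2 = ζ % 4 % 2 := by omega
    rw [h2]
    have hz3' := hz3 (ζ % 4)
    have e7 : Q.cap 3 = 9 := rfl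
    have hn3 : ζ % 4 = 3 → (∑ i, if pos (ζ / 4) i = ζ % 4 then Q.β i else 0) = 0 ∧
        (∑ i, if pos (ζ / 4) i = ζ % 4 then Q.z i else 0) = 0 := by
      intro h5
      constructor
      · refine Finset.sum_eq_zero fun i _ => if_neg ?_
        have := h3 (ζ / 4) i
        omega
      · refine Finset.sum_eq_zero fun i _ => if_neg ?_
        have := h3 (ζ / 4) i
        omega
    generalize hr : ζ % 4 = r at *
    interval_cases r
    · have h8 := hB 0 (by norm_num)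
      have h9 : Q.cap 0 = 32 * Q.bc 0 + 8 := rfl
      rw [h8]
      by_cases h10 : ζ / 4 % 2 ^ Q.m = 0
      · have h11 := hC0 h10
        have h12 := hS0 h10 rfl
        simp only [h10, h11, h12]
        simp
        omega
      · simp only [h10]
        simp
        omega
    · have h8 := hB 1 (by norm_num)
      have h9 : Q.cap 1 = 32 * Q.bc 1 + 10 := rfl
      rw [h8]
      have h11 := hCn (by norm_num)
      simp only [h11]
      simp
      omega
    · have h8 := hB 2 (by norm_num)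
      have h9 : Q.cap 2 = 32 * Q.bc 2 + 4 := rfl
      rw [h8]
      have h11 := hCn (by norm_num)
      by_cases h10 : ζ / 4 % 2 ^ Q.m = 2 ^ (Q.m - 1)
      · have h12 := hH0 h10 rfl
        simp only [h10, h11, h12]
        simp
        omega
      · simp only [h10, h11]
        simp
        omega
    · obtain ⟨h8, h9⟩ := hn3 rfl
      have h11 := hCn (by norm_num)
      simp only [h8, h9, h11]
      simp
      omega
  · intro j ζ
    simp only [mem_filter, mem_univ, true_and]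
    rcases j with _ | κ | i | j | b
    · by_cases h5 : ζ % 2 = 1
      · exact ⟨0, by show 0 < 2; norm_num, h5⟩
      · exact ⟨1, by show 1 < 2; norm_num, by show (ζ + 1) % 2 = 1; omega⟩
    · obtain ⟨i, h5, h6⟩ := exists_add_mod ζ κ.val κ.isLt
      exact ⟨i, h5, h6⟩
    · have h5 := h3 (ζ / 4) i
      have h6 := h3 (ζ / 4 + 1) i
      have h7 := hmv (ζ / 4) i
      rcases le_or_gt (ζ % 4) (pos (ζ / 4) i) with h8 | h8
      · refine ⟨pos (ζ / 4) i - ζ % 4, by show _ < 5; omega, ?_⟩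
        show (ζ + (pos (ζ / 4) i - ζ % 4)) % 4 = pos ((ζ + (pos (ζ / 4) i - ζ % 4)) / 4) i
        rw [show (ζ + (pos (ζ / 4) i - ζ % 4)) / 4 = ζ / 4 by omega]
        omega
      · refine ⟨4 + pos (ζ / 4 + 1) i - ζ % 4, by show _ < 5; omega, ?_⟩
        show (ζ + (4 + pos (ζ / 4 + 1) i - ζ % 4)) % 4 =
          pos ((ζ + (4 + pos (ζ / 4 + 1) i - ζ % 4)) / 4) i
        rw [show (ζ + (4 + pos (ζ / 4 + 1) i - ζ % 4)) / 4 = ζ / 4 + 1 by omega]
        omega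
    · obtain ⟨i, h5, h6, h7⟩ := exists_add_mod4 (M := 2 ^ (j.val + 1)) ζ (a := 0)
        (r := 2 ^ j.val) (by norm_num) (Nat.pow_lt_pow_right (by norm_num) (by omega))
      exact ⟨i, h5, h6, h7⟩
    · cases b with
      | true =>
        obtain ⟨i, h5, h6, h7⟩ := exists_add_mod4 (M := 2 ^ Q.m) ζ (a := 0)
          (r := 0) (by norm_num) (by positivity)
        exact ⟨i, h5, h6, h7⟩
      | false =>
        obtain ⟨i, h5, h6, h7⟩ := exists_add_mod4 (M := 2 ^ Q.m) ζ (a := 2)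
          (r := 2 ^ (Q.m - 1)) (by norm_num)
          (Nat.pow_lt_pow_right (by norm_num) (by have := h.m1; omega))
        exact ⟨i, h5, h6, h7⟩

end Sys

end Q229.DP
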