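import Pool.Agent.H829R2.MixT3

set_option autoImplicit false

/-!
# Two-ended reachability for constraint satisfaction problems
-/

namespace Q229.DP.Two

open Pool.Agent.NPC.Mix Pool.Agent.NPC.Mix.T3 Relation

variable {V : Type}

/-- three more variables -/
def vu (c : ℕ) : XL V := Sum.inr (0, 4 + c, 0)

/-- the wires of the new variables -/
def extra : List ((XL V × ℕ) × (XL V × ℕ)) :=
  [((vu 0, 1), (vz, 0)), ((vu 0, 1), (vP 1, 0)), ((vu 0, 1), (vP 1, 2)),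
   ((vu 1, 1), (vz, 0)), ((vu 1, 1), (vP 1, 1)), ((vu 1, 1), (vP 1, 2)),
   ((vu 2, 1), (vz, 0)), ((vu 2, 1), (vP 1, 1)), ((vu 2, 1), (vP 1, 2))]

/-- the extended problem -/
def cspU (φ : List (List (Bool × V))) (X : ℕ → V) (n : ℕ) : Csp (XL V) where
  two := twoX
  wires := extra ++ (cspOf φ X n).wires
  z := vz

section

variable {φ : List (List (Bool × V))} {X : ℕ → V} {n : ℕ}

theorem solU_iff (f : XL V → ℕ) : (cspU φ X n).Sol f ↔ (cspOf φ X n).Sol f ∧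
    (f (vu 0) = 1 → f vz ≠ 0 ∧ f (vP 1) ≠ 0 ∧ f (vP 1) ≠ 2) ∧
    (f (vu 1) = 1 → f vz ≠ 0 ∧ f (vP 1) ≠ 1 ∧ f (vP 1) ≠ 2) ∧
    (f (vu 2) = 1 → f vz ≠ 0 ∧ f (vP 1) ≠ 1 ∧ f (vP 1) ≠ 2) := by
  constructor
  · rintro ⟨h1, h2, h3⟩
    have h4 : ∀ w ∈ extra, ¬ (f w.1.1 = w.1.2 ∧ f w.2.1 = w.2.2) :=
      fun w hw => h3 w (List.mem_append_left _ hw)
    have h5 : ∀ w ∈ (cspOf φ X n).wires, ¬ (f w.1.1 = w.1.2 ∧ f w.2.1 = w.2.2) :=
      fun w hw => h3 w (List.mem_append_right _ hw)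
    refine ⟨⟨h1, h2, h5⟩, ?_, ?_, ?_⟩
    · intro h6
      exact ⟨fun h7 => h4 ((vu 0, 1), (vz, 0)) (by simp [extra]) ⟨h6, h7⟩,
        fun h7 => h4 ((vu 0, 1), (vP 1, 0)) (by simp [extra]) ⟨h6, h7⟩,
        fun h7 => h4 ((vu 0, 1), (vP 1, 2)) (by simp [extra]) ⟨h6, h7⟩⟩
    · intro h6
      exact ⟨fun h7 => h4 ((vu 1, 1), (vz, 0)) (by simp [extra]) ⟨h6, h7⟩,
        fun h7 => h4 ((vu 1, 1), (vP 1, 1)) (by simp [extra]) ⟨h6, h7⟩,
        fun h7 => h4 ((vu 1, 1), (vP 1, 2)) (by simp [extra]) ⟨h6, h7⟩⟩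
    · intro h6
      exact ⟨fun h7 => h4 ((vu 2, 1), (vz, 0)) (by simp [extra]) ⟨h6, h7⟩,
        fun h7 => h4 ((vu 2, 1), (vP 1, 1)) (by simp [extra]) ⟨h6, h7⟩,
        fun h7 => h4 ((vu 2, 1), (vP 1, 2)) (by simp [extra]) ⟨h6, h7⟩⟩
  · rintro ⟨⟨h1, h2, h3⟩, h4, h5, h6⟩
    refine ⟨h1, h2, fun w hw => ?_⟩
    rcases List.mem_append.1 hw with hw | hw
    · simp only [extra, List.mem_cons, List.not_mem_nil, or_false] at hw
      rcases hw with rfl | rfl | rfl | rfl | rfl | rfl | rfl | rfl | rfl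
      · exact fun h => (h4 h.1).1 h.2
      · exact fun h => (h4 h.1).2.1 h.2
      · exact fun h => (h4 h.1).2.2 h.2
      · exact fun h => (h5 h.1).1 h.2
      · exact fun h => (h5 h.1).2.1 h.2
      · exact fun h => (h5 h.1).2.2 h.2
      · exact fun h => (h6 h.1).1 h.2
      · exact fun h => (h6 h.1).2.1 h.2
      · exact fun h => (h6 h.1).2.2 h.2
    · exact h3 w hw

open Classical in
/-- solutions with other values of the new variables -/
noncomputable def setU (c : ℕ → ℕ) (f : XL V → ℕ) : XL V → ℕ := fun y =>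
  if y = vu 0 then c 0 else if y = vu 1 then c 1 else if y = vu 2 then c 2 else f y

theorem setU_of {c : ℕ → ℕ} {f : XL V → ℕ} {y : XL V} (h : ∀ i, y ≠ vu i) :
    setU c f y = f y := by
  unfold setU
  rw [if_neg (h 0), if_neg (h 1), if_neg (h 2)]

theorem vu_inj {i j : ℕ} (h : (vu i : XL V) = vu j) : i = j := by
  simp only [vu, Sum.inr.injEq, Prod.mk.injEq] at h
  omega

theorem setU_vu (c : ℕ → ℕ) (f : XL V → ℕ) {i : ℕ} (hi : i < 3) : setU c f (vu i) = c i := by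
  have h01 : (vu 1 : XL V) ≠ vu 0 := fun h => absurd (vu_inj h) (by norm_num)
  have h02 : (vu 2 : XL V) ≠ vu 0 := fun h => absurd (vu_inj h) (by norm_num)
  have h12 : (vu 2 : XL V) ≠ vu 1 := fun h => absurd (vu_inj h) (by norm_num)
  unfold setU
  interval_cases i
  · rw [if_pos rfl]
  · rw [if_neg h01, if_pos rfl]
  · rw [if_neg h02, if_neg h12, if_pos rfl]

theorem nz (i : ℕ) : (vz : XL V) ≠ vu i := by simp [vz, vu]; omega
theorem nhP (i : ℕ) : (vhP : XL V) ≠ vu i := by simp [vhP, vu]; omega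
theorem nhQ (i : ℕ) : (vhQ : XL V) ≠ vu i := by simp [vhQ, vu]; omega
theorem nβ (i : ℕ) : (vβ : XL V) ≠ vu i := by simp [vβ, vu]; omega
theorem nP (j i : ℕ) : (vP j : XL V) ≠ vu i := by simp [vP, vu]
theorem nQ (j i : ℕ) : (vQ j : XL V) ≠ vu i := by simp [vQ, vu]
theorem nc (j k i : ℕ) : (vc j k : XL V) ≠ vu i := by simp [vc, vu]
theorem nX (x : V) (i : ℕ) : (Sum.inl x : XL V) ≠ vu i := by simp [vu]

theorem setU_sol {c : ℕ → ℕ} (hc : ∀ i, c i ≤ 1) {f : XL V → ℕ} (h : (cspOf φ X n).Sol f) :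
    (cspOf φ X n).Sol (setU c f) := by
  rw [sol_iff] at h ⊢
  refine ⟨?_, ?_, ?_, ?_, ?_, ?_, ?_, ?_, ?_, ?_, ?_, ?_, ?_, ?_, ?_, ?_⟩
  · intro x
    have h0 := hc 0; have h1 := hc 1; have h2 := hc 2; have h3 := h.le2 x
    unfold setU; split_ifs <;> omega
  · intro x hx
    have h0 := hc 0; have h1 := hc 1; have h2 := hc 2; have h3 := h.two x hx
    unfold setU; split_ifs <;> omega
  · rw [setU_of nhP, setU_of nhQ]; exact h.w1
  · rw [setU_of nβ, setU_of nhP]; exact h.w2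
  · rw [setU_of nβ, setU_of nhQ]; exact h.w3
  · rw [setU_of nz, setU_of (nX _)]; exact h.w4
  · rw [setU_of nz, setU_of nhP]; exact h.w5
  · intro i hi; rw [setU_of (nP i), setU_of (nX _)]; exact h.p0 i hi
  · intro i hi; rw [setU_of (nP i), setU_of (nX _)]; exact h.p1 i hi
  · intro i hi; rw [setU_of (nP i), setU_of nhP]; exact h.p2 i hi
  · intro i hi; rw [setU_of (nQ i), setU_of (nX _)]; exact h.q0 i hi
  · intro i hi; rw [setU_of (nQ i), setU_of (nX _)]; exact h.q1 i hi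
  · intro i hi; rw [setU_of (nQ i), setU_of nhQ]; exact h.q2 i hi
  · intro i C hiC j l hjl; rw [setU_of (nc i j), setU_of (nX _)]; exact h.c0 i C hiC j l hjl
  · intro i C hiC j hj; rw [setU_of (nc i j), setU_of (nc i (j + 1))]; exact h.c1 i C hiC j hj
  · intro i C hiC j hj; rw [setU_of (nc i j), setU_of nβ]; exact h.c2 i C hiC j hj

theorem setU_solU0 {f : XL V → ℕ} (h : (cspOf φ X n).Sol f) :
    (cspU φ X n).Sol (setU (fun _ => 0) f) := by
  rw [solU_iff]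
  refine ⟨setU_sol (fun _ => Nat.zero_le _) h, ?_, ?_, ?_⟩
  · rw [setU_vu _ _ (by norm_num)]; exact fun h => absurd h (by norm_num)
  · rw [setU_vu _ _ (by norm_num)]; exact fun h => absurd h (by norm_num)
  · rw [setU_vu _ _ (by norm_num)]; exact fun h => absurd h (by norm_num)

theorem lift0 {f g : XL V → ℕ} (h : Rea (cspOf φ X n) f g) :
    Rea (cspU φ X n) (setU (fun _ => 0) f) (setU (fun _ => 0) g) := by
  refine ReflTransGen.lift _ ?_ _ _ h
  rintro a b ⟨h1, h2, x, hx⟩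
  refine ⟨setU_solU0 h1, setU_solU0 h2, x, fun y hy => ?_⟩
  unfold setU
  split_ifs <;> first | rfl | exact hx y hy

theorem down {f g : XL V → ℕ} (h : Rea (cspU φ X n) f g) : Rea (cspOf φ X n) f g := by
  induction h with
  | refl => exact ReflTransGen.refl
  | tail _ h2 ih =>
    obtain ⟨h3, h4, h5⟩ := h2
    exact ih.tail ⟨((solU_iff _).1 h3).1, ((solU_iff _).1 h4).1, h5⟩

/-- setting the target variable -/
theorem set_z' {f : XL V → ℕ} {v : ℕ → Bool} (h : HP φ X n v f) (hn : 0 < n) (hv : v 0 = true) :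
    ∃ g, Rea (cspOf φ X n) f g ∧ (cspOf φ X n).Sol g ∧ g vz = 1 ∧ ∀ i < n, g (vP i) = bt (v i) := by
  have hX := hold_val h.1 hn (h.2.2 0 hn)
  have hX1 : f (Sum.inl (X 0)) = 1 := by rw [hX, hv]; rfl
  have hne : ∀ y : XL V, y ≠ vz → hyb {vz} (fun _ => 1) f y = f y := fun y hy => hyb_not hy
  have hz : hyb {vz} (fun _ => 1) f (vz : XL V) = 1 := hyb_mem rfl
  have eX : ∀ x : V, hyb {vz} (fun _ => 1) f (Sum.inl x : XL V) = f (Sum.inl x) :=
    fun x => hne _ (by simp [vz])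
  have e1 : hyb {vz} (fun _ => 1) f (vhP : XL V) = f vhP := hne _ (by simp [vz, vhP])
  have e2 : hyb {vz} (fun _ => 1) f (vhQ : XL V) = f vhQ := hne _ (by simp [vz, vhQ])
  have e3 : hyb {vz} (fun _ => 1) f (vβ : XL V) = f vβ := hne _ (by simp [vz, vβ])
  have e4 : ∀ i, hyb {vz} (fun _ => 1) f (vP i : XL V) = f (vP i) :=
    fun i => hne _ (by simp [vz, vP])
  have e5 : ∀ i, hyb {vz} (fun _ => 1) f (vQ i : XL V) = f (vQ i) :=
    fun i => hne _ (by simp [vz, vQ])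
  have e6 : ∀ i j, hyb {vz} (fun _ => 1) f (vc i j : XL V) = f (vc i j) :=
    fun i j => hne _ (by simp [vz, vc])
  have hsol : SolC φ X n (hyb {vz} (fun _ => 1) f) := by
    have h' := h.1
    refine ⟨fun x => hyb_le (by omega) (h'.le2 x), fun x hx => hyb_le (by omega) (h'.two x hx),
      ?_, ?_, ?_, ?_, ?_, ?_, ?_, ?_, ?_, ?_, ?_, ?_, ?_, ?_⟩
    · rw [e1, e2]; exact h'.w1
    · rw [e1, e3]; exact h'.w2
    · rw [e3, e2]; exact h'.w3
    · rw [hz, eX, hX1]; simp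
    · rw [hz, e1, h.2.1]; simp
    · intro i hi; rw [e4, eX]; exact h'.p0 i hi
    · intro i hi; rw [e4, eX]; exact h'.p1 i hi
    · intro i hi; rw [e4, e1]; exact h'.p2 i hi
    · intro i hi; rw [e5, eX]; exact h'.q0 i hi
    · intro i hi; rw [e5, eX]; exact h'.q1 i hi
    · intro i hi; rw [e5, e2]; exact h'.q2 i hi
    · intro i C hiC j l hjl; rw [e6, eX]; exact h'.c0 i C hiC j l hjl
    · intro i C hiC j hj; rw [e6, e6]; exact h'.c1 i C hiC j hj
    · intro i C hiC j hj; rw [e6, e3]; exact h'.c2 i C hiC j hj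
  refine ⟨_, Relation.ReflTransGen.single ⟨(sol_iff _ _ _ _).2 h.1, (sol_iff _ _ _ _).2 hsol,
    vz, fun y hy => hne y hy⟩, (sol_iff _ _ _ _).2 hsol, hz, fun i hi => ?_⟩
  rw [e4]
  exact h.2.2 i hi

theorem setU_step {c c' : ℕ → ℕ} {f : XL V → ℕ} (h : (cspU φ X n).Sol (setU c f))
    (h' : (cspU φ X n).Sol (setU c' f)) (i : ℕ) (hi : ∀ j, j ≠ i → c' j = c j) :
    (cspU φ X n).Step (setU c f) (setU c' f) := by
  refine ⟨h, h', vu i, fun y hy => ?_⟩
  unfold setU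
  split_ifs with h0 h1 h2
  · exact hi 0 (fun h3 => hy (by rw [← h3]; exact h0))
  · exact hi 1 (fun h3 => hy (by rw [← h3]; exact h1))
  · exact hi 2 (fun h3 => hy (by rw [← h3]; exact h2))
  · rfl

theorem two_ended (hn : 1 < n) (hr : ∀ v, RelE φ X n v v)
    (h : ∃ v w : ℕ → Bool, v 0 = true ∧ v 1 = true ∧ w 0 = true ∧ w 1 = false ∧
      EqvGen (RelE φ X n) v w) :
    ∃ f g, (cspU φ X n).Sol f ∧ (cspU φ X n).Sol g ∧ Rea (cspU φ X n) f g ∧
      (f (vu 0) = 1 ∧ f (vu 1) = 0 ∧ f (vu 2) = 0) ∧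
      (g (vu 0) = 0 ∧ g (vu 1) = 1 ∧ g (vu 2) = 1) := by
  obtain ⟨v, w, hv0, hv1, hw0, hw1, hvw⟩ := h
  obtain ⟨τ, hτ, h1, h2⟩ := hr v
  obtain ⟨hA, -⟩ := HA (φ := φ) (X := X) (n := n) (f := fun _ => 0) (by intro x; omega)
    (by intro x _; omega) hτ h1 h2
  obtain ⟨s, hs1, hs2, hs3, hs4⟩ := set_z' hA (by omega) hv0
  obtain ⟨g, hg1, hg2⟩ := (walk hr hvw).1 _ hA
  obtain ⟨t, ht1, ht2, ht3, ht4⟩ := set_z' hg2 (by omega) hw0
  have hst : Rea (cspOf φ X n) s t := ((rea_symm hs1).trans hg1).trans ht1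
  have sP : s (vP 1) = 1 := by rw [hs4 1 hn, hv1]; rfl
  have tP : t (vP 1) = 0 := by rw [ht4 1 hn, hw1]; rfl
  set c1 : ℕ → ℕ := fun i => if i = 0 then 1 else 0 with hc1
  set c2 : ℕ → ℕ := fun i => if i = 1 then 1 else 0 with hc2
  set c3 : ℕ → ℕ := fun i => if i = 1 ∨ i = 2 then 1 else 0 with hc3
  have e1 : ∀ i, c1 i ≤ 1 := fun i => by simp only [hc1]; split_ifs <;> omega
  have e2 : ∀ i, c2 i ≤ 1 := fun i => by simp only [hc2]; split_ifs <;> omega
  have e3 : ∀ i, c3 i ≤ 1 := fun i => by simp only [hc3]; split_ifs <;> omega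
  have a1 : (cspU φ X n).Sol (setU c1 s) := by
    rw [solU_iff]
    refine ⟨setU_sol e1 hs2, ?_, ?_, ?_⟩ <;> rw [setU_vu _ _ (by norm_num)]
    · intro _
      rw [setU_of nz, setU_of (nP 1), hs3, sP]
      norm_num
    · exact fun h => absurd h (by simp [hc1])
    · exact fun h => absurd h (by simp [hc1])
  have a2 : (cspU φ X n).Sol (setU c2 t) := by
    rw [solU_iff]
    refine ⟨setU_sol e2 ht2, ?_, ?_, ?_⟩ <;> rw [setU_vu _ _ (by norm_num)]
    · exact fun h => absurd h (by simp [hc2])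
    · intro _
      rw [setU_of nz, setU_of (nP 1), ht3, tP]
      norm_num
    · exact fun h => absurd h (by simp [hc2])
  have a3 : (cspU φ X n).Sol (setU c3 t) := by
    rw [solU_iff]
    refine ⟨setU_sol e3 ht2, ?_, ?_, ?_⟩ <;> rw [setU_vu _ _ (by norm_num)]
    · exact fun h => absurd h (by simp [hc3])
    · intro _
      rw [setU_of nz, setU_of (nP 1), ht3, tP]
      norm_num
    · intro _
      rw [setU_of nz, setU_of (nP 1), ht3, tP]
      norm_num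
  refine ⟨setU c1 s, setU c3 t, a1, a3, ?_, ⟨?_, ?_, ?_⟩, ⟨?_, ?_, ?_⟩⟩
  · have b1 := setU_step a1 (setU_solU0 hs2) 0 (fun j hj => by simp [hc1, hj])
    have b2 := setU_step (setU_solU0 ht2) a2 1 (fun j hj => by simp [hc2, hj])
    have b3 := setU_step a2 a3 2 (fun j hj => by
      simp only [hc2, hc3]
      split_ifs <;> omega)
    exact (((ReflTransGen.single b1).trans (lift0 hst)).tail b2).tail b3
  all_goals rw [setU_vu _ _ (by norm_num)]
  all_goals simp [hc1, hc3]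

theorem two_ended' (hn : 1 < n) (hr : ∀ v, RelE φ X n v v) {f g : XL V → ℕ}
    (hf : (cspU φ X n).Sol f) (hg : (cspU φ X n).Sol g) (hfg : Rea (cspU φ X n) f g)
    (h1 : f (vu 0) = 1) (h2 : g (vu 1) = 1 ∨ g (vu 2) = 1) :
    ∃ v w : ℕ → Bool, v 0 = true ∧ v 1 = true ∧ w 0 = true ∧ w 1 = false ∧
      EqvGen (RelE φ X n) v w := by
  obtain ⟨hf1, hf2, -, -⟩ := (solU_iff f).1 hf
  obtain ⟨hg1, -, hg3, hg4⟩ := (solU_iff g).1 hg
  rw [sol_iff] at hf1 hg1
  obtain ⟨a1, a2, a3⟩ := hf2 h1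
  have a4 := hf1.two vz rfl
  have a5 := hf1.le2 (vP 1)
  have fz : f vz = 1 := by omega
  have fP : f (vP 1) = 1 := by omega
  obtain ⟨b1, b2, b3⟩ : g vz ≠ 0 ∧ g (vP 1) ≠ 1 ∧ g (vP 1) ≠ 2 := h2.elim hg3 hg4
  have b4 := hg1.two vz rfl
  have b5 := hg1.le2 (vP 1)
  have gz : g vz = 1 := by omega
  have gP : g (vP 1) = 0 := by omega
  have fhP : f vhP = 1 := by
    have := hf1.w5
    have := hf1.two vhP rfl
    omega
  have ghP : g vhP = 1 := by
    have := hg1.w5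
    have := hg1.two vhP rfl
    omega
  obtain ⟨w, hw, hvw⟩ := val_reach hr (down hfg) (Or.inl ⟨fhP, regP hf1 fhP⟩)
  rcases hw with ⟨-, hw⟩ | ⟨h8, -⟩
  · refine ⟨_, w, ?_, ?_, ?_, ?_, hvw⟩
    · have h9 := hold_val (i := 0) hf1 (by omega) (v := fun i => decide (f (vP i) = 1))
        (regP hf1 fhP 0 (by omega))
      have h6 := hf1.w4
      simp only [decide_eq_true_eq]
      by_contra h10
      rw [decide_eq_false h10] at h9
      exact h6 ⟨fz, h9⟩
    · simp only [decide_eq_true_eq]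
      exact fP
    · have h9 := hold_val hg1 (by omega) (hw 0 (by omega))
      have h6 := hg1.w4
      cases h10 : w 0
      · rw [h10] at h9
        exact absurd ⟨gz, h9⟩ h6
      · rfl
    · have h9 := hw 1 hn
      rw [gP] at h9
      cases h10 : w 1
      · rfl
      · rw [h10] at h9; exact absurd h9 (by decide)
  · exact absurd ghP h8

end

end Q229.DP.Two
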