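import Pool.Agent.Q229.DP.Items

set_option autoImplicit false

/-!
# From packings to sequences of solutions
-/

namespace Q229.DP

open Finset

namespace Ab

variable {n w : ℕ} (A : Ab n w)

theorem cnt_lt (pos : It n w → ℕ) (κ : ℕ) (d : Dg n w) : A.cnt pos κ d < Rb n := by
  unfold Rb
  have h1 : ∀ P : Fin n × Fin 3 → Prop, ∀ [DecidablePred P],
      ∑ p : Fin n × Fin 3, (if P p then 1 else 0) ≤ 3 * n := by
    intro P _
    refine le_trans (Finset.sum_le_sum (g := fun _ => 1) fun p _ => ?_) ?_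
    · split_ifs <;> omega
    · simp; omega
  rcases d with c | x | k
  · have h3 : c = 0 ∨ c = 1 ∨ c = 2 := by
      rcases c with ⟨c, hc⟩
      interval_cases c <;> simp
    rcases h3 with h3 | h3 | h3 <;> subst h3
    · rw [cnt_E]
      have := h1 (fun p => pos (iI p) = κ)
      split_ifs <;> omega
    · rw [cnt_η]
      split_ifs <;> omega
    · rw [cnt_Φ]
      have := h1 (fun p => pos (iI p) = κ ∧ A.T p.1 = true ∧ p.2 = 2)
      omega
  · rw [cnt_x, Fin.sum_univ_three]
    split_ifs <;> omega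
  · rw [cnt_k]
    split_ifs <;> omega

theorem cX_lt (d : Dg n w) : cX d < Rb n := by
  unfold Rb
  rcases d with c | x | k
  · simp only [cX, Sum.elim_inl]; split_ifs <;> omega
  · simp only [cX, Sum.elim_inr]; omega
  · simp only [cX, Sum.elim_inr]; omega

theorem cH_lt (d : Dg n w) : cH d < Rb n := by
  unfold Rb
  rcases d with c | x | k
  · simp only [cH, Sum.elim_inl]; split_ifs <;> omega
  · simp only [cH, Sum.elim_inr]; omega
  · simp only [cH, Sum.elim_inr]; omega

theorem val_inj {a c : Dg n w → ℕ} (ha : ∀ d, a d < Rb n) (hc : ∀ d, c d < Rb n)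
    (h : val a = val c) (d : Dg n w) : a d = c d :=
  digits_inj idx (by unfold Rb; omega) a c (3 + n + w) univ (fun d _ => idx_lt d)
    (fun _ _ _ _ h => idx_inj h) (fun d _ => ha d) (fun d _ => hc d) h d (mem_univ d)

/-- total digits -/
theorem tot_ge (d : Dg n w) : cX d + cH d ≤ A.cnt (fun _ => 0) 0 d := by
  rcases d with c | x | k
  · have h3 : c = 0 ∨ c = 1 ∨ c = 2 := by
      rcases c with ⟨c, hc⟩
      interval_cases c <;> simp
    rcases h3 with h3 | h3 | h3 <;> subst h3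
    · rw [cnt_E]
      simp [cX, cH]; omega
    · rw [cnt_η]
      simp [cX, cH]
    · simp [cX, cH]
  · rw [cnt_x, Fin.sum_univ_three]
    simp [cX, cH]
  · rw [cnt_k]
    simp [cX, cH]

theorem sum_beta : ∑ i, A.beta i = val (A.cnt (fun _ => 0) 0) := by
  rw [← A.sum_pos]
  simp

theorem val_add (a c : Dg n w → ℕ) : val (fun d => a d + c d) = val a + val c := by
  unfold val
  rw [← Finset.sum_add_distrib]
  exact Finset.sum_congr rfl fun d _ => by ring

theorem val_mono {a c : Dg n w → ℕ} (h : ∀ d, a d ≤ c d) : val a ≤ val c :=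
  Finset.sum_le_sum fun d _ => Nat.mul_le_mul_right _ (h d)

theorem beta_pos (i : It n w) : 1 ≤ A.beta i := by
  have h : ∃ d, 1 ≤ A.b i d := by
    rcases i with p | x | p | c
    · exact ⟨Sum.inl 0, by simp [b]⟩
    · exact ⟨Sum.inr (Sum.inl x), by simp [b]⟩
    · exact ⟨Sum.inr (Sum.inr p.1), by simp [b]⟩
    · exact ⟨Sum.inl 1, by simp [b]⟩
  obtain ⟨d, hd⟩ := h
  have h1 : A.b i d * Rb n ^ idx d ≤ A.beta i :=
    Finset.single_le_sum (f := fun d => A.b i d * Rb n ^ idx d) (fun _ _ => Nat.zero_le _)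
      (mem_univ d)
  have h2 : 0 < Rb n ^ idx d := pow_pos (by unfold Rb; omega) _
  calc 1 ≤ A.b i d * Rb n ^ idx d := Nat.mul_pos hd h2
    _ ≤ _ := h1

theorem ok {m : ℕ} (hm : 1 ≤ m) : (A.sys m).Ok where
  pos := A.beta_pos
  tot := by
    have h1 : val (n := n) (w := w) cX + val (n := n) (w := w) cH ≤ ∑ i, A.beta i := by
      rw [A.sum_beta, ← val_add]
      exact val_mono A.tot_ge
    show ∑ i, A.beta i = (∑ i, A.beta i - val (n := n) (w := w) cX - val (n := n) (w := w) cH) +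
      val (n := n) (w := w) cX + val (n := n) (w := w) cH
    omega
  m1 := hm

theorem decX {m : ℕ} {pos : It n w → ℕ}
    (hb : ∀ κ, κ < 3 → ∑ i, (if pos i = κ then (A.sys m).β i else 0) = (A.sys m).bc κ)
    (d : Dg n w) : A.cnt pos 1 d = cX d := by
  refine val_inj (A.cnt_lt pos 1) cX_lt ?_ d
  rw [← A.sum_pos]
  exact hb 1 (by norm_num)

theorem decH {m : ℕ} {pos : It n w → ℕ}
    (hb : ∀ κ, κ < 3 → ∑ i, (if pos i = κ then (A.sys m).β i else 0) = (A.sys m).bc κ)
    (d : Dg n w) : A.cnt pos 2 d = cH d := by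
  refine val_inj (A.cnt_lt pos 2) cH_lt ?_ d
  rw [← A.sum_pos]
  exact hb 2 (by norm_num)

variable {A}

theorem H_facts {pos : It n w → ℕ} (h : ∀ d, A.cnt pos 2 d = cH d) :
    ∃ f : Fin n → Fin 3, A.Sol f ∧ ∀ p : Fin n × Fin 3, pos (iI p) = 2 ↔ p.2 = f p.1 := by
  have h1 := h (Sum.inl 1)
  rw [cnt_η] at h1
  have h2 := h (Sum.inl 0)
  rw [cnt_E] at h2
  have h3 : cH (n := n) (w := w) (Sum.inl 1) = 0 := rfl
  have h4 : cH (n := n) (w := w) (Sum.inl 0) = n := rfl
  rw [h3] at h1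
  rw [h4] at h2
  have h5 : (if pos (iE true) = 2 then 1 else 0) = 0 := by omega
  rw [h5, Fintype.sum_prod_type] at h2
  have h6 : ∀ x, ∑ v : Fin 3, (if pos (iI (x, v)) = 2 then 1 else 0) ≤ 1 := by
    intro x
    have h7 := h (Sum.inr (Sum.inl x))
    rw [cnt_x] at h7
    have h8 : cH (n := n) (w := w) (Sum.inr (Sum.inl x)) = 1 := rfl
    omega
  have h7 : ∀ x, ∑ v : Fin 3, (if pos (iI (x, v)) = 2 then 1 else 0) = 1 := by
    by_contra h8
    push Not at h8
    obtain ⟨x, hx⟩ := h8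
    have h9 : ∑ x, ∑ v : Fin 3, (if pos (iI (x, v)) = 2 then 1 else 0) < ∑ x : Fin n, 1 :=
      Finset.sum_lt_sum (fun y _ => h6 y) ⟨x, mem_univ x, lt_of_le_of_ne (h6 x) hx⟩
    simp only [sum_const, card_univ, Fintype.card_fin, smul_eq_mul, mul_one] at h9
    omega
  have h8 : ∀ x, ∃ v : Fin 3, ∀ v' : Fin 3, pos (iI (x, v')) = 2 ↔ v' = v := by
    intro x
    have h9 := h7 x
    rw [Fin.sum_univ_three] at h9
    by_cases g0 : pos (iI (x, 0)) = 2 <;> by_cases g1 : pos (iI (x, 1)) = 2 <;>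
      by_cases g2 : pos (iI (x, 2)) = 2 <;> simp only [g0, g1, g2, if_true, if_false] at h9 <;>
      try omega
    · refine ⟨0, fun v' => ?_⟩
      rcases v' with ⟨v, hv⟩
      interval_cases v
      · simp only [Fin.zero_eta, g0]
      · simp only [Fin.mk_one, g1]; simp
      · simp only [Fin.reduceFinMk, g2]; simp
    · refine ⟨1, fun v' => ?_⟩
      rcases v' with ⟨v, hv⟩
      interval_cases v
      · simp only [Fin.zero_eta, g0]; simp
      · simp only [Fin.mk_one, g1]
      · simp only [Fin.reduceFinMk, g2]; simp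
    · refine ⟨2, fun v' => ?_⟩
      rcases v' with ⟨v, hv⟩
      interval_cases v
      · simp only [Fin.zero_eta, g0]; simp
      · simp only [Fin.mk_one, g1]; simp
      · simp only [Fin.reduceFinMk, g2]
  choose f hf using h8
  refine ⟨f, ⟨?_, ?_⟩, fun p => hf p.1 p.2⟩
  · intro x hx hfx
    have h9 := h (Sum.inl 2)
    rw [cnt_Φ] at h9
    have h10 : cH (n := n) (w := w) (Sum.inl 2) = 0 := rfl
    rw [h10] at h9
    have h11 := (Finset.sum_eq_zero_iff.1 h9) (x, 2) (mem_univ _)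
    rw [if_pos ⟨(hf x 2).2 hfx.symm, hx, rfl⟩] at h11
    omega
  · rintro k ⟨h9, h10⟩
    have h11 := h (Sum.inr (Sum.inr k))
    rw [cnt_k] at h11
    have h12 : cH (n := n) (w := w) (Sum.inr (Sum.inr k)) = 1 := rfl
    rw [h12, if_pos ((hf _ _).2 h9.symm), if_pos ((hf _ _).2 h10.symm)] at h11
    omega

theorem X_facts {pos : It n w → ℕ} (h : ∀ d, A.cnt pos 1 d = cX d) {p q : Fin n × Fin 3}
    (hp : pos (iI p) = 1) (hq : pos (iI q) = 1) : p = q := by
  by_contra hne
  have h2 := h (Sum.inl 0)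
  rw [cnt_E] at h2
  have h3 : cX (n := n) (w := w) (Sum.inl 0) = 1 := rfl
  rw [h3] at h2
  have h4 : ∑ p ∈ ({p, q} : Finset (Fin n × Fin 3)), (if pos (iI p) = 1 then 1 else 0) ≤
      ∑ p : Fin n × Fin 3, if pos (iI p) = 1 then 1 else 0 :=
    Finset.sum_le_sum_of_subset (subset_univ _)
  rw [Finset.sum_pair hne, if_pos hp, if_pos hq] at h4
  omega

theorem Step.symm {f g : Fin n → Fin 3} (h : A.Step f g) : A.Step g f :=
  ⟨h.2.1, h.1, by
    obtain ⟨x, hx⟩ := h.2.2
    exact ⟨x, fun y hy => (hx y hy).symm⟩⟩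

theorem conn_symm {f g : Fin n → Fin 3} (h : Relation.ReflTransGen A.Step f g) :
    Relation.ReflTransGen A.Step g f := by
  induction h with
  | refl => exact Relation.ReflTransGen.refl
  | tail _ h2 ih => exact Relation.ReflTransGen.head h2.symm ih

theorem sound {m : ℕ} (hm : 1 ≤ m) (hT : A.T A.u1 = true) (h23 : A.u2 ≠ A.u3)
    (hb : BinJ (A.sys m).Z (A.sys m).gJ (A.sys m).pJ) :
    ∃ f g, A.Sol f ∧ A.Sol g ∧ Relation.ReflTransGen A.Step f g ∧ f A.u1 = 1 ∧
      (g A.u2 = 1 ∨ g A.u3 = 1) := by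
  obtain ⟨pos, h3, hcap, hmv, ⟨τH, hH⟩, ⟨τS, hS⟩⟩ := (A.sys m).sound (A.ok hm) hb
  have hf : ∀ τ, ∃ f : Fin n → Fin 3, A.Sol f ∧
      ∀ p : Fin n × Fin 3, pos τ (iI p) = 2 ↔ p.2 = f p.1 :=
    fun τ => H_facts (A.decH (hcap τ))
  choose f hf hf' using hf
  have hstep : ∀ τ, A.Step (f τ) (f (τ + 1)) := by
    intro τ
    refine ⟨hf τ, hf (τ + 1), ?_⟩
    by_cases hall : ∀ y, f (τ + 1) y = f τ y
    · exact ⟨A.u1, fun y _ => hall y⟩
    · push Not at hall
      obtain ⟨x, hx⟩ := hall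
      refine ⟨x, fun y hy => ?_⟩
      by_contra hne
      rcases hmv with hmv | hmv
      · have key : ∀ z, f (τ + 1) z ≠ f τ z → pos τ (iI (z, f (τ + 1) z)) = 1 := by
          intro z hz
          have e1 := (hf' (τ + 1) (z, f (τ + 1) z)).2 rfl
          have e2 : pos τ (iI (z, f (τ + 1) z)) ≠ 2 := fun e3 => hz ((hf' τ _).1 e3)
          have e3 := h3 τ (iI (z, f (τ + 1) z))
          have e4 := hmv τ (iI (z, f (τ + 1) z))
          omega
        have e5 := X_facts (A.decX (hcap τ)) (key x hx) (key y hne)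
        exact hy (Prod.mk.inj e5).1.symm
      · have key : ∀ z, f (τ + 1) z ≠ f τ z → pos (τ + 1) (iI (z, f τ z)) = 1 := by
          intro z hz
          have e1 := (hf' τ (z, f τ z)).2 rfl
          have e2 : pos (τ + 1) (iI (z, f τ z)) ≠ 2 := fun e3 => hz ((hf' (τ + 1) _).1 e3).symm
          have e3 := h3 (τ + 1) (iI (z, f τ z))
          have e4 := hmv τ (iI (z, f τ z))
          omega
        have e5 := X_facts (A.decX (hcap (τ + 1))) (key x hx) (key y hne)
        exact hy (Prod.mk.inj e5).1.symm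
  have hconn : ∀ τ k, Relation.ReflTransGen A.Step (f τ) (f (τ + k)) := by
    intro τ k
    induction k with
    | zero => exact Relation.ReflTransGen.refl
    | succ k ih => exact ih.tail (hstep (τ + k))
  refine ⟨f τH, f τS, hf τH, hf τS, ?_, ?_, ?_⟩
  · rcases le_total τH τS with h | h
    · obtain ⟨k, rfl⟩ := Nat.exists_eq_add_of_le h
      exact hconn _ _
    · obtain ⟨k, rfl⟩ := Nat.exists_eq_add_of_le h
      exact conn_symm (hconn _ _)
  · have h5 : f τH A.u1 ≠ 0 := by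
      intro h6
      have h7 := hH (iI (A.u1, 0)) ((hf' τH _).2 h6.symm)
      have h8 : A.mark (iI (w := w) (A.u1, 0)) = 1 := by simp [mark]
      exact absurd (h8.symm.trans h7) (by norm_num)
    have h6 := (hf τH).1 A.u1 hT
    generalize f τH A.u1 = v at *
    revert v
    decide
  · have h5 : ∀ p : Fin n × Fin 3, A.mark (iI (w := w) p) = 1 → pos τS (iI p) ≠ 0 := by
      intro p hp h6
      have h7 := hS (iI p) h6
      exact absurd (hp.symm.trans h7) (by norm_num)
    have h6 := h5 (A.u1, 0) (by simp [mark])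
    have h7 := h5 (A.u2, 1) (by simp [mark])
    have h8 := h5 (A.u3, 1) (by simp [mark])
    by_contra h9
    push Not at h9
    have e1 : pos τS (iI (A.u2, 1)) ≠ 2 := fun e => h9.1 ((hf' τS _).1 e).symm
    have e2 : pos τS (iI (A.u3, 1)) ≠ 2 := fun e => h9.2 ((hf' τS _).1 e).symm
    have e3 := h3 τS (iI (A.u2, 1))
    have e4 := h3 τS (iI (A.u3, 1))
    have e5 := X_facts (A.decX (hcap τS)) (p := (A.u2, 1)) (q := (A.u3, 1)) (by omega) (by omega)
    exact h23 (Prod.mk.inj e5).1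

end Ab

end Q229.DP
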