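import Pool.Agent.Q229.DP.Decode

set_option autoImplicit false

/-!
# From sequences of solutions to packings
-/

namespace Q229.DP

open Finset

namespace Ab

variable {n w : ℕ} (A : Ab n w)

/-- one end of the wire is held -/
def hw (f : Fin n → Fin 3) (k : Fin w) : Prop :=
  f (A.e k).1.1 = (A.e k).1.2 ∨ f (A.e k).2.1 = (A.e k).2.2

instance (f : Fin n → Fin 3) (k : Fin w) : Decidable (A.hw f k) := by
  unfold hw; infer_instance

/-- one end of the wire is exchanged -/
def xw (t : Option (Fin n × Fin 3)) (k : Fin w) : Prop :=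
  t = some (A.e k).1 ∨ t = some (A.e k).2

instance (t : Option (Fin n × Fin 3)) (k : Fin w) : Decidable (A.xw t k) := by
  unfold xw; infer_instance

/-- the positions of the items in a state -/
def spos (f : Fin n → Fin 3) (t : Option (Fin n × Fin 3)) : It n w → ℕ
  | Sum.inl p => if p.2 = f p.1 then 2 else if t = some p then 1 else 0
  | Sum.inr (Sum.inl x) => if t.map Prod.fst = some x then 0 else 1
  | Sum.inr (Sum.inr (Sum.inl (k, true))) => if ¬ A.hw f k ∧ ¬ A.xw t k then 1 else 0
  | Sum.inr (Sum.inr (Sum.inl (k, false))) =>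
      if ¬ A.hw f k then 2 else if ¬ A.xw t k then 1 else 0
  | Sum.inr (Sum.inr (Sum.inr true)) => if t = none then 1 else 0
  | Sum.inr (Sum.inr (Sum.inr false)) => if t = none then 0 else 1

theorem spos_lt (f : Fin n → Fin 3) (t : Option (Fin n × Fin 3)) (i : It n w) :
    A.spos f t i < 3 := by
  rcases i with p | x | ⟨k, _ | _⟩ | (_ | _) <;> simp only [spos] <;> split_ifs <;> omega

/-- admissible states -/
def StOk (f : Fin n → Fin 3) (t : Option (Fin n × Fin 3)) : Prop :=
  A.Sol f ∧ ∀ p, t = some p → p.2 ≠ f p.1 ∧ (A.T p.1 = true → p.2 ≠ 2)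

theorem spos_I2 (f : Fin n → Fin 3) (t : Option (Fin n × Fin 3)) (p : Fin n × Fin 3) :
    A.spos f t (iI p) = 2 ↔ p.2 = f p.1 := by
  simp only [spos]; split_ifs <;> simp_all

theorem spos_I1 {f : Fin n → Fin 3} {t : Option (Fin n × Fin 3)} (h : A.StOk f t)
    (p : Fin n × Fin 3) : A.spos f t (iI p) = 1 ↔ t = some p := by
  have h1 := h.2 p
  simp only [spos]; split_ifs <;> simp_all

theorem cnt_H {f : Fin n → Fin 3} {t : Option (Fin n × Fin 3)} (h : A.StOk f t) (d : Dg n w) :
    A.cnt (A.spos f t) 2 d = cH d := by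
  rcases d with c | x | k
  · have h3 : c = 0 ∨ c = 1 ∨ c = 2 := by
      rcases c with ⟨c, hc⟩
      interval_cases c <;> simp
    rcases h3 with h3 | h3 | h3 <;> subst h3
    · rw [cnt_E, Fintype.sum_prod_type]
      simp only [spos_I2]
      simp only [sum_ite_eq', mem_univ, if_true, sum_const, card_univ, Fintype.card_fin,
        smul_eq_mul, mul_one]
      rw [if_neg]
      · rfl
      · simp only [spos]; split_ifs <;> simp
    · rw [cnt_η]
      rw [if_neg, if_neg]
      · rfl
      · simp only [spos]; split_ifs <;> simp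
      · simp only [spos]; split_ifs <;> simp
    · rw [cnt_Φ]
      simp only [spos_I2]
      rw [Finset.sum_eq_zero]
      · rfl
      · intro p _
        rw [if_neg]
        rintro ⟨h4, h5, h6⟩
        exact h.1.1 p.1 h5 (h4.symm.trans h6)
  · rw [cnt_x]
    simp only [spos_I2]
    simp only [sum_ite_eq', mem_univ, if_true]
    rw [if_neg]
    · rfl
    · simp only [spos]; split_ifs <;> simp
  · rw [cnt_k]
    simp only [spos_I2]
    have h1 := h.1.2 k
    have h2 : A.hw f k ↔ (f (A.e k).1.1 = (A.e k).1.2 ∨ f (A.e k).2.1 = (A.e k).2.2) := Iff.rfl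
    have h3 : cH (n := n) (w := w) (Sum.inr (Sum.inr k)) = 1 := rfl
    rw [h3]
    simp only [spos]
    by_cases e1 : f (A.e k).1.1 = (A.e k).1.2
    · have e2 : ¬ f (A.e k).2.1 = (A.e k).2.2 := fun e => h1 ⟨e1, e⟩
      have e3 : A.hw f k := h2.2 (Or.inl e1)
      rw [if_pos e1.symm, if_neg (fun e => e2 e.symm)]
      simp only [e3]
      simp
      split_ifs <;> simp
    · by_cases e2 : f (A.e k).2.1 = (A.e k).2.2
      · have e3 : A.hw f k := h2.2 (Or.inr e2)
        rw [if_neg (fun e => e1 e.symm), if_pos e2.symm]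
        simp only [e3]
        simp
        split_ifs <;> simp
      · have e3 : ¬ A.hw f k := fun e => (h2.1 e).elim e1 e2
        rw [if_neg (fun e => e1 e.symm), if_neg (fun e => e2 e.symm)]
        simp only [e3]
        simp
        split_ifs <;> simp

theorem cnt_X (hne : ∀ k, (A.e k).1.1 ≠ (A.e k).2.1)
    {f : Fin n → Fin 3} {t : Option (Fin n × Fin 3)} (h : A.StOk f t) (d : Dg n w) :
    A.cnt (A.spos f t) 1 d = cX d := by
  rcases d with c | x | k
  · have h3 : c = 0 ∨ c = 1 ∨ c = 2 := by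
      rcases c with ⟨c, hc⟩
      interval_cases c <;> simp
    rcases h3 with h3 | h3 | h3 <;> subst h3
    · rw [cnt_E]
      simp only [A.spos_I1 h]
      have h4 : cX (n := n) (w := w) (Sum.inl 0) = 1 := rfl
      rw [h4]
      cases t with
      | none => simp [spos]
      | some q => simp [spos]
    · rw [cnt_η]
      have h4 : cX (n := n) (w := w) (Sum.inl 1) = 1 := rfl
      rw [h4]
      cases t with
      | none => simp [spos]
      | some q => simp [spos]
    · rw [cnt_Φ]
      simp only [A.spos_I1 h]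
      rw [Finset.sum_eq_zero]
      · rfl
      · intro p _
        rw [if_neg]
        rintro ⟨h4, h5, h6⟩
        exact (h.2 p h4).2 h5 h6
  · rw [cnt_x]
    simp only [A.spos_I1 h]
    have h4 : cX (n := n) (w := w) (Sum.inr (Sum.inl x)) = 1 := rfl
    rw [h4]
    cases t with
    | none => simp [spos]
    | some q =>
      obtain ⟨y, v⟩ := q
      by_cases h5 : y = x
      · subst h5
        simp [spos]
      · simp [spos, h5]
  · rw [cnt_k]
    simp only [A.spos_I1 h]
    have h4 : cX (n := n) (w := w) (Sum.inr (Sum.inr k)) = 1 := rfl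
    rw [h4]
    have h5 : A.xw t k ↔ (t = some (A.e k).1 ∨ t = some (A.e k).2) := Iff.rfl
    have h6 : ¬ (t = some (A.e k).1 ∧ t = some (A.e k).2) := by
      rintro ⟨h7, h8⟩
      rw [h7] at h8
      have h9 := Option.some.inj h8
      exact hne k (by rw [h9])
    simp only [spos]
    by_cases e1 : t = some (A.e k).1
    · have e2 : ¬ t = some (A.e k).2 := fun e => h6 ⟨e1, e⟩
      have e3 : A.xw t k := h5.2 (Or.inl e1)
      rw [if_pos e1, if_neg e2]
      simp only [e3]
      simp
      split_ifs <;> simp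
    · by_cases e2 : t = some (A.e k).2
      · have e3 : A.xw t k := h5.2 (Or.inr e2)
        rw [if_neg e1, if_pos e2]
        simp only [e3]
        simp
        split_ifs <;> simp
      · have e3 : ¬ A.xw t k := fun e => (h5.1 e).elim e1 e2
        rw [if_neg e1, if_neg e2]
        simp only [e3]
        by_cases e4 : A.hw f k <;> simp [e4]

theorem caps (hne : ∀ k, (A.e k).1.1 ≠ (A.e k).2.1) {m : ℕ} (hm : 1 ≤ m)
    {f : Fin n → Fin 3} {t : Option (Fin n × Fin 3)} (h : A.StOk f t) (κ : ℕ) (hκ : κ < 3) :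
    ∑ i, (if A.spos f t i = κ then (A.sys m).β i else 0) = (A.sys m).bc κ := by
  have h1 : ∑ i, (if A.spos f t i = 1 then (A.sys m).β i else 0) = (A.sys m).bX := by
    show _ = val cX
    rw [show val cX = val (A.cnt (A.spos f t) 1) from by
      congr 1; funext d; exact (A.cnt_X hne h d).symm]
    exact A.sum_pos _ 1
  have h2 : ∑ i, (if A.spos f t i = 2 then (A.sys m).β i else 0) = (A.sys m).bH := by
    show _ = val cH
    rw [show val cH = val (A.cnt (A.spos f t) 2) from by
      congr 1; funext d; exact (A.cnt_H h d).symm]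
    exact A.sum_pos _ 2
  have h3 : ∑ i, (A.sys m).β i = ∑ i, (if A.spos f t i = 0 then (A.sys m).β i else 0) +
      ∑ i, (if A.spos f t i = 1 then (A.sys m).β i else 0) +
      ∑ i, (if A.spos f t i = 2 then (A.sys m).β i else 0) := by
    rw [← sum_add_distrib, ← sum_add_distrib]
    refine sum_congr rfl fun i _ => ?_
    have h4 := A.spos_lt f t i
    generalize A.spos f t i = s at *
    interval_cases s <;> simp
  have h4 := (A.ok (m := m) hm).tot
  interval_cases κ
  · show _ = (A.sys m).bS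
    omega
  · exact h1
  · exact h2

/-- the exchanged item between two solutions -/
noncomputable def tt (F : ℕ → Fin n → Fin 3) (k : ℕ) : Option (Fin n × Fin 3) :=
  open Classical in
  if h : ∃ x, F (k + 1) x ≠ F k x then some (h.choose, F (k + 1) h.choose) else none

theorem tt_ok {F : ℕ → Fin n → Fin 3} (hstep : ∀ k, A.Step (F k) (F (k + 1))) (k : ℕ) :
    A.StOk (F k) (tt F k) := by
  refine ⟨(hstep k).1, fun p hp => ?_⟩
  unfold tt at hp
  split_ifs at hp with h
  have h1 := Option.some.inj hp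
  rw [← h1]
  exact ⟨h.choose_spec, fun h2 => (hstep k).2.1.1 _ h2⟩

theorem tt_end {F : ℕ → Fin n → Fin 3} {k : ℕ} {p : Fin n × Fin 3} (h : tt F k = some p) :
    F (k + 1) p.1 = p.2 := by
  unfold tt at h
  split_ifs at h with h1
  have h2 := Option.some.inj h
  rw [← h2]

theorem tt_new {F : ℕ → Fin n → Fin 3} (hstep : ∀ k, A.Step (F k) (F (k + 1))) {k : ℕ}
    {x : Fin n} (h : F (k + 1) x ≠ F k x) : tt F k = some (x, F (k + 1) x) := by
  unfold tt
  have h1 : ∃ x, F (k + 1) x ≠ F k x := ⟨x, h⟩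
  rw [dif_pos h1]
  obtain ⟨y, hy⟩ := (hstep k).2.2
  have h2 : x = y := by
    by_contra h3
    exact h (hy x h3)
  have h3 : h1.choose = y := by
    by_contra h4
    exact h1.choose_spec (hy _ h4)
  rw [h3, h2]

/-- the positions in round `τ` -/
noncomputable def rpos (F : ℕ → Fin n → Fin 3) (τ : ℕ) : It n w → ℕ :=
  A.spos (F (τ / 2)) (if τ % 2 = 0 then none else tt F (τ / 2))

theorem rpos_ok {F : ℕ → Fin n → Fin 3} (hstep : ∀ k, A.Step (F k) (F (k + 1))) (τ : ℕ) :
    A.StOk (F (τ / 2)) (if τ % 2 = 0 then none else tt F (τ / 2)) := by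
  split_ifs
  · exact ⟨(hstep _).1, fun p hp => by cases hp⟩
  · exact A.tt_ok hstep _

theorem rpos_mv {F : ℕ → Fin n → Fin 3} (hstep : ∀ k, A.Step (F k) (F (k + 1))) (τ : ℕ)
    (i : It n w) : ¬ (A.rpos F τ i = 0 ∧ A.rpos F (τ + 1) i = 2) := by
  rintro ⟨h0, h2⟩
  unfold rpos at h0 h2
  rcases Nat.mod_two_eq_zero_or_one τ with hτ | hτ
  · have e1 : (τ + 1) / 2 = τ / 2 := by omega
    have e2 : (τ + 1) % 2 ≠ 0 := by omega
    rw [e1, if_neg e2] at h2
    rw [if_pos hτ] at h0
    rcases i with p | x | ⟨k, _ | _⟩ | (_ | _) <;> simp only [spos] at h0 h2 <;>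
      split_ifs at h0 h2 <;> simp_all
  · have e1 : (τ + 1) / 2 = τ / 2 + 1 := by omega
    have e2 : (τ + 1) % 2 = 0 := by omega
    rw [e1, if_pos e2] at h2
    rw [if_neg (by omega)] at h0
    rcases i with p | x | ⟨k, _ | _⟩ | (_ | _)
    · have h3 := (A.spos_I2 _ _ p).1 h2
      by_cases h4 : F (τ / 2 + 1) p.1 = F (τ / 2) p.1
      · have h5 := (A.spos_I2 (F (τ / 2)) (tt F (τ / 2)) p).2 (h3.trans h4)
        have h0' : A.spos (F (τ / 2)) (tt F (τ / 2)) (iI p) = 0 := h0
        omega
      · have h5 := A.tt_new hstep h4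
        have h6 : tt F (τ / 2) = some p := by
          rw [h5]
          exact congrArg some (Prod.ext rfl h3.symm)
        have h7 := (A.spos_I1 (A.tt_ok hstep (τ / 2)) p).2 h6
        have h0' : A.spos (F (τ / 2)) (tt F (τ / 2)) (iI p) = 0 := h0
        omega
    · simp only [spos] at h2
      split_ifs at h2 <;> simp_all
    · have key : A.xw (tt F (τ / 2)) k → A.hw (F (τ / 2 + 1)) k := by
        rintro (g | g)
        · exact Or.inl (tt_end g)
        · exact Or.inr (tt_end g)
      simp only [spos] at h0 h2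
      split_ifs at h0 h2 <;> simp_all
    · simp only [spos] at h2
      split_ifs at h2 <;> simp_all
    · simp only [spos] at h2
      split_ifs at h2 <;> simp_all
    · simp only [spos] at h2
      split_ifs at h2 <;> simp_all

theorem mark_le (p : Fin n × Fin 3) : A.mark (iI (w := w) p) ≤
    (if p = (A.u1, 0) then 1 else 0) + ((if p = (A.u2, 1) then 1 else 0) +
      (if p = (A.u3, 1) then 1 else 0)) := by
  simp only [mark]
  split_ifs <;> simp_all

theorem complete_seq (hne : ∀ k, (A.e k).1.1 ≠ (A.e k).2.1) {m : ℕ} (hm : 2 ≤ m)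
    (F : ℕ → Fin n → Fin 3) (hstep : ∀ k, A.Step (F k) (F (k + 1)))
    (hB : ∀ k, k % 2 ^ (m - 1) = 0 → F k A.u1 = 0 ∧ F k A.u2 = 1 ∧ F k A.u3 = 1)
    (hA : ∀ k, k % 2 ^ (m - 1) = 2 ^ (m - 2) → F k A.u1 ≠ 0 ∧ F k A.u2 ≠ 1 ∧ F k A.u3 ≠ 1) :
    BinJ (A.sys m).Z (A.sys m).gJ (A.sys m).pJ := by
  obtain ⟨m, rfl⟩ := Nat.exists_eq_add_of_le hm
  have hmark0 : ∀ p : Fin n × Fin 3, A.mark (iI (w := w) p) ≠ 0 →
      p = (A.u1, 0) ∨ p = (A.u2, 1) ∨ p = (A.u3, 1) := by
    intro p hp
    by_contra h1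
    exact hp (if_neg h1)
  refine (A.sys (2 + m)).complete (A.ok (by omega)) (A.rpos F) (fun τ i => A.spos_lt _ _ i)
    (fun τ κ hκ => A.caps hne (by omega) (A.rpos_ok hstep τ) κ hκ)
    (fun τ i => A.rpos_mv hstep τ i) ?_ ?_ ?_ ?_
  · intro τ
    show ∑ i, (if A.rpos F τ i = 1 then A.mark i else 0) ≤ 1
    rw [sum_it]
    simp only [mark, ite_self, sum_const_zero, add_zero]
    have h1 := A.rpos_ok hstep τ
    set t := (if τ % 2 = 0 then none else tt F (τ / 2)) with ht
    have h2 : ∀ p, A.rpos F τ (iI p) = 1 ↔ t = some p := fun p => A.spos_I1 h1 p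
    refine le_trans (sum_le_sum (g := fun p => if t = some p then 1 else 0) fun p _ => ?_) ?_
    · by_cases h3 : t = some p
      · rw [if_pos h3]; split_ifs <;> simp
      · rw [if_neg (fun h4 => h3 ((h2 p).1 h4))]; simp
    · cases t with
      | none => simp
      | some q => simp
  · show ∑ i, A.mark i ≤ 3
    rw [sum_it]
    have h1 : ∑ p : Fin n × Fin 3, A.mark (iI (w := w) p) ≤ 3 := by
      refine le_trans (sum_le_sum fun p _ => A.mark_le p) ?_
      rw [sum_add_distrib, sum_add_distrib]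
      simp
    simpa [mark] using h1
  · intro τ hτ i hi
    have hτ' : τ % 2 ^ (2 + m) = 0 := hτ
    have h1 : τ % 2 = 0 ∧ τ / 2 % 2 ^ (2 + m - 1) = 0 := by
      have e1 : 2 ^ (2 + m) = 2 * 2 ^ (2 + m - 1) := by
        rw [← pow_succ']; congr 1; omega
      rw [e1, Nat.mod_mul] at hτ'
      omega
    have h2 := hB _ h1.2
    unfold rpos at hi
    rw [if_pos h1.1] at hi
    rcases i with p | x | ⟨k, _ | _⟩ | (_ | _)
    · by_contra h3
      have h4 := hmark0 p h3
      have h5 : ¬ A.spos (F (τ / 2)) none (iI p) = 2 := by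
        have h0' : A.spos (F (τ / 2)) none (iI p) = 0 := hi
        omega
      rw [spos_I2] at h5
      rcases h4 with h4 | h4 | h4 <;> subst h4
      · exact h5 h2.1.symm
      · exact h5 h2.2.1.symm
      · exact h5 h2.2.2.symm
    all_goals rfl
  · intro τ hτ i hi
    have hτ' : τ % 2 ^ (2 + m) = 2 ^ (2 + m - 1) := hτ
    have h1 : τ / 2 % 2 ^ (2 + m - 1) = 2 ^ (2 + m - 2) := by
      have e1 : 2 ^ (2 + m) = 2 * 2 ^ (2 + m - 1) := by
        rw [← pow_succ']; congr 1; omega
      have e2 : 2 ^ (2 + m - 1) = 2 * 2 ^ (2 + m - 2) := by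
        rw [← pow_succ']; congr 1; omega
      rw [e1, Nat.mod_mul] at hτ'
      omega
    have h2 := hA _ h1
    unfold rpos at hi
    rcases i with p | x | ⟨k, _ | _⟩ | (_ | _)
    · by_contra h3
      have h4 := hmark0 p h3
      have h5 := (A.spos_I2 _ _ p).1 hi
      rcases h4 with h4 | h4 | h4 <;> subst h4
      · exact h2.1 h5.symm
      · exact h2.2.1 h5.symm
      · exact h2.2.2 h5.symm
    all_goals rfl

end Ab

end Q229.DP
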