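import Pool.Agent.H634R2.MixT2

set_option autoImplicit false

/-!
# Languages in `PSPACE` as two-ended reachability problems
-/

namespace Q229.DP.Src

open Pool.Agent Pool.Agent.NPC Pool.Agent.NPC.Mix Pool.Agent.NPC.Mix.T2
open Pool.Agent.H623R2.PS (InPSPACE)
open CL Turing
open PIso hiding InPSPACE

/-- insert a zero bit at place one -/
def enc (o : ℕ) : ℕ := o % 2 + 4 * (o / 2)

/-- remove the bit at place one -/
def dec (s : ℕ) : ℕ := s % 2 + 2 * (s / 4)

theorem enc_mod4 (o : ℕ) : enc o % 4 = o % 2 := by unfold enc; omega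

theorem dec_enc (o : ℕ) : dec (enc o) = o := by unfold dec enc; omega

theorem enc_dec {s : ℕ} (h : s % 4 ≤ 1) : enc (dec s) = s := by unfold dec enc; omega

theorem enc_two (c : ℕ) : enc (2 * c) = 4 * c := by unfold enc; omega

section dyn

variable {L : Set (List Bool)} (D : Sys L) (x : List Bool)

/-- the step function with a start state -/
def G (s : ℕ) : ℕ :=
  if s % 4 = 3 then 4 * D.c₀ x else if s % 4 = 2 then s else enc (F D x (dec s))

theorem G_enc (o : ℕ) : G D x (enc o) = enc (F D x o) := by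
  have h := enc_mod4 o
  unfold G
  rw [if_neg (by omega), if_neg (by omega), dec_enc]

theorem G_iter (o i : ℕ) : (G D x)^[i] (enc o) = enc ((F D x)^[i] o) := by
  induction i with
  | zero => rfl
  | succ i ih => rw [Function.iterate_succ_apply', Function.iterate_succ_apply', ih, G_enc]

theorem G_one {s : ℕ} (h : s % 4 = 1) : G D x s = s := by
  have h1 : dec s % 2 = 1 := by unfold dec; omega
  unfold G
  rw [if_neg (by omega), if_neg (by omega), F_odd D x h1, enc_dec (by omega)]

theorem pow3 (K : ℕ) : 2 ^ (2 * K + 3) = 2 * 2 ^ (2 * K + 2) := pow_succ' _ _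

theorem enc_lt {K o : ℕ} (h : o < 2 ^ (2 * K + 2)) : enc o < 2 ^ (2 * K + 3) := by
  have h1 : 2 ^ (2 * K + 2) = 4 * 2 ^ (2 * K) := by rw [pow_add]; ring
  rw [h1] at h
  rw [pow3, h1]
  unfold enc
  omega

theorem dec_lt {K s : ℕ} (h : s < 2 ^ (2 * K + 3)) : dec s < 2 ^ (2 * K + 2) := by
  have h1 : 2 ^ (2 * K + 2) = 4 * 2 ^ (2 * K) := by rw [pow_add]; ring
  rw [pow3, h1] at h
  rw [h1]
  unfold dec
  omega

theorem c0_lt : 2 * D.c₀ x < 2 ^ (2 * KK D x + 2) := by
  have hc := D.c₀_lt x
  have hM : D.M x = 2 ^ KK D x := rfl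
  rw [hM] at hc
  have e1 : 2 ^ (2 * KK D x + 2) = 4 * (2 ^ KK D x * 2 ^ KK D x) := by
    rw [pow_add, two_mul, pow_add]; ring
  have hP : 0 < 2 ^ KK D x := by positivity
  rw [e1]
  nlinarith

theorem G_lt {s : ℕ} (hs : s < 2 ^ (2 * KK D x + 3)) : G D x s < 2 ^ (2 * KK D x + 3) := by
  unfold G
  split_ifs
  · rw [← enc_two]
    exact enc_lt (c0_lt D x)
  · exact hs
  · exact enc_lt (F_lt D x (dec_lt hs))

theorem Giter_lt {s : ℕ} (hs : s < 2 ^ (2 * KK D x + 3)) (i : ℕ) :
    (G D x)^[i] s < 2 ^ (2 * KK D x + 3) := by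
  induction i with
  | zero => exact hs
  | succ i ih =>
    rw [Function.iterate_succ_apply']
    exact G_lt D x ih

end dyn

theorem num_bits {n : ℕ} (hn : 1 < n) (v : ℕ → Bool) :
    num n v % 4 = (if v 0 then 1 else 0) + 2 * (if v 1 then 1 else 0) := by
  obtain ⟨m, rfl⟩ := Nat.exists_eq_add_of_le hn
  have h : 1 + 1 + m = m + 1 + 1 := by omega
  unfold num
  rw [show Nat.succ 1 = 1 + 1 from rfl, h, List.range_succ_eq_map, List.range_succ_eq_map]
  simp only [List.map_cons, valB_cons, List.map_map]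
  have e : (Nat.succ 0) = 1 := rfl
  rw [e]
  generalize valB _ = q
  cases v 0 <;> cases v 1 <;> simp <;> omega

section test

variable {L : Set (List Bool)} (D : Sys L)

/-- the test -/
def test (p : List Bool × List Bool) : Bool :=
  decide (valB p.2 / 2 ^ (2 * KK D p.1 + 3) = G D p.1 (valB p.2 % 2 ^ (2 * KK D p.1 + 3))) ||
    decide (valB p.2 / 2 ^ (2 * KK D p.1 + 3) = valB p.2 % 2 ^ (2 * KK D p.1 + 3))

theorem poly_G {α : Type} [TEnc α] {x : α → List Bool} {s : α → ℕ} (hx : Poly x) (hs : Poly s) :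
    NPC.Poly (fun a => G D (x a) (s a)) := by
  have h0 : NPC.Poly (fun a => 4 * D.c₀ (x a)) := NPC.Poly.mul (NPC.Poly.const 4) (D.poly_c₀.comp hx)
  have hd : NPC.Poly (fun a => dec (s a)) := by unfold dec; fun_prop
  have hF : NPC.Poly (fun a => F D (x a) (dec (s a))) := poly_F D hx hd
  have hE : NPC.Poly (fun a => enc (F D (x a) (dec (s a)))) := by
    unfold enc
    exact NPC.Poly.add (NPC.Poly.mod hF (NPC.Poly.const 2))
      (NPC.Poly.mul (NPC.Poly.const 4) (NPC.Poly.div hF (NPC.Poly.const 2)))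
  unfold G
  exact NPC.Poly.ite (NPC.Poly.decide_eq (NPC.Poly.mod hs (NPC.Poly.const 4)) (NPC.Poly.const 3)) h0
    (NPC.Poly.ite (NPC.Poly.decide_eq (NPC.Poly.mod hs (NPC.Poly.const 4)) (NPC.Poly.const 2)) hs hE)

theorem poly_test : NPC.Poly (test D) := by
  have hx : NPC.Poly (fun p : List Bool × List Bool => p.1) := NPC.Poly.fst NPC.Poly.id
  have hu : NPC.Poly (fun p : List Bool × List Bool => valB p.2) := NPC.Poly.valBits (NPC.Poly.snd NPC.Poly.id)
  have hP : NPC.Poly (fun p : List Bool × List Bool => 2 ^ (2 * KK D p.1 + 3)) :=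
    poly_two_pow (UPoly.add (UPoly.mul (UPoly.const 2) (upoly_KK D hx)) (UPoly.const 3))
  exact NPC.Poly.or (NPC.Poly.decide_eq (NPC.Poly.div hu hP) (poly_G D hx (NPC.Poly.mod hu hP)))
    (NPC.Poly.decide_eq (NPC.Poly.div hu hP) (NPC.Poly.mod hu hP))

theorem test_iff (x : List Bool) (v w : ℕ → Bool) :
    test D (x, (List.range (2 * (2 * KK D x + 3))).map
      (fun j => if j < 2 * KK D x + 3 then v j else w (j - (2 * KK D x + 3)))) = true ↔
      num (2 * KK D x + 3) w = G D x (num (2 * KK D x + 3) v) ∨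
        num (2 * KK D x + 3) w = num (2 * KK D x + 3) v := by
  unfold test
  simp only [num_pair]
  have h1 := num_lt (2 * KK D x + 3) v
  have hP : 0 < 2 ^ (2 * KK D x + 3) := by positivity
  rw [Nat.add_mul_div_left _ _ hP, Nat.div_eq_of_lt h1, zero_add, Nat.add_mul_mod_self_left,
    Nat.mod_eq_of_lt h1]
  simp

end test

/-- Two-ended reachability. -/
theorem exists_relsys {L : Set (List Bool)} (hL : InPSPACE L) :
    ∃ (V : Type) (_ : TEnc V) (X : ℕ → V) (n : List Bool → ℕ)
      (φ : List Bool → List (List (Bool × V))),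
      Function.Injective X ∧ NPC.Poly X ∧ UPoly n ∧ NPC.Poly φ ∧ (∀ x, 1 < n x) ∧
      (∀ x v, RelE (φ x) X (n x) v v) ∧
      ∀ x, x ∈ L ↔ ∃ v w : ℕ → Bool, v 0 = true ∧ v 1 = true ∧ w 0 = true ∧ w 1 = false ∧
        Relation.EqvGen (RelE (φ x) X (n x)) v w := by
  obtain ⟨D⟩ := exists_sys (conv hL)
  obtain ⟨V, _, X, φ, hX, hX', hφ, hφ'⟩ := Circ.circ (test D) (poly_test D)
  have hn : UPoly (fun x => 2 * KK D x + 3) :=
    UPoly.add (UPoly.mul (UPoly.const 2) (upoly_KK D NPC.Poly.id)) (UPoly.const 3)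
  have hrel : ∀ x v w, RelE (φ x (2 * (2 * KK D x + 3))) X (2 * KK D x + 3) v w ↔
      num (2 * KK D x + 3) w = G D x (num (2 * KK D x + 3) v) ∨
        num (2 * KK D x + 3) w = num (2 * KK D x + 3) v := by
    intro x v w
    rw [← test_iff, ← hφ']
    unfold RelE Holds
    constructor
    · rintro ⟨τ, h1, h2, h3⟩
      refine ⟨τ, h1, fun j hj => ?_⟩
      by_cases hj' : j < 2 * KK D x + 3
      · rw [if_pos hj', h2 j hj']
      · rw [if_neg hj', ← h3 (j - (2 * KK D x + 3)) (by omega)]
        congr 2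
        omega
    · rintro ⟨τ, h1, h2⟩
      refine ⟨τ, h1, fun i hi => ?_, fun i hi => ?_⟩
      · rw [h2 i (by omega), if_pos hi]
      · rw [h2 (2 * KK D x + 3 + i) (by omega), if_neg (by omega)]
        congr 1
        omega
  have hpow : ∀ K, 3 < 2 ^ (2 * K + 3) := fun K => by
    have : 1 ≤ 2 ^ (2 * K) := Nat.one_le_two_pow
    rw [pow_add]; omega
  refine ⟨V, inferInstance, X, fun x => 2 * KK D x + 3, fun x => φ x (2 * (2 * KK D x + 3)),
    hX, hX', hn, hφ _ (UPoly.mul (UPoly.const 2) hn), fun x => by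
      show 1 < 2 * KK D x + 3; omega, ?_, ?_⟩
  · intro x v
    rw [hrel]
    exact Or.inr rfl
  · intro x
    constructor
    · intro hx
      obtain ⟨v, hv⟩ := exists_num (hpow (KK D x))
      obtain ⟨i, hi⟩ := flag_of_mem D x hx (2 * D.c₀ x)
      have key : ∀ i, ∃ w, num (2 * KK D x + 3) w = (G D x)^[i] (num (2 * KK D x + 3) v) ∧
          Relation.EqvGen (RelE (φ x (2 * (2 * KK D x + 3))) X (2 * KK D x + 3)) v w := by
        intro i
        induction i with
        | zero => exact ⟨v, rfl, Relation.EqvGen.refl _⟩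
        | succ i ih =>
          obtain ⟨w, hw, hvw⟩ := ih
          obtain ⟨w', hw'⟩ := exists_num (Giter_lt D x (num_lt (2 * KK D x + 3) v) (i + 1))
          refine ⟨w', hw', hvw.trans _ _ _ (Relation.EqvGen.rel _ _ ?_)⟩
          rw [hrel]
          left
          rw [hw', hw, Function.iterate_succ_apply']
      obtain ⟨w, hw, hvw⟩ := key (i + 1)
      have hv3 : G D x 3 = enc (2 * D.c₀ x) := by
        rw [enc_two]; rfl
      rw [hv, Function.iterate_succ_apply, hv3, G_iter] at hw
      have hw4 := enc_mod4 ((F D x)^[i] (2 * D.c₀ x))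
      rw [← hw, hi] at hw4
      have h1 := num_bits (n := 2 * KK D x + 3) (by omega) v
      have h2 := num_bits (n := 2 * KK D x + 3) (by omega) w
      rw [hv] at h1
      rw [hw4] at h2
      refine ⟨v, w, ?_, ?_, ?_, ?_, hvw⟩
      · cases h : v 0 <;> cases h' : v 1 <;> simp [h, h'] at h1 ⊢
      · cases h : v 0 <;> cases h' : v 1 <;> simp [h, h'] at h1 ⊢
      · cases h : w 0 <;> cases h' : w 1 <;> simp [h, h'] at h2 ⊢
      · cases h : w 0 <;> cases h' : w 1 <;> simp [h, h'] at h2 ⊢
    · rintro ⟨v, w, hv0, hv1, hw0, hw1, hvw⟩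
      by_contra hx
      have inv : ∀ a b, Relation.EqvGen (RelE (φ x (2 * (2 * KK D x + 3))) X (2 * KK D x + 3)) a b →
          ((∃ i, (G D x)^[i] (num (2 * KK D x + 3) a) % 4 = 1) ↔
            ∃ i, (G D x)^[i] (num (2 * KK D x + 3) b) % 4 = 1) := by
        intro a b hab
        induction hab with
        | rel a b hab =>
          rw [hrel] at hab
          rcases hab with hab | hab
          · rw [hab]
            constructor
            · rintro ⟨i, hi⟩
              cases i with
              | zero =>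
                refine ⟨0, ?_⟩
                rw [Function.iterate_zero, id] at hi ⊢
                rw [G_one D x hi]
                exact hi
              | succ i =>
                refine ⟨i, ?_⟩
                rwa [Function.iterate_succ_apply] at hi
            · rintro ⟨i, hi⟩
              refine ⟨i + 1, ?_⟩
              rwa [Function.iterate_succ_apply]
          · rw [hab]
        | refl a => exact Iff.rfl
        | symm a b _ ih => exact ih.symm
        | trans a b c _ _ ih1 ih2 => exact ih1.trans ih2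
      have h1 := num_bits (n := 2 * KK D x + 3) (by omega) v
      have h2 := num_bits (n := 2 * KK D x + 3) (by omega) w
      rw [hv0, hv1] at h1
      rw [hw0, hw1] at h2
      obtain ⟨i, hi⟩ := (inv v w hvw).2 ⟨0, by
        rw [Function.iterate_zero, id]
        simpa using h2⟩
      cases i with
      | zero =>
        rw [Function.iterate_zero, id] at hi
        simp at h1
        omega
      | succ i =>
        have h3 : G D x (num (2 * KK D x + 3) v) = enc (2 * D.c₀ x) := by
          rw [enc_two]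
          unfold G
          exact if_pos (by simpa using h1)
        rw [Function.iterate_succ_apply, h3, G_iter, enc_mod4, no_flag D x hx i] at hi
        omega

end Q229.DP.Src
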