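import Pool.Agent.Q229.DP.PolyI
import Pool.Agent.Q229.DP.Source

set_option autoImplicit false

/-!
# Pinwheel scheduling with durations is hard for polynomial space
-/

namespace Q229.DP

open Pool.Agent Pool.Agent.NPC Pool.Agent.NPC.Mix
open Pool.Agent.H623R2.PS (InPSPACE PSPACEHard)

/-- Duration-aware pinwheel scheduling. -/
def DAPS (V : PW.Inst) : Prop := PW.Valid V ∧ PW.Feasible V

section

variable {N : NC} {u : ℕ × ℕ × ℕ}

theorem fr_mono {g g' : ℕ} (h : g ≤ g') : fr N u g ≤ fr N u g' := by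
  unfold fr
  exact Nat.add_le_add_right (Nat.mul_le_mul_right _ h) _

theorem Zn_pos : 0 < Zn N u := by unfold Zn; omega

theorem wn_pos : 0 < wn N u := Nat.mul_pos (by omega) Zn_pos

theorem fr_pos (g : ℕ) : 0 < fr N u g := Nat.add_pos_right _ Zn_pos

theorem cap_lt (h : NOk N u) {κ : ℕ} (hκ : κ < 4) : capN N u κ < Zn N u := by
  have h1 : ∃ κ', κ ≠ κ' ∧ κ' < 4 := by
    rcases Nat.eq_zero_or_pos κ with h2 | h2
    · exact ⟨1, by omega, by norm_num⟩
    · exact ⟨0, by omega, by norm_num⟩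
  obtain ⟨κ', h2, h3⟩ := h1
  have h4 := Sys.cap_add ((abN N u h).ok (m := 1) le_rfl) h2 hκ h3
  rw [cap_eq, cap_eq, Z_eq] at h4
  omega

theorem items_pos (h : NOk N u) {p : ℕ × ℕ} (hp : p ∈ items N u) : 1 ≤ p.1 := by
  have h1 := items_rep h
  unfold MRep at h1
  have h2 : p ∈ (items N u : Multiset (ℕ × ℕ)) := hp
  rw [← h1, Multiset.mem_map] at h2
  obtain ⟨i, -, rfl⟩ := h2
  exact (abN N u h).beta_pos i

/-- lists of jobs with frequencies in an interval, in order -/
def Blk (a b : ℕ) (l : List (ℕ × ℕ)) : Prop :=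
  (∀ x ∈ l, a ≤ x.1 ∧ x.1 ≤ b) ∧ l.Pairwise fun x y => x.1 ≤ y.1

theorem Blk.append {a b c d : ℕ} {l l' : List (ℕ × ℕ)} (h : Blk a b l) (h' : Blk c d l')
    (hab : a ≤ b) (hbc : b ≤ c) (hcd : c ≤ d) : Blk a d (l ++ l') := by
  refine ⟨fun x hx => ?_, List.pairwise_append.2 ⟨h.2, h'.2, fun x hx y hy => ?_⟩⟩
  · rcases List.mem_append.1 hx with hx | hx
    · have := h.1 x hx; omega
    · have := h'.1 x hx; omega
  · have := h.1 x hx
    have := h'.1 y hy
    omega

theorem Blk.const {α : Type} (l : List α) (a : ℕ) (f : α → ℕ) :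
    Blk a a (l.map fun x => (a, f x)) := by
  refine ⟨fun x hx => ?_, ?_⟩
  · obtain ⟨y, _, rfl⟩ := List.mem_map.1 hx
    exact ⟨le_rfl, le_rfl⟩
  · rw [List.pairwise_map]
    exact List.pairwise_of_forall fun _ _ => le_rfl

theorem valid_daps (h : NOk N u) : PW.Valid (daps N u) := by
  have hZ := Zn_pos (N := N) (u := u)
  refine ⟨by unfold daps; simp, ?_, ?_⟩
  · intro x hx
    unfold daps at hx
    rw [List.mem_cons, List.mem_append, List.mem_append, List.mem_append, List.mem_append] at hx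
    rcases hx with rfl | hx | hx | hx | hx | hx
    · exact ⟨Nat.add_pos_right _ Zn_pos, wn_pos⟩
    · rw [List.mem_singleton] at hx
      subst hx
      exact ⟨fr_pos _, by norm_num⟩
    · obtain ⟨κ, hκ, rfl⟩ := List.mem_map.1 hx
      rw [List.mem_range] at hκ
      have := cap_lt h hκ
      exact ⟨fr_pos _, by show 0 < Zn N u - capN N u κ; omega⟩
    · obtain ⟨p, hp, rfl⟩ := List.mem_map.1 hx
      have := items_pos h hp
      exact ⟨fr_pos _, by show 0 < 32 * p.1 + p.2; omega⟩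
    · obtain ⟨j, hj, rfl⟩ := List.mem_map.1 hx
      exact ⟨fr_pos _, by norm_num⟩
    · simp only [List.mem_cons, List.not_mem_nil, or_false] at hx
      rcases hx with rfl | rfl
      · exact ⟨fr_pos _, by norm_num⟩
      · exact ⟨fr_pos _, by norm_num⟩
  · have e2 : fr N u 2 ≤ fr N u 4 := fr_mono (by norm_num)
    have e4 : fr N u 4 ≤ fr N u 5 := fr_mono (by norm_num)
    have e5 : fr N u 5 ≤ fr N u 8 := fr_mono (by norm_num)
    have h1 : 2 ≤ 2 ^ (2 * nn N + 2) := by
      calc 2 = 2 ^ 1 := rfl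
        _ ≤ 2 ^ (2 * nn N + 2) := Nat.pow_le_pow_right (by norm_num) (by omega)
    have e8 : fr N u 8 ≤ fr N u (4 * 2 ^ (2 * nn N + 2)) := fr_mono (by omega)
    have b1 : Blk (fr N u 2) (fr N u 2) [(fr N u 2, 9)] := Blk.const [()] _ fun _ => 9
    have b2 := Blk.const (List.range 4) (fr N u 4) (fun κ => Zn N u - capN N u κ)
    have b3 := Blk.const (items N u) (fr N u 5) (fun p => 32 * p.1 + p.2)
    have b4 : Blk (fr N u 8) (fr N u (4 * 2 ^ (2 * nn N + 2)))
        ((List.range (2 * nn N + 2)).map (fun j => (fr N u (4 * 2 ^ (j + 1)), 5))) := by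
      refine ⟨fun x hx => ?_, ?_⟩
      · obtain ⟨j, hj, rfl⟩ := List.mem_map.1 hx
        rw [List.mem_range] at hj
        have h2 : 2 ^ 1 ≤ 2 ^ (j + 1) := Nat.pow_le_pow_right (by norm_num) (by omega)
        have h3 : 2 ^ (j + 1) ≤ 2 ^ (2 * nn N + 2) := Nat.pow_le_pow_right (by norm_num) (by omega)
        exact ⟨fr_mono (by omega), fr_mono (by omega)⟩
      · rw [List.pairwise_map]
        refine List.pairwise_lt_range.imp fun {i j} hij => fr_mono ?_
        exact Nat.mul_le_mul_left _ (Nat.pow_le_pow_right (by norm_num) (by omega))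
    have b5 : Blk (fr N u (4 * 2 ^ (2 * nn N + 2))) (fr N u (4 * 2 ^ (2 * nn N + 2)))
        [(fr N u (4 * 2 ^ (2 * nn N + 2)), 8), (fr N u (4 * 2 ^ (2 * nn N + 2)), 4)] :=
      Blk.const [8, 4] _ id
    have b := b1.append (b2.append (b3.append (b4.append b5 e8 le_rfl le_rfl) le_rfl e5
      e8) le_rfl e4 (e5.trans e8)) le_rfl e2 (e4.trans (e5.trans e8))
    unfold daps
    rw [List.pairwise_cons]
    refine ⟨fun x hx => ?_, b.2⟩
    have h2 := (b.1 x hx).1
    have h3 : wn N u + Zn N u ≤ fr N u 2 := by unfold fr; omega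
    exact h3.trans h2

end

open Classical in
/-- Duration-aware pinwheel scheduling is hard for polynomial space. -/
theorem hard : PSPACEHard (lang DAPS) := by
  intro L hL
  obtain ⟨V, _, X, n, φ, hX, hX', hn, hφ, hn0, hr, hL'⟩ := Src.exists_relsys hL
  have hw : NPC.Poly (fun x => (Two.cspU (φ x) X (n x)).wires) := by
    have h1 := T3b.poly_wires hX' hn hφ
    have h2 : NPC.Poly (fun _ : List Bool => (Two.extra : List ((XL V × ℕ) × (XL V × ℕ)))) :=
      NPC.Poly.const _
    exact NPC.Poly.append h2 h1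
  have hvars : NPC.Poly (fun x => T3b.vars (Two.cspU (φ x) X (n x))) := T3b.poly_vars hw
  have hN : NPC.Poly (fun x => T3b.toNC (Two.cspU (φ x) X (n x))) :=
    T3b.poly_num hvars hw
  have hu : NPC.Poly (fun x => us (φ x) X (n x)) :=
    NPC.Poly.pair (T3b.poly_idxOf hvars (NPC.Poly.const _))
      (NPC.Poly.pair (T3b.poly_idxOf hvars (NPC.Poly.const _))
        (T3b.poly_idxOf hvars (NPC.Poly.const _)))
  have h1 : NPC.Poly (fun x : List Bool =>
      daps (T3b.toNC (Two.cspU (φ x) X (n x))) (us (φ x) X (n x))) := poly_daps hN hu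
  refine ⟨fun x => bits (daps (T3b.toNC (Two.cspU (φ x) X (n x))) (us (φ x) X (n x))), ?_,
    fun x => ?_⟩
  · exact PC.toPolyTime (PC.comp (ea := fun x : List Bool => x) (eb := (bits : List Bool → List Bool))
      (ec := bits) (g := fun x : List Bool =>
        daps (T3b.toNC (Two.cspU (φ x) X (n x))) (us (φ x) X (n x))) (f := fun x => x) h1 PC.ofBits)
  · have h2 : x ∈ L ↔ DAPS (daps (T3b.toNC (Two.cspU (φ x) X (n x))) (us (φ x) X (n x))) := by
      have h3 := nok (φ x) X (n x)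
      rw [hL' x, main_iff (hn0 x) (hr x), ← feas_daps h3]
      exact ⟨fun h => ⟨valid_daps h3, h⟩, fun h => h.2⟩
    rw [h2]
    constructor
    · intro h
      exact ⟨_, rfl, h⟩
    · rintro ⟨a, ha, hPa⟩
      rw [bits_injective ha] at hPa
      exact hPa

end Q229.DP
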