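import Pool.Agent.Q229.DP.Encode
import Pool.Agent.H623R2.PS.Savitch

set_option autoImplicit false

/-!
# Closed walks
-/

namespace Q229.DP

open Finset Pool.Agent.H623R2.PS

theorem exists_seq {X : Type} {r : X → X → Prop} {n : ℕ} {a b : X} (h : Pth r n a b) :
    ∃ p : ℕ → X, p 0 = a ∧ (∀ i, n ≤ i → p i = b) ∧ ∀ i < n, r (p i) (p (i + 1)) := by
  induction n generalizing a with
  | zero =>
    have h1 : a = b := h
    exact ⟨fun _ => a, rfl, fun _ _ => h1, fun i hi => absurd hi (by omega)⟩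
  | succ n ih =>
    obtain ⟨c, h1, h2⟩ := h
    obtain ⟨p, hp0, hpn, hps⟩ := ih h2
    refine ⟨fun i => if i = 0 then a else p (i - 1), by simp, ?_, ?_⟩
    · intro i hi
      show (if i = 0 then a else p (i - 1)) = b
      rw [if_neg (by omega)]
      exact hpn _ (by omega)
    · intro i hi
      show r (if i = 0 then a else p (i - 1)) (if i + 1 = 0 then a else p (i + 1 - 1))
      rw [if_neg (by omega : ¬ i + 1 = 0), Nat.add_sub_cancel]
      rcases Nat.eq_zero_or_pos i with h3 | h3
      · subst h3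
        rw [if_pos rfl, hp0]
        exact h1
      · rw [if_neg (by omega)]
        have h4 := hps (i - 1) (by omega)
        rwa [show i - 1 + 1 = i by omega] at h4

/-- the closed walk -/
def zig {X : Type} (p : ℕ → X) (N k : ℕ) : X :=
  if k % (2 * N) ≤ N then p (k % (2 * N)) else p (2 * N - k % (2 * N))

theorem zig_step {X : Type} {r : X → X → Prop} (hr : ∀ a b, r a b → r b a) {p : ℕ → X} {N : ℕ}
    (hN : 0 < N) (hp : ∀ i < N, r (p i) (p (i + 1))) (k : ℕ) :
    r (zig p N k) (zig p N (k + 1)) := by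
  have hlt : k % (2 * N) < 2 * N := Nat.mod_lt _ (by omega)
  have hk : (k + 1) % (2 * N) = if k % (2 * N) + 1 = 2 * N then 0 else k % (2 * N) + 1 := by
    split_ifs with h
    · rw [Nat.add_mod, Nat.mod_eq_of_lt (by omega : 1 < 2 * N), h, Nat.mod_self]
    · rw [Nat.add_mod, Nat.mod_eq_of_lt (by omega : 1 < 2 * N), Nat.mod_eq_of_lt (by omega)]
  unfold zig
  rw [hk]
  generalize k % (2 * N) = s at *
  rcases Nat.lt_or_ge s N with h1 | h1
  · rw [if_neg (by omega : ¬ s + 1 = 2 * N), if_pos (by omega : s ≤ N),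
      if_pos (by omega : s + 1 ≤ N)]
    exact hp s h1
  · have e1 : (if s ≤ N then p s else p (2 * N - s)) = p (2 * N - s) := by
      split_ifs with h2
      · congr 1; omega
      · rfl
    have e2 : (if (if s + 1 = 2 * N then 0 else s + 1) ≤ N then
        p (if s + 1 = 2 * N then 0 else s + 1) else
        p (2 * N - (if s + 1 = 2 * N then 0 else s + 1))) = p (2 * N - (s + 1)) := by
      by_cases h2 : s + 1 = 2 * N
      · rw [if_pos h2, if_pos (by omega)]
        congr 1; omega
      · rw [if_neg h2, if_neg (by omega)]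
    rw [e1, e2]
    have h3 := hp (2 * N - (s + 1)) (by omega)
    rw [show 2 * N - (s + 1) + 1 = 2 * N - s by omega] at h3
    exact hr _ _ h3

namespace Ab

variable {n w : ℕ} {A : Ab n w}

theorem complete (hne : ∀ k, (A.e k).1.1 ≠ (A.e k).2.1) {f g : Fin n → Fin 3}
    (hg : A.Sol g) (hgf : Relation.ReflTransGen A.Step g f)
    (hB : g A.u1 = 0 ∧ g A.u2 = 1 ∧ g A.u3 = 1) (hA : f A.u1 ≠ 0 ∧ f A.u2 ≠ 1 ∧ f A.u3 ≠ 1) :
    BinJ (A.sys (2 * n + 2)).Z (A.sys (2 * n + 2)).gJ (A.sys (2 * n + 2)).pJ := by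
  have hfin : {h : Fin n → Fin 3 | A.Sol h}.Finite := Set.toFinite _
  obtain ⟨N, hN, hpth⟩ := exists_short hfin (a := g) (b := f) hg
    (fun u v _ huv => huv.2.1) hgf
  have hcard : {h : Fin n → Fin 3 | A.Sol h}.ncard ≤ 3 ^ n := by
    refine le_trans (Set.ncard_le_ncard (Set.subset_univ _) Set.finite_univ) ?_
    rw [Set.ncard_univ, Nat.card_eq_fintype_card]
    simp
  have hN4 : N ≤ 2 ^ (2 * n) := by
    have h1 : 3 ^ n ≤ 2 ^ (2 * n) := by
      rw [pow_mul]
      exact Nat.pow_le_pow_left (by norm_num) n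
    omega
  obtain ⟨p, hp0, hpN, hps⟩ := exists_seq hpth
  have hsol : ∀ i, A.Sol (p i) := by
    intro i
    rcases Nat.lt_or_ge i N with h1 | h1
    · exact (hps i h1).1
    · have h3 : A.Sol f := by
        rcases Nat.eq_zero_or_pos N with h2 | h2
        · have h4 := hpN 0 (by omega)
          rw [hp0] at h4
          rw [← h4]; exact hg
        · have h4 := (hps (N - 1) (by omega)).2.1
          rw [show N - 1 + 1 = N by omega, hpN N le_rfl] at h4
          exact h4
      rw [hpN i h1]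
      exact h3
  have hps' : ∀ i < 2 ^ (2 * n), A.Step (p i) (p (i + 1)) := by
    intro i _
    rcases Nat.lt_or_ge i N with h1 | h1
    · exact hps i h1
    · refine ⟨hsol _, hsol _, A.u1, fun y _ => ?_⟩
      rw [hpN i h1, hpN (i + 1) (by omega)]
  have hpow : 0 < 2 ^ (2 * n) := by positivity
  have e1 : 2 * n + 2 - 1 = 2 * n + 1 := by omega
  have e2 : 2 * n + 2 - 2 = 2 * n := by omega
  have e3 : 2 * 2 ^ (2 * n) = 2 ^ (2 * n + 1) := (pow_succ' _ _).symm
  refine A.complete_seq hne (m := 2 * n + 2) (by omega) (zig p (2 ^ (2 * n)))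
    (zig_step (fun _ _ h => h.symm) hpow hps') ?_ ?_
  · intro k hk
    rw [e1] at hk
    have h1 : zig p (2 ^ (2 * n)) k = g := by
      unfold zig
      rw [e3, hk, if_pos (Nat.zero_le _), hp0]
    rw [h1]
    exact hB
  · intro k hk
    rw [e1, e2] at hk
    have h1 : zig p (2 ^ (2 * n)) k = f := by
      unfold zig
      rw [e3, hk, if_pos le_rfl, hpN _ hN4]
    rw [h1]
    exact hA

end Ab

end Q229.DP
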