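import Pool.Agent.Q229.DP.CspU
import Pool.Agent.Q229.DP.Path
import Pool.Agent.H493R2.MixT3b

set_option autoImplicit false

/-!
# Numbering the variables
-/

namespace Q229.DP

open Pool.Agent.NPC.Mix Pool.Agent.NPC.Mix.T3 Pool.Agent.NPC.Mix.T3b Relation

/-- Well-formed numeric instances with three designated variables. -/
structure NOk (N : NC) (u : ℕ × ℕ × ℕ) : Prop where
  w : ∀ w ∈ N.2, w.1.1 < N.1.length ∧ w.2.1 < N.1.length ∧ w.1.1 ≠ w.2.1 ∧ w.1.2 < 3 ∧ w.2.2 < 3
  u1 : u.1 < N.1.length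
  u2 : u.2.1 < N.1.length
  u3 : u.2.2 < N.1.length

/-- the abstract problem of a numeric instance -/
def abN (N : NC) (u : ℕ × ℕ × ℕ) (h : NOk N u) : Ab N.1.length N.2.length where
  T x := N.1[x]
  e k := ((⟨N.2[k].1.1, (h.w _ (List.getElem_mem _)).1⟩,
      ⟨N.2[k].1.2, (h.w _ (List.getElem_mem _)).2.2.2.1⟩),
    (⟨N.2[k].2.1, (h.w _ (List.getElem_mem _)).2.1⟩,
      ⟨N.2[k].2.2, (h.w _ (List.getElem_mem _)).2.2.2.2⟩))
  u1 := ⟨u.1, h.u1⟩
  u2 := ⟨u.2.1, h.u2⟩
  u3 := ⟨u.2.2, h.u3⟩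

theorem abN_ne {N : NC} {u : ℕ × ℕ × ℕ} (h : NOk N u) (k : Fin N.2.length) :
    ((abN N u h).e k).1.1 ≠ ((abN N u h).e k).2.1 := by
  intro he
  exact (h.w _ (List.getElem_mem k.isLt)).2.2.1 (Fin.ext_iff.1 he)

section Bridge

variable {X : Type} [DecidableEq X] (I : Csp X)

theorem len_eq : (toNC I).1.length = (vars I).length := by simp [toNC]

/-- index of a variable -/
def ix {v : X} (hv : v ∈ vars I) : Fin (toNC I).1.length :=
  ⟨(vars I).idxOf v, by rw [len_eq]; exact List.idxOf_lt_length_iff.2 hv⟩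

/-- variable of an index -/
def vr (i : Fin (toNC I).1.length) : X := (vars I)[i.val]'(by rw [← len_eq]; exact i.isLt)

theorem vr_mem (i : Fin (toNC I).1.length) : vr I i ∈ vars I := List.getElem_mem _

theorem vr_ix {v : X} (hv : v ∈ vars I) : vr I (ix I hv) = v := by
  unfold vr ix
  exact List.getElem_idxOf (List.idxOf_lt_length_iff.2 hv)

theorem T_eq {u : ℕ × ℕ × ℕ} (h : NOk (toNC I) u) (i : Fin (toNC I).1.length) :
    (abN (toNC I) u h).T i = I.two (vr I i) := by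
  simp [abN, toNC, vr]

/-- functions on indices from functions on variables -/
def up (k : X → ℕ) (i : Fin (toNC I).1.length) : Fin 3 :=
  if ix I (vr_mem I i) = i then ⟨k (vr I i) % 3, Nat.mod_lt _ (by norm_num)⟩ else 0

/-- functions on variables from functions on indices -/
def dn (h : Fin (toNC I).1.length → Fin 3) (v : X) : ℕ :=
  if hv : v ∈ vars I then (h (ix I hv)).val else 0

theorem up_ix {k : X → ℕ} (hk : ∀ v, k v ≤ 2) {v : X} (hv : v ∈ vars I) :
    (up I k (ix I hv)).val = k v := by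
  unfold up
  have h1 : ix I (vr_mem I (ix I hv)) = ix I hv := by
    apply Fin.ext
    show (vars I).idxOf (vr I (ix I hv)) = (vars I).idxOf v
    rw [vr_ix]
  rw [if_pos h1]
  show k (vr I (ix I hv)) % 3 = k v
  rw [vr_ix]
  have := hk v
  omega

theorem dn_mem {h : Fin (toNC I).1.length → Fin 3} {v : X} (hv : v ∈ vars I) :
    dn I h v = (h (ix I hv)).val := dif_pos hv

variable {u : ℕ × ℕ × ℕ} (hu : NOk (toNC I) u)

theorem wire_mem (k : Fin (toNC I).2.length) : ∃ (w : (X × ℕ) × (X × ℕ)) (hw : w ∈ I.wires),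
    ((abN (toNC I) u hu).e k).1.1 = ix I (mem_vars1 I hw) ∧
    ((abN (toNC I) u hu).e k).1.2.val = w.1.2 ∧
    ((abN (toNC I) u hu).e k).2.1 = ix I (mem_vars2 I hw) ∧
    ((abN (toNC I) u hu).e k).2.2.val = w.2.2 := by
  have h1 : (toNC I).2[k] ∈ (toNC I).2 := List.getElem_mem k.isLt
  have h2 : k.val < I.wires.length := by
    have := k.isLt
    simpa [toNC] using this
  refine ⟨I.wires[k.val], List.getElem_mem h2, ?_, ?_, ?_, ?_⟩
  · apply Fin.ext
    simp [abN, toNC, ix]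
  · simp [abN, toNC]
  · apply Fin.ext
    simp [abN, toNC, ix]
  · simp [abN, toNC]

theorem mem_wire {w : (X × ℕ) × (X × ℕ)} (hw : w ∈ I.wires) : ∃ k : Fin (toNC I).2.length,
    ((abN (toNC I) u hu).e k).1.1 = ix I (mem_vars1 I hw) ∧
    ((abN (toNC I) u hu).e k).1.2.val = w.1.2 ∧
    ((abN (toNC I) u hu).e k).2.1 = ix I (mem_vars2 I hw) ∧
    ((abN (toNC I) u hu).e k).2.2.val = w.2.2 := by
  obtain ⟨j, hj, rfl⟩ := List.mem_iff_getElem.1 hw
  refine ⟨⟨j, by simpa [toNC] using hj⟩, ?_, ?_, ?_, ?_⟩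
  · apply Fin.ext
    simp [abN, toNC, ix]
  · simp [abN, toNC]
  · apply Fin.ext
    simp [abN, toNC, ix]
  · simp [abN, toNC]

theorem sol_up {k : X → ℕ} (hk : I.Sol k) : (abN (toNC I) u hu).Sol (up I k) := by
  constructor
  · intro i hi h2
    rw [T_eq] at hi
    have h3 := hk.2.1 _ hi
    unfold up at h2
    split_ifs at h2 with h4
    · have h5 : k (vr I i) % 3 = 2 := congrArg Fin.val h2
      omega
    · exact absurd h2 (by decide)
  · rintro j ⟨h1, h2⟩
    obtain ⟨w, hw, e1, e2, e3, e4⟩ := wire_mem I hu j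
    rw [e1] at h1
    rw [e3] at h2
    have h3 := congrArg Fin.val h1
    have h4 := congrArg Fin.val h2
    rw [up_ix I hk.1, e2] at h3
    rw [up_ix I hk.1, e4] at h4
    exact hk.2.2 w hw ⟨h3, h4⟩

theorem sol_dn {h : Fin (toNC I).1.length → Fin 3} (hh : (abN (toNC I) u hu).Sol h) :
    I.Sol (dn I h) := by
  refine ⟨?_, ?_, ?_⟩
  · intro v
    unfold dn
    split_ifs with hv
    · have := (h (ix I hv)).isLt; omega
    · omega
  · intro v hv2
    unfold dn
    split_ifs with hv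
    · have h1 := hh.1 (ix I hv) (by rw [T_eq, vr_ix]; exact hv2)
      have h2 := (h (ix I hv)).isLt
      have h3 : (h (ix I hv)).val ≠ 2 := fun h4 => h1 (Fin.ext h4)
      omega
    · omega
  · rintro w hw ⟨h1, h2⟩
    rw [dn_mem I (mem_vars1 I hw)] at h1
    rw [dn_mem I (mem_vars2 I hw)] at h2
    obtain ⟨k, e1, e2, e3, e4⟩ := mem_wire I hu hw
    refine hh.2 k ⟨?_, ?_⟩
    · rw [e1]
      exact Fin.ext (h1.trans e2.symm)
    · rw [e3]
      exact Fin.ext (h2.trans e4.symm)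

theorem step_up {k k' : X → ℕ} (h : I.Step k k') :
    (abN (toNC I) u hu).Step (up I k) (up I k') := by
  obtain ⟨h1, h2, v, hv⟩ := h
  refine ⟨sol_up I hu h1, sol_up I hu h2, ?_⟩
  by_cases hm : v ∈ vars I
  · refine ⟨ix I hm, fun i hi => ?_⟩
    unfold up
    split_ifs with h3
    · apply Fin.ext
      show k' (vr I i) % 3 = k (vr I i) % 3
      rw [hv]
      rintro rfl
      exact hi h3.symm
    · rfl
  · refine ⟨⟨u.1, hu.u1⟩, fun i _ => ?_⟩
    unfold up
    split_ifs with h3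
    · apply Fin.ext
      show k' (vr I i) % 3 = k (vr I i) % 3
      rw [hv]
      rintro rfl
      exact hm (vr_mem I i)
    · rfl

theorem step_dn {h h' : Fin (toNC I).1.length → Fin 3} (hs : (abN (toNC I) u hu).Step h h') :
    I.Step (dn I h) (dn I h') := by
  obtain ⟨h1, h2, i, hi⟩ := hs
  refine ⟨sol_dn I hu h1, sol_dn I hu h2, vr I i, fun v hv => ?_⟩
  unfold dn
  split_ifs with hm
  · rw [hi]
    rintro rfl
    exact hv (vr_ix I hm).symm
  · rfl

end Bridge

/-! ### The instance -/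

section

variable {V : Type} (φ : List (List (Bool × V))) (X : ℕ → V) (n : ℕ)

theorem wiresU_ok : ∀ w ∈ (Two.cspU φ X n).wires, w.1.1 ≠ w.2.1 ∧ w.1.2 ≤ 2 ∧ w.2.2 ≤ 2 := by
  intro w hw
  rcases List.mem_append.1 hw with hw | hw
  · simp only [Two.extra, List.mem_cons, List.not_mem_nil, or_false] at hw
    rcases hw with rfl | rfl | rfl | rfl | rfl | rfl | rfl | rfl | rfl <;>
      simp [Two.vu, vz, vP]
  · exact wires_ok φ X n w hw

variable [DecidableEq (XL V)]

theorem vu_mem {i : ℕ} (hi : i < 3) : (Two.vu i : XL V) ∈ vars (Two.cspU φ X n) := by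
  have h : ((Two.vu i, 1), (vz, 0)) ∈ (Two.cspU φ X n).wires := by
    refine List.mem_append_left _ ?_
    interval_cases i <;> simp [Two.extra]
  exact mem_vars1 _ h

/-- the three designated indices -/
def us : ℕ × ℕ × ℕ :=
  ((vars (Two.cspU φ X n)).idxOf (Two.vu 0), (vars (Two.cspU φ X n)).idxOf (Two.vu 1),
    (vars (Two.cspU φ X n)).idxOf (Two.vu 2))

theorem nok : NOk (toNC (Two.cspU φ X n)) (us φ X n) where
  w := by
    intro w hw
    obtain ⟨w', hw', rfl⟩ := List.mem_map.1 hw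
    have h1 := mem_vars1 _ hw'
    have h2 := mem_vars2 _ hw'
    obtain ⟨h3, h4, h5⟩ := wiresU_ok φ X n w' hw'
    refine ⟨?_, ?_, ?_, Nat.lt_succ_of_le h4, Nat.lt_succ_of_le h5⟩
    · simpa [toNC] using List.idxOf_lt_length_iff.2 h1
    · simpa [toNC] using List.idxOf_lt_length_iff.2 h2
    · intro he
      apply h3
      exact (List.idxOf_inj h1).1 he
  u1 := by
    have := List.idxOf_lt_length_iff.2 (vu_mem φ X n (i := 0) (by norm_num))
    simpa [toNC, us] using this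
  u2 := by
    have := List.idxOf_lt_length_iff.2 (vu_mem φ X n (i := 1) (by norm_num))
    simpa [toNC, us] using this
  u3 := by
    have := List.idxOf_lt_length_iff.2 (vu_mem φ X n (i := 2) (by norm_num))
    simpa [toNC, us] using this

variable {φ X n}

theorem main_iff (hn : 1 < n) (hr : ∀ v, RelE φ X n v v) :
    (∃ v w : ℕ → Bool, v 0 = true ∧ v 1 = true ∧ w 0 = true ∧ w 1 = false ∧
      EqvGen (RelE φ X n) v w) ↔
    BinJ ((abN _ _ (nok φ X n)).sys (2 * (toNC (Two.cspU φ X n)).1.length + 2)).Z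
      ((abN _ _ (nok φ X n)).sys (2 * (toNC (Two.cspU φ X n)).1.length + 2)).gJ
      ((abN _ _ (nok φ X n)).sys (2 * (toNC (Two.cspU φ X n)).1.length + 2)).pJ := by
  have hu1 : (abN _ _ (nok φ X n)).u1 = ix _ (vu_mem φ X n (i := 0) (by norm_num)) := rfl
  have hu2 : (abN _ _ (nok φ X n)).u2 = ix _ (vu_mem φ X n (i := 1) (by norm_num)) := rfl
  have hu3 : (abN _ _ (nok φ X n)).u3 = ix _ (vu_mem φ X n (i := 2) (by norm_num)) := rfl
  constructor
  · intro h
    obtain ⟨f, g, hf, hg, hfg, ⟨f1, f2, f3⟩, ⟨g1, g2, g3⟩⟩ := Two.two_ended hn hr h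
    have key : ∀ (k : XL V → ℕ) (_ : (Two.cspU φ X n).Sol k) (v : XL V)
        (hv : v ∈ vars (Two.cspU φ X n)) (c : Fin 3), up _ k (ix _ hv) = c ↔ k v = c.val := by
      intro k hk v hv c
      rw [← up_ix _ hk.1 hv]
      exact Fin.ext_iff
    refine Ab.complete (f := up _ f) (g := up _ g) (abN_ne _) (sol_up _ _ hg)
      (ReflTransGen.lift _ (fun a b hab => step_up _ _ hab) _ _ (rea_symm hfg)) ⟨?_, ?_, ?_⟩
      ⟨?_, ?_, ?_⟩
    · rw [hu1, key g hg]; exact g1
    · rw [hu2, key g hg]; exact g2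
    · rw [hu3, key g hg]; exact g3
    · rw [hu1, Ne, key f hf]; rw [f1]; decide
    · rw [hu2, Ne, key f hf]; rw [f2]; decide
    · rw [hu3, Ne, key f hf]; rw [f3]; decide
  · intro hb
    have h23 : (abN _ _ (nok φ X n)).u2 ≠ (abN _ _ (nok φ X n)).u3 := by
      intro he
      have h1 : (vars (Two.cspU φ X n)).idxOf (Two.vu 1) =
        (vars (Two.cspU φ X n)).idxOf (Two.vu 2) := Fin.ext_iff.1 he
      have h2 := (List.idxOf_inj (vu_mem φ X n (i := 1) (by norm_num))).1 h1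
      exact absurd (Two.vu_inj h2) (by norm_num)
    have hT : (abN _ _ (nok φ X n)).T (abN _ _ (nok φ X n)).u1 = true := by
      rw [T_eq, hu1, vr_ix]
      rfl
    obtain ⟨f, g, hf, hg, hfg, h1, h2⟩ := Ab.sound (by omega) hT h23 hb
    refine Two.two_ended' hn hr (sol_dn _ _ hf) (sol_dn _ _ hg)
      (ReflTransGen.lift _ (fun a b hab => step_dn _ _ hab) _ _ hfg) ?_ ?_
    · rw [dn_mem _ (vu_mem φ X n (i := 0) (by norm_num)), ← hu1, h1]; rfl
    · rw [dn_mem _ (vu_mem φ X n (i := 1) (by norm_num)),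
        dn_mem _ (vu_mem φ X n (i := 2) (by norm_num)), ← hu2, ← hu3]
      rcases h2 with h2 | h2
      · left; rw [h2]; rfl
      · right; rw [h2]; rfl

end

end Q229.DP
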