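import Pool.Agent.Q229.DP.Rep
import Pool.Agent.Q229.DP.ToAb

set_option autoImplicit false

/-!
# The list of jobs
-/

namespace Q229.DP

open Finset Pool.Agent.NPC.Mix

section Num

variable (N : NC) (u : ℕ × ℕ × ℕ)

/-- the number of variables -/
def nn : ℕ := N.1.length
/-- the number of wires -/
def ww : ℕ := N.2.length

/-- powers of the base -/
def pr (j : ℕ) : ℕ := Rb (nn N) ^ min j (3 + nn N + ww N)

/-- the weight of a value item -/
def bI (x v : ℕ) : ℕ :=
  1 + ((if N.1.getD x true = true ∧ v = 2 then pr N 2 else 0) + (pr N (3 + x) +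
    (N.2.zipIdx.map (fun p => (if (x, v) = p.1.1 then pr N (3 + nn N + p.2) else 0) +
      (if (x, v) = p.1.2 then pr N (3 + nn N + p.2) else 0))).sum))

/-- the mark of a value item -/
def mkI (x v : ℕ) : ℕ :=
  if (x, v) = (u.1, 0) ∨ (x, v) = (u.2.1, 1) ∨ (x, v) = (u.2.2, 1) then 1 else 0

/-- weights and marks of the items -/
def items : List (ℕ × ℕ) :=
  (List.range (nn N)).flatMap (fun x => (List.range 3).map (fun v => (bI N x v, mkI u x v))) ++
  ((List.range (nn N)).map (fun x => (pr N (3 + x), 0)) ++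
  ((List.range (ww N)).flatMap (fun k => [(pr N (3 + nn N + k), 0), (pr N (3 + nn N + k), 0)]) ++
  [(1 + Rb (nn N), 0), (Rb (nn N), 0)]))

/-- sum of the powers -/
def geo : ℕ := ((List.range (nn N + ww N)).map (fun j => pr N (3 + j))).sum

/-- total weight -/
def tot : ℕ := ((items N u).map Prod.fst).sum

/-- bin size -/
def Zn : ℕ := 32 * (tot N u + 1)

/-- capacities -/
def capN (κ : ℕ) : ℕ :=
  if κ = 0 then 32 * (tot N u - (1 + Rb (nn N) + geo N) - (nn N + geo N)) + 8 else
    if κ = 1 then 32 * (1 + Rb (nn N) + geo N) + 10 else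
      if κ = 2 then 32 * (nn N + geo N) + 4 else 9

/-- duration of the separating job -/
def wn : ℕ := (4 * 2 ^ (2 * nn N + 2) + 2) * Zn N u

/-- frequency of a job with window `g` -/
def fr (g : ℕ) : ℕ := g * (wn N u + Zn N u) + Zn N u

/-- the list of jobs -/
def daps : List (ℕ × ℕ) :=
  (wn N u + Zn N u, wn N u) ::
  ([(fr N u 2, 9)] ++
  ((List.range 4).map (fun κ => (fr N u 4, Zn N u - capN N u κ)) ++
  ((items N u).map (fun p => (fr N u 5, 32 * p.1 + p.2)) ++
  ((List.range (2 * nn N + 2)).map (fun j => (fr N u (4 * 2 ^ (j + 1)), 5)) ++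
  [(fr N u (4 * 2 ^ (2 * nn N + 2)), 8), (fr N u (4 * 2 ^ (2 * nn N + 2)), 4)]))))

end Num

theorem mrep_zip {α : Type} (l : List α) (F : α → ℕ → ℕ) :
    MRep (fun k : Fin l.length => F l[k] k) (l.zipIdx.map (fun p => F p.1 p.2)) := by
  unfold MRep
  rw [Fin.univ_val_map]
  congr 1
  apply List.ext_getElem
  · simp
  · intro i h1 h2
    simp

section

variable {N : NC} {u : ℕ × ℕ × ℕ} (h : NOk N u)

theorem pr_eq {j : ℕ} (hj : j ≤ 3 + nn N + ww N) : pr N j = Rb (nn N) ^ j := by
  unfold pr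
  rw [min_eq_left hj]

theorem beta_I (x : Fin N.1.length) (v : Fin 3) :
    (abN N u h).beta (Ab.iI (x, v)) = bI N x.val v.val := by
  unfold Ab.beta bI
  rw [Fintype.sum_sum_type, Fintype.sum_sum_type, Fin.sum_univ_three]
  have e1 : ∑ y : Fin N.1.length, (abN N u h).b (Ab.iI (x, v)) (Sum.inr (Sum.inl y)) *
      Rb N.1.length ^ idx (Sum.inr (Sum.inl y) : Dg N.1.length N.2.length) = pr N (3 + x.val) := by
    rw [Finset.sum_eq_single x]
    · rw [pr_eq (by have := x.isLt; unfold nn; omega)]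
      simp [Ab.b, idx, nn]
    · intro y _ hy
      simp [Ab.b, hy]
    · simp
  have e2 : ∑ k : Fin N.2.length, (abN N u h).b (Ab.iI (x, v)) (Sum.inr (Sum.inr k)) *
      Rb N.1.length ^ idx (Sum.inr (Sum.inr k) : Dg N.1.length N.2.length) =
      (N.2.zipIdx.map (fun p => (if (x.val, v.val) = p.1.1 then pr N (3 + nn N + p.2) else 0) +
      (if (x.val, v.val) = p.1.2 then pr N (3 + nn N + p.2) else 0))).sum := by
    rw [mrep_sum_eq (mrep_zip N.2 (fun w j =>
      (if (x.val, v.val) = w.1 then pr N (3 + nn N + j) else 0) +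
      (if (x.val, v.val) = w.2 then pr N (3 + nn N + j) else 0)))]
    refine Finset.sum_congr rfl fun k _ => ?_
    rw [pr_eq (by have := k.isLt; unfold ww; omega)]
    have e3 : ((x, v) = ((abN N u h).e k).1) ↔ ((x.val, v.val) = N.2[k].1) := by
      simp only [abN, Prod.ext_iff, Fin.ext_iff]
    have e4 : ((x, v) = ((abN N u h).e k).2) ↔ ((x.val, v.val) = N.2[k].2) := by
      simp only [abN, Prod.ext_iff, Fin.ext_iff]
    show ((if (x, v) = ((abN N u h).e k).1 then 1 else 0) +
      (if (x, v) = ((abN N u h).e k).2 then 1 else 0)) * Rb N.1.length ^ (3 + N.1.length + k.val) = _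
    simp only [e3, e4]
    rw [Nat.add_mul, ite_mul, ite_mul, one_mul, zero_mul]
    rfl
  rw [e1, e2]
  have e5 : (abN N u h).b (Ab.iI (x, v)) (Sum.inl 0) = 1 := rfl
  have e6 : (abN N u h).b (Ab.iI (x, v)) (Sum.inl 1) = 0 := rfl
  have e7 : (abN N u h).b (Ab.iI (x, v)) (Sum.inl 2) =
      if N.1.getD x.val true = true ∧ v.val = 2 then 1 else 0 := by
    show (if (abN N u h).T x = true ∧ v = 2 then 1 else 0) = _
    have e8 : N.1.getD x.val true = (abN N u h).T x := by
      rw [List.getD_eq_getElem _ _ x.isLt]; rfl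
    rw [e8]
    simp only [Fin.ext_iff]
    rfl
  rw [e5, e6, e7]
  have e8 : idx (Sum.inl 0 : Dg N.1.length N.2.length) = 0 := rfl
  have e9 : idx (Sum.inl 2 : Dg N.1.length N.2.length) = 2 := rfl
  rw [e8, e9, pr_eq (by omega : 2 ≤ 3 + nn N + ww N), ite_mul, one_mul, zero_mul, one_mul,
    zero_mul, pow_zero]
  unfold nn
  ring

theorem beta_P (x : Fin N.1.length) :
    (abN N u h).beta (Ab.iP x) = pr N (3 + x.val) := by
  unfold Ab.beta
  rw [Fintype.sum_sum_type, Fintype.sum_sum_type, pr_eq (by have := x.isLt; unfold nn; omega)]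
  rw [Finset.sum_eq_zero (s := univ) (f := fun c : Fin 3 => _), Finset.sum_eq_single x,
    Finset.sum_eq_zero (s := univ) (f := fun k : Fin N.2.length => _)]
  · simp [Ab.b, idx, nn]
  · intro k _; simp [Ab.b]
  · intro y _ hy; simp [Ab.b, hy]
  · simp
  · intro c _; simp [Ab.b]

theorem beta_F (k : Fin N.2.length) (c : Bool) :
    (abN N u h).beta (Ab.iF k c) = pr N (3 + nn N + k.val) := by
  unfold Ab.beta
  rw [Fintype.sum_sum_type, Fintype.sum_sum_type, pr_eq (by have := k.isLt; unfold ww; omega)]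
  rw [Finset.sum_eq_zero (s := univ) (f := fun c : Fin 3 => _),
    Finset.sum_eq_zero (s := univ) (f := fun y : Fin N.1.length => _), Finset.sum_eq_single k]
  · simp [Ab.b, idx, nn]
  · intro y _ hy; simp [Ab.b, hy]
  · simp
  · intro y _; simp [Ab.b]
  · intro c _; simp [Ab.b]

theorem beta_E (c : Bool) :
    (abN N u h).beta (Ab.iE c) = if c then 1 + Rb (nn N) else Rb (nn N) := by
  unfold Ab.beta
  rw [Fintype.sum_sum_type, Fintype.sum_sum_type, Fin.sum_univ_three]
  cases c <;> simp [Ab.b, idx, nn]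

theorem items_rep : MRep (fun i => ((abN N u h).beta i, (abN N u h).mark i)) (items N u) := by
  unfold items
  refine mrep_sum ?_ (mrep_sum ?_ (mrep_sum ?_ ?_))
  · refine mrep_prod (κ := Fin 3) (n := nn N)
      (a := fun p => ((abN N u h).beta (Ab.iI p), (abN N u h).mark (Ab.iI p))) fun x => ?_
    refine mrep_congr (mrep_fin (n := 3) (fun v => (bI N x.val v, mkI u x.val v))) fun v => ?_
    show ((abN N u h).beta (Ab.iI (x, v)), (abN N u h).mark (Ab.iI (x, v))) = _
    have e : (abN N u h).mark (Ab.iI (x, v)) = mkI u x.val v.val := by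
      simp only [Ab.mark, mkI]
      refine if_congr ?_ rfl rfl
      simp only [abN, Prod.ext_iff, Fin.ext_iff]
      exact or_congr (and_congr Fin.ext_iff Iff.rfl)
        (or_congr (and_congr Fin.ext_iff Iff.rfl) (and_congr Fin.ext_iff Iff.rfl))
    rw [beta_I h x v, e]
  · refine mrep_congr (mrep_fin (n := nn N) (fun x => (pr N (3 + x), 0))) fun x => ?_
    show ((abN N u h).beta (Ab.iP x), (abN N u h).mark (Ab.iP x)) = _
    rw [beta_P h x]
    rfl
  · refine mrep_prod (κ := Bool) (n := ww N)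
      (a := fun p => ((abN N u h).beta (Ab.iF p.1 p.2), (abN N u h).mark (Ab.iF p.1 p.2)))
      fun k => ?_
    have e1 := beta_F h k true
    have e2 := beta_F h k false
    refine mrep_congr (mrep_bool fun _ => (pr N (3 + nn N + k.val), 0)) fun c => ?_
    cases c
    · show ((abN N u h).beta (Ab.iF k false), _) = _
      rw [e2]; rfl
    · show ((abN N u h).beta (Ab.iF k true), _) = _
      rw [e1]; rfl
  · refine mrep_congr (mrep_bool fun c => (if c then 1 + Rb (nn N) else Rb (nn N), 0)) fun c => ?_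
    show ((abN N u h).beta (Ab.iE c), _) = _
    rw [beta_E h c]
    rfl

theorem tot_eq : tot N u = ∑ i, (abN N u h).beta i :=
  mrep_sum_eq (mrep_map (items_rep h) Prod.fst)

theorem geo_eq : geo N = ∑ x : Fin N.1.length, Rb N.1.length ^ (3 + x.val) +
    ∑ k : Fin N.2.length, Rb N.1.length ^ (3 + N.1.length + k.val) := by
  unfold geo
  rw [List.range_add, List.map_append, List.sum_append, List.map_map]
  congr 1
  · rw [mrep_sum_eq (mrep_fin (n := nn N) (fun x => pr N (3 + x)))]
    refine Finset.sum_congr rfl fun x _ => ?_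
    rw [pr_eq (by have := x.isLt; omega)]
    rfl
  · rw [mrep_sum_eq (mrep_fin (n := ww N) ((fun j => pr N (3 + j)) ∘ fun x => nn N + x))]
    refine Finset.sum_congr rfl fun x _ => ?_
    show pr N (3 + (nn N + x.val)) = _
    rw [pr_eq (by have := x.isLt; omega), ← add_assoc]
    rfl

theorem val_cX : Ab.val (n := N.1.length) (w := N.2.length) Ab.cX = 1 + Rb (nn N) + geo N := by
  unfold Ab.val
  rw [Fintype.sum_sum_type, Fintype.sum_sum_type, Fin.sum_univ_three, geo_eq]
  simp [Ab.cX, idx, nn]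

theorem val_cH : Ab.val (n := N.1.length) (w := N.2.length) Ab.cH = nn N + geo N := by
  unfold Ab.val
  rw [Fintype.sum_sum_type, Fintype.sum_sum_type, Fin.sum_univ_three, geo_eq]
  simp [Ab.cH, idx, nn]

theorem Z_eq (m : ℕ) : ((abN N u h).sys m).Z = Zn N u := by
  unfold Sys.Z Zn
  rw [tot_eq h]
  rfl

theorem cap_eq (m κ : ℕ) : ((abN N u h).sys m).cap κ = capN N u κ := by
  unfold Sys.cap capN
  rw [tot_eq h, ← val_cX, ← val_cH]
  rfl

theorem g_bound (j : JJ (It N.1.length N.2.length) (2 * nn N + 2)) :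
    (((abN N u h).sys (2 * nn N + 2)).gJ j + 1) * Zn N u < wn N u := by
  have h1 : ((abN N u h).sys (2 * nn N + 2)).gJ j ≤ 4 * 2 ^ (2 * nn N + 2) := by
    have h2 : 1 < 2 ^ (2 * nn N + 2) := Nat.one_lt_two_pow (by omega)
    rcases j with _ | κ | i | j | b
    · show 2 ≤ _; omega
    · show 4 ≤ _; omega
    · show 5 ≤ _; omega
    · show 4 * 2 ^ (j.val + 1) ≤ _
      exact Nat.mul_le_mul_left _ (Nat.pow_le_pow_right (by norm_num) (by
        have : j.val < 2 * nn N + 2 := j.isLt
        omega))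
    · exact le_rfl
  have h3 : 0 < Zn N u := by unfold Zn; omega
  unfold wn
  exact Nat.mul_lt_mul_of_pos_right (by omega) h3

theorem daps_rep : MRep (fun j : Option (JJ (It N.1.length N.2.length) (2 * nn N + 2)) =>
    (ff (Zn N u) (wn N u) ((abN N u h).sys (2 * nn N + 2)).gJ j,
      pp (wn N u) ((abN N u h).sys (2 * nn N + 2)).pJ j)) (daps N u) := by
  unfold daps
  refine mrep_option (a := fun j => (ff (Zn N u) (wn N u) ((abN N u h).sys (2 * nn N + 2)).gJ j,
      pp (wn N u) ((abN N u h).sys (2 * nn N + 2)).pJ j)) ?_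
  refine mrep_sum (mrep_unit _) (mrep_sum ?_ (mrep_sum ?_ (mrep_sum ?_ ?_)))
  · refine mrep_congr (mrep_fin (n := 4) (fun κ => (fr N u 4, Zn N u - capN N u κ))) fun κ => ?_
    show (fr N u 4, ((abN N u h).sys (2 * nn N + 2)).Z - ((abN N u h).sys (2 * nn N + 2)).cap κ.val)
      = _
    rw [Z_eq, cap_eq]
  · exact mrep_map (items_rep h) (fun p => (fr N u 5, 32 * p.1 + p.2))
  · exact mrep_fin (n := 2 * nn N + 2) (fun j => (fr N u (4 * 2 ^ (j + 1)), 5))
  · exact mrep_bool _

theorem feas_daps : Q229.PW.Feasible (daps N u) ↔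
    BinJ ((abN N u h).sys (2 * N.1.length + 2)).Z ((abN N u h).sys (2 * N.1.length + 2)).gJ
      ((abN N u h).sys (2 * N.1.length + 2)).pJ := by
  have h1 := feas_iff_bin (g_bound h) (p := ((abN N u h).sys (2 * nn N + 2)).pJ)
  have h2 := feas_list (daps_rep h)
  have h3 := Z_eq h (2 * N.1.length + 2)
  rw [h3]
  exact h2.trans h1

end

end Q229.DP
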