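import Pool.Agent.Q229.DP.Compl

set_option autoImplicit false

/-!
# The items of a constraint satisfaction problem
-/

namespace Q229.DP

open Finset

/-! ### Digits -/

theorem digits_lt {D : Type} (idx : D → ℕ) {R : ℕ} (hR : 0 < R) (a : D → ℕ) (N : ℕ) :
    ∀ s : Finset D, (∀ d ∈ s, idx d < N) → (∀ d ∈ s, ∀ d' ∈ s, idx d = idx d' → d = d') →
      (∀ d ∈ s, a d < R) → ∑ d ∈ s, a d * R ^ idx d < R ^ N := by
  classical
  induction N with
  | zero =>
    intro s h1 _ _
    have : s = ∅ := by
      rw [Finset.eq_empty_iff_forall_notMem]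
      intro d hd
      exact absurd (h1 d hd) (by omega)
    rw [this]; simp
  | succ N ih =>
    intro s h1 h2 h3
    by_cases h : ∃ d ∈ s, idx d = N
    · obtain ⟨d, hd, hN⟩ := h
      rw [← Finset.add_sum_erase s _ hd, hN]
      have h4 := ih (s.erase d) (fun d' hd' => by
        have h5 := h1 d' (mem_of_mem_erase hd')
        have h6 : idx d' ≠ N := fun h7 => (ne_of_mem_erase hd')
          (h2 _ (mem_of_mem_erase hd') _ hd (h7.trans hN.symm))
        omega) (fun x hx y hy => h2 x (mem_of_mem_erase hx) y (mem_of_mem_erase hy))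
        (fun x hx => h3 x (mem_of_mem_erase hx))
      have h5 := h3 d hd
      calc a d * R ^ N + ∑ x ∈ s.erase d, a x * R ^ idx x < a d * R ^ N + R ^ N := by omega
        _ = (a d + 1) * R ^ N := by ring
        _ ≤ R * R ^ N := Nat.mul_le_mul_right _ h5
        _ = R ^ (N + 1) := by ring
    · push Not at h
      have h5 := ih s (fun d hd => by have := h1 d hd; have := h d hd; omega) h2 h3
      exact lt_of_lt_of_le h5 (Nat.pow_le_pow_right hR (by omega))

theorem digits_inj {D : Type} (idx : D → ℕ) {R : ℕ} (hR : 0 < R) (a c : D → ℕ) (N : ℕ) :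
    ∀ s : Finset D, (∀ d ∈ s, idx d < N) → (∀ d ∈ s, ∀ d' ∈ s, idx d = idx d' → d = d') →
      (∀ d ∈ s, a d < R) → (∀ d ∈ s, c d < R) →
      ∑ d ∈ s, a d * R ^ idx d = ∑ d ∈ s, c d * R ^ idx d → ∀ d ∈ s, a d = c d := by
  classical
  induction N with
  | zero =>
    intro s h1 _ _ _ _ d hd
    exact absurd (h1 d hd) (by omega)
  | succ N ih =>
    intro s h1 h2 h3 h4 h
    by_cases hN : ∃ d ∈ s, idx d = N
    · obtain ⟨d, hd, hN⟩ := hN
      have hlt : ∀ d' ∈ s.erase d, idx d' < N := fun d' hd' => by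
        have h5 := h1 d' (mem_of_mem_erase hd')
        have h6 : idx d' ≠ N := fun h7 => (ne_of_mem_erase hd')
          (h2 _ (mem_of_mem_erase hd') _ hd (h7.trans hN.symm))
        omega
      have hinj : ∀ x ∈ s.erase d, ∀ y ∈ s.erase d, idx x = idx y → x = y :=
        fun x hx y hy => h2 x (mem_of_mem_erase hx) y (mem_of_mem_erase hy)
      have ha := digits_lt idx hR a N (s.erase d) hlt hinj
        (fun x hx => h3 x (mem_of_mem_erase hx))
      have hc := digits_lt idx hR c N (s.erase d) hlt hinj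
        (fun x hx => h4 x (mem_of_mem_erase hx))
      rw [← Finset.add_sum_erase s _ hd, ← Finset.add_sum_erase s _ hd, hN] at h
      have h5 : a d = c d := by
        rcases Nat.lt_trichotomy (a d) (c d) with h6 | h6 | h6
        · exfalso
          have h7 : (a d + 1) * R ^ N ≤ c d * R ^ N := Nat.mul_le_mul_right _ h6
          rw [Nat.add_mul, Nat.one_mul] at h7
          omega
        · exact h6
        · exfalso
          have h7 : (c d + 1) * R ^ N ≤ a d * R ^ N := Nat.mul_le_mul_right _ h6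
          rw [Nat.add_mul, Nat.one_mul] at h7
          omega
      rw [h5] at h
      have h6 := ih (s.erase d) hlt hinj (fun x hx => h3 x (mem_of_mem_erase hx))
        (fun x hx => h4 x (mem_of_mem_erase hx)) (by omega)
      intro d' hd'
      by_cases h7 : d' = d
      · rw [h7, h5]
      · exact h6 d' (mem_erase.2 ⟨h7, hd'⟩)
    · push Not at hN
      exact ih s (fun d hd => by have := h1 d hd; have := hN d hd; omega) h2 h3 h4 h

/-! ### The abstract problem -/

/-- A constraint satisfaction problem with values `0, 1, 2`. -/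
structure Ab (n w : ℕ) where
  T : Fin n → Bool
  e : Fin w → (Fin n × Fin 3) × (Fin n × Fin 3)
  u1 : Fin n
  u2 : Fin n
  u3 : Fin n

/-- items -/
abbrev It (n w : ℕ) : Type := (Fin n × Fin 3) ⊕ (Fin n ⊕ ((Fin w × Bool) ⊕ Bool))

/-- digits -/
abbrev Dg (n w : ℕ) : Type := Fin 3 ⊕ (Fin n ⊕ Fin w)

/-- the place of a digit -/
def idx {n w : ℕ} : Dg n w → ℕ
  | Sum.inl c => c.val
  | Sum.inr (Sum.inl x) => 3 + x.val
  | Sum.inr (Sum.inr k) => 3 + n + k.val

theorem idx_lt {n w : ℕ} (d : Dg n w) : idx d < 3 + n + w := by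
  rcases d with c | x | k
  · have := c.isLt; show c.val < _; omega
  · have := x.isLt; show 3 + x.val < _; omega
  · have := k.isLt; show 3 + n + k.val < _; omega

theorem idx_inj {n w : ℕ} {d d' : Dg n w} (h : idx d = idx d') : d = d' := by
  rcases d with c | x | k <;> rcases d' with c' | x' | k' <;> simp only [idx] at h
  · rw [Fin.ext h]
  · have := c.isLt; omega
  · have := c.isLt; omega
  · have := c'.isLt; omega
  · rw [Fin.ext (show x.val = x'.val by omega)]
  · have := x.isLt; omega
  · have := c'.isLt; omega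
  · have := x'.isLt; omega
  · rw [Fin.ext (show k.val = k'.val by omega)]

/-- the base -/
def Rb (n : ℕ) : ℕ := 3 * n + 5

namespace Ab

variable {n w : ℕ} (A : Ab n w)

/-- solutions -/
def Sol (f : Fin n → Fin 3) : Prop :=
  (∀ x, A.T x = true → f x ≠ 2) ∧
    ∀ k, ¬ (f (A.e k).1.1 = (A.e k).1.2 ∧ f (A.e k).2.1 = (A.e k).2.2)

/-- steps -/
def Step (f g : Fin n → Fin 3) : Prop := A.Sol f ∧ A.Sol g ∧ ∃ x, ∀ y, y ≠ x → g y = f y

/-- digits of an item -/
def b : It n w → Dg n w → ℕ
  | Sum.inl p => Sum.elim (fun c => if c = 0 then 1 else if c = 1 then 0 else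
        if A.T p.1 = true ∧ p.2 = 2 then 1 else 0)
      (Sum.elim (fun y => if y = p.1 then 1 else 0)
        (fun k => (if p = (A.e k).1 then 1 else 0) + (if p = (A.e k).2 then 1 else 0)))
  | Sum.inr (Sum.inl x) => Sum.elim (fun _ => 0)
      (Sum.elim (fun y => if y = x then 1 else 0) (fun _ => 0))
  | Sum.inr (Sum.inr (Sum.inl p)) => Sum.elim (fun _ => 0)
      (Sum.elim (fun _ => 0) (fun k => if k = p.1 then 1 else 0))
  | Sum.inr (Sum.inr (Sum.inr c)) => Sum.elim (fun d => if d = 0 then (if c then 1 else 0) else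
        if d = 1 then 1 else 0) (fun _ => 0)

/-- target digits of the holding bins -/
def cH : Dg n w → ℕ := Sum.elim (fun c => if c = 0 then n else 0) (fun _ => 1)

/-- target digits of the exchange bins -/
def cX : Dg n w → ℕ := Sum.elim (fun c => if c = 2 then 0 else 1) (fun _ => 1)

/-- the weight of an item -/
def beta (i : It n w) : ℕ := ∑ d, A.b i d * Rb n ^ idx d

/-- the value of a digit vector -/
def val (c : Dg n w → ℕ) : ℕ := ∑ d, c d * Rb n ^ idx d

/-- marks -/
def mark : It n w → ℕ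
  | Sum.inl p => if p = (A.u1, 0) ∨ p = (A.u2, 1) ∨ p = (A.u3, 1) then 1 else 0
  | _ => 0

/-- the packing system -/
def sys (m : ℕ) : Sys (It n w) where
  m := m
  β := A.beta
  z := A.mark
  bS := ∑ i, A.beta i - val (n := n) (w := w) cX - val (n := n) (w := w) cH
  bX := val (n := n) (w := w) cX
  bH := val (n := n) (w := w) cH

/-- digit counts -/
def cnt (pos : It n w → ℕ) (κ : ℕ) (d : Dg n w) : ℕ := ∑ i, if pos i = κ then A.b i d else 0

abbrev iI (p : Fin n × Fin 3) : It n w := Sum.inl p
abbrev iP (x : Fin n) : It n w := Sum.inr (Sum.inl x)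
abbrev iF (k : Fin w) (c : Bool) : It n w := Sum.inr (Sum.inr (Sum.inl (k, c)))
abbrev iE (c : Bool) : It n w := Sum.inr (Sum.inr (Sum.inr c))

theorem sum_it (F : It n w → ℕ) : ∑ i, F i = ∑ p : Fin n × Fin 3, F (iI p) +
    (∑ x, F (iP x) + (∑ k, (F (iF k true) + F (iF k false)) + (F (iE true) + F (iE false)))) := by
  simp only [Fintype.sum_sum_type, Fintype.sum_bool, Fintype.sum_prod_type]

theorem sum_pos (pos : It n w → ℕ) (κ : ℕ) :
    ∑ i, (if pos i = κ then A.beta i else 0) = val (A.cnt pos κ) := by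
  unfold val cnt beta
  simp only [Finset.sum_mul]
  rw [Finset.sum_comm]
  refine Finset.sum_congr rfl fun i _ => ?_
  split_ifs with h
  · rfl
  · simp

theorem cnt_E (pos : It n w → ℕ) (κ : ℕ) : A.cnt pos κ (Sum.inl 0) =
    (∑ p : Fin n × Fin 3, if pos (iI p) = κ then 1 else 0) +
      (if pos (iE true) = κ then 1 else 0) := by
  unfold cnt
  rw [sum_it]
  simp [b]

theorem cnt_η (pos : It n w → ℕ) (κ : ℕ) : A.cnt pos κ (Sum.inl 1) =
    (if pos (iE true) = κ then 1 else 0) + (if pos (iE false) = κ then 1 else 0) := by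
  unfold cnt
  rw [sum_it]
  simp [b]

theorem cnt_Φ (pos : It n w → ℕ) (κ : ℕ) : A.cnt pos κ (Sum.inl 2) =
    ∑ p : Fin n × Fin 3, if pos (iI p) = κ ∧ A.T p.1 = true ∧ p.2 = 2 then 1 else 0 := by
  unfold cnt
  rw [sum_it]
  simp [b, ite_and]

theorem cnt_x (pos : It n w → ℕ) (κ : ℕ) (x : Fin n) : A.cnt pos κ (Sum.inr (Sum.inl x)) =
    (∑ v : Fin 3, if pos (iI (x, v)) = κ then 1 else 0) + (if pos (iP x) = κ then 1 else 0) := by
  unfold cnt
  rw [sum_it, Fintype.sum_prod_type]
  simp only [b, Sum.elim_inr, Sum.elim_inl]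
  rw [Finset.sum_eq_single x, Finset.sum_eq_single (s := univ) (a := x)
    (f := fun y => if pos (iP y) = κ then if x = y then 1 else 0 else 0)]
  · simp
  · intro y _ hy
    simp [hy.symm]
  · simp
  · intro y _ hy
    simp [hy.symm]
  · simp

theorem sum_two {D : Type} [Fintype D] [DecidableEq D] (P : D → Prop) [DecidablePred P] (a b : D) :
    (∑ p, if P p then (if p = a then 1 else 0) + (if p = b then 1 else 0) else 0) =
      (if P a then 1 else 0) + (if P b then 1 else 0) := by
  have h1 : ∀ p, (if P p then (if p = a then 1 else 0) + (if p = b then 1 else 0) else 0) =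
      (if p = a then (if P a then 1 else 0) else 0) +
        (if p = b then (if P b then 1 else 0) else 0) := by
    intro p
    by_cases h2 : p = a <;> by_cases h3 : p = b
    · subst h2; subst h3; simp; split_ifs <;> rfl
    · subst h2; simp [h3]
    · subst h3; simp [h2]
    · simp [h2, h3]
  rw [Finset.sum_congr rfl fun p _ => h1 p, Finset.sum_add_distrib]
  simp

theorem cnt_k (pos : It n w → ℕ) (κ : ℕ) (k : Fin w) :
    A.cnt pos κ (Sum.inr (Sum.inr k)) =
    (if pos (iI (A.e k).1) = κ then 1 else 0) + (if pos (iI (A.e k).2) = κ then 1 else 0) +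
    ((if pos (iF k true) = κ then 1 else 0) + (if pos (iF k false) = κ then 1 else 0)) := by
  unfold cnt
  rw [sum_it]
  simp only [b, Sum.elim_inr]
  rw [sum_two]
  rw [Finset.sum_eq_single (s := univ) (a := k)]
  · simp
  · intro y _ hy
    simp [hy.symm]
  · simp

end Ab

end Q229.DP
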