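import Pool.Agent.Q229.DP.ReachG
import Pool.Agent.Q229.PW.Defs
import Pool.Agent.H687R2.IntPoly

set_option autoImplicit false

/-!
# Pinwheel scheduling with durations is in polynomial space
-/

namespace Q229.DPM

open Finset Q229.PW

/-- duration -/
def dur (V : Inst) (j : ℕ) : ℕ := (V.getD j (0, 0)).2
/-- frequency -/
def frq (V : Inst) (j : ℕ) : ℕ := (V.getD j (0, 0)).1

/-- elapsed times after the job `j` -/
def nx (V : Inst) (r : List ℕ) (j : ℕ) : List ℕ :=
  (List.range V.length).map fun i => if i = j then 0 else r.getD i 0 + dur V j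

/-- the test whether the job `j` may be next -/
def okj (V : Inst) (r : List ℕ) (j : ℕ) : Bool :=
  (List.range V.length).all fun i => decide (r.getD i 0 + dur V j ≤ frq V i)

/-- elapsed times zero -/
def zer (V : Inst) : List ℕ := (List.range V.length).map fun _ => 0

/-- elapsed times along a sequence of jobs -/
def run (V : Inst) (S : ℕ → ℕ) : ℕ → List ℕ
  | 0 => zer V
  | k + 1 => nx V (run V S k) (S k)

theorem nx_getD {V : Inst} {r : List ℕ} {j i : ℕ} (hi : i < V.length) :
    (nx V r j).getD i 0 = if i = j then 0 else r.getD i 0 + dur V j := by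
  unfold nx
  rw [List.getD_eq_getElem _ _ (by simpa using hi)]
  simp

theorem zer_getD {V : Inst} {i : ℕ} : (zer V).getD i 0 = 0 := by
  unfold zer
  rcases Nat.lt_or_ge i V.length with hi | hi
  · rw [List.getD_eq_getElem _ _ (by simpa using hi)]
    simp
  · rw [List.getD_eq_default _ _ (by simpa using hi)]

theorem okj_iff {V : Inst} {r : List ℕ} {j : ℕ} :
    okj V r j = true ↔ ∀ i < V.length, r.getD i 0 + dur V j ≤ frq V i := by
  unfold okj
  simp [List.all_eq_true]

theorem run_length (V : Inst) (S : ℕ → ℕ) (k : ℕ) : (run V S k).length = V.length := by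
  cases k <;> simp [run, zer, nx]

theorem run_congr {V : Inst} {S S' : ℕ → ℕ} {k : ℕ} (h : ∀ t < k, S t = S' t) :
    run V S k = run V S' k := by
  induction k with
  | zero => rfl
  | succ k ih =>
    show nx V (run V S k) (S k) = nx V (run V S' k) (S' k)
    rw [ih fun t ht => h t (by omega), h k (by omega)]

/-- an infinite walk -/
def Walk (V : Inst) (r : ℕ → List ℕ) (S : ℕ → ℕ) : Prop :=
  ∀ t, S t < V.length ∧ okj V (r t) (S t) = true ∧ r (t + 1) = nx V (r t) (S t)

theorem dur_fin (V : Inst) (i : Fin V.length) : dur V i = (V.get i).2 := by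
  unfold dur
  rw [List.getD_eq_getElem _ _ i.2]
  rfl

theorem frq_fin (V : Inst) (i : Fin V.length) : frq V i = (V.get i).1 := by
  unfold frq
  rw [List.getD_eq_getElem _ _ i.2]
  rfl

/-- An infinite walk gives a schedule. -/
theorem feasible_of_walk {V : Inst} (hV : Valid V) {r : ℕ → List ℕ} {S : ℕ → ℕ}
    (h : Walk V r S) : Feasible V := by
  have hpos : ∀ j, j < V.length → 0 < dur V j := by
    intro j hj
    have h1 := dur_fin V ⟨j, hj⟩
    have h2 := (hV.2.1 _ (List.get_mem V ⟨j, hj⟩)).2
    rw [← h1] at h2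
    exact h2
  -- the elapsed time without occurrences
  have hadd : ∀ (i : Fin V.length) (a k : ℕ), (∀ t, a ≤ t → t < a + k → S t ≠ i.val) →
      (r (a + k)).getD i 0 = (r a).getD i 0 + ∑ t ∈ Ico a (a + k), dur V (S t) := by
    intro i a k
    induction k with
    | zero => intro _; simp
    | succ k ih =>
      intro hk
      have h1 := ih fun t ht1 ht2 => hk t ht1 (by omega)
      have h2 := (h (a + k)).2.2
      rw [← add_assoc, h2, nx_getD i.2, if_neg (fun h3 => hk (a + k) (by omega) (by omega) h3.symm),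
        h1, Finset.sum_Ico_succ_top (by omega)]
      ring
  refine ⟨fun t => ⟨S t, (h t).1⟩, fun i => ⟨?_, ?_⟩⟩
  · refine Set.infinite_of_forall_exists_gt fun T => ?_
    by_contra hno
    push Not at hno
    have hne : ∀ t, T < t → S t ≠ i.val := fun t ht he => by
      have h1 := hno t (Fin.ext he)
      omega
    have h1 := hadd i (T + 1) (frq V i + 1) (fun t ht _ => hne t (by omega))
    have h2 : frq V i + 1 ≤ ∑ t ∈ Ico (T + 1) (T + 1 + (frq V i + 1)), dur V (S t) := by
      calc frq V i + 1 = ∑ t ∈ Ico (T + 1) (T + 1 + (frq V i + 1)), 1 := by simp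
        _ ≤ _ := Finset.sum_le_sum fun t _ => hpos _ (h t).1
    have h3 := okj_iff.1 (h (T + 1 + (frq V i + 1))).2.1 i.val i.2
    omega
  · intro a b hab ha hb hm
    have ha' : S a = i.val := Fin.ext_iff.1 ha
    have hm' : ∀ t, a + 1 ≤ t → t < b → S t ≠ i.val := fun t h1 h2 h3 =>
      hm t (by omega) h2 (Fin.ext h3)
    have h1 : (r (a + 1)).getD i 0 = 0 := by
      rw [(h a).2.2, nx_getD i.2, if_pos ha'.symm]
    have h2 := hadd i (a + 1) (b - (a + 1)) (fun t ht1 ht2 => hm' t ht1 (by omega))
    have e1 : a + 1 + (b - (a + 1)) = b := by omega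
    rw [e1, h1, zero_add] at h2
    have h3 := okj_iff.1 (h b).2.1 i.val i.2
    rw [h2] at h3
    have h4 : ∑ t ∈ Ioc a b, (V.get ⟨S t, (h t).1⟩).2 = ∑ t ∈ Ico (a + 1) b, dur V (S t) +
        dur V (S b) := by
      have e2 : Ioc a b = Ico (a + 1) (b + 1) := by
        ext t
        simp only [mem_Ioc, mem_Ico]
        omega
      rw [e2, Finset.sum_Ico_succ_top (by omega)]
      congr 1
      · exact Finset.sum_congr rfl fun t _ => (dur_fin V _).symm
      · exact (dur_fin V _).symm
    rw [← frq_fin]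
    exact (le_of_eq h4).trans h3

/-- A schedule gives a walk from zero. -/
theorem walk_of_feasible {V : Inst} (h : Feasible V) :
    ∃ S : ℕ → ℕ, ∀ k, S k < V.length ∧ okj V (run V S k) (S k) = true := by
  classical
  obtain ⟨S, hS⟩ := h
  choose t ht using fun j => ((hS j).1.nonempty)
  obtain ⟨T0, hT0⟩ : ∃ T0, ∀ j, t j < T0 := ⟨univ.sup t + 1, fun j =>
    Nat.lt_succ_of_le (Finset.le_sup (mem_univ j))⟩
  have inv : ∀ (k : ℕ) (i : Fin V.length) (a : ℕ), a < T0 + k → S a = i →
      (run V (fun k => (S (T0 + k)).val) k).getD i 0 ≤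
        ∑ t ∈ Ioo a (T0 + k), (V.get (S t)).2 := by
    intro k
    induction k with
    | zero =>
      intro i a _ _
      show (zer V).getD i 0 ≤ _
      rw [zer_getD]
      exact Nat.zero_le _
    | succ k ih =>
      intro i a ha hai
      show (nx V _ _).getD i 0 ≤ _
      rw [nx_getD i.2]
      split_ifs with h1
      · exact Nat.zero_le _
      · have h2 : a ≠ T0 + k := by
          rintro rfl
          exact h1 (Fin.ext_iff.1 hai.symm)
        have h3 := ih i a (by omega) hai
        have h4 : ∑ t ∈ Ioo a (T0 + (k + 1)), (V.get (S t)).2 =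
            ∑ t ∈ Ioo a (T0 + k), (V.get (S t)).2 + (V.get (S (T0 + k))).2 := by
          have e1 : Ioo a (T0 + (k + 1)) = insert (T0 + k) (Ioo a (T0 + k)) := by
            ext t
            simp only [mem_Ioo, mem_insert]
            omega
          rw [e1, Finset.sum_insert (by simp)]
          ring
        rw [h4]
        exact Nat.add_le_add h3 (le_of_eq (dur_fin V _))
  refine ⟨fun k => (S (T0 + k)).val, fun k => ⟨(S (T0 + k)).2, ?_⟩⟩
  rw [okj_iff]
  intro i hi
  -- last occurrence before, first occurrence after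
  have hne : ((range (T0 + k)).filter fun t => S t = ⟨i, hi⟩).Nonempty := by
    refine ⟨t ⟨i, hi⟩, ?_⟩
    rw [mem_filter, mem_range]
    exact ⟨by have := hT0 ⟨i, hi⟩; omega, ht ⟨i, hi⟩⟩
  have h1 := max'_mem _ hne
  rw [mem_filter, mem_range] at h1
  set a := ((range (T0 + k)).filter fun t => S t = ⟨i, hi⟩).max' hne with ha
  have h2 : ∀ t, a < t → t < T0 + k → S t ≠ ⟨i, hi⟩ := by
    intro t h3 h4 h5
    have h6 : t ∈ (range (T0 + k)).filter fun t => S t = ⟨i, hi⟩ := by
      rw [mem_filter, mem_range]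
      exact ⟨h4, h5⟩
    have := le_max' _ t h6
    omega
  have hex : ∃ b, T0 + k ≤ b ∧ S b = ⟨i, hi⟩ := by
    obtain ⟨b, hb, hb'⟩ := (hS ⟨i, hi⟩).1.exists_gt (T0 + k)
    exact ⟨b, le_of_lt hb', hb⟩
  have hb1 := (Nat.find_spec hex).1
  have hb2 := (Nat.find_spec hex).2
  have hb3 : ∀ t, T0 + k ≤ t → t < Nat.find hex → S t ≠ ⟨i, hi⟩ := fun t h3 h4 h5 =>
    Nat.find_min hex h4 ⟨h3, h5⟩
  have h5 := (hS ⟨i, hi⟩).2 a (Nat.find hex) (by omega) h1.2 hb2 (fun t h3 h4 => by
    rcases Nat.lt_or_ge t (T0 + k) with h6 | h6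
    · exact h2 t h3 h6
    · exact hb3 t h6 h4)
  have h6 := inv k ⟨i, hi⟩ a h1.1 h1.2
  have h7 : ∑ t ∈ Ioo a (T0 + k), (V.get (S t)).2 + (V.get (S (T0 + k))).2 ≤
      ∑ t ∈ Ioc a (Nat.find hex), (V.get (S t)).2 := by
    have e1 : ∑ t ∈ insert (T0 + k) (Ioo a (T0 + k)), (V.get (S t)).2 =
        ∑ t ∈ Ioo a (T0 + k), (V.get (S t)).2 + (V.get (S (T0 + k))).2 := by
      rw [Finset.sum_insert (by simp)]
      ring
    rw [← e1]
    refine Finset.sum_le_sum_of_subset fun t ht => ?_
    simp only [mem_insert, mem_Ioo, mem_Ioc] at ht ⊢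
    omega
  have e2 : dur V (S (T0 + k)).val = (V.get (S (T0 + k))).2 := dur_fin V _
  have e3 : frq V i = (V.get ⟨i, hi⟩).1 := frq_fin V ⟨i, hi⟩
  rw [e2, e3]
  exact (Nat.add_le_add_right h6 _).trans (h7.trans h5)

/-- the number of steps -/
def KK (V : Inst) : ℕ := 2 ^ Pool.Agent.NPC.sz V

theorem prod_le (V : Inst) : (V.map fun x => x.1 + 1).prod ≤ KK V := by
  unfold KK
  induction V with
  | nil => simp
  | cons x V ih =>
    rw [List.map_cons, List.prod_cons, Pool.Agent.NPC.sz_list_cons, pow_succ]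
    have h1 : x.1 + 1 ≤ 2 ^ Pool.Agent.NPC.sz x := by
      have h2 : x.1 < 2 ^ x.1.size := Nat.lt_size_self x.1
      have h3 := Pool.Agent.NPC.size_le_sz x.1
      have h4 : Pool.Agent.NPC.sz x = Pool.Agent.NPC.sz x.1 + Pool.Agent.NPC.sz x.2 + 1 :=
        Pool.Agent.NPC.sz_pair _ _
      have h5 : 2 ^ x.1.size ≤ 2 ^ Pool.Agent.NPC.sz x :=
        Nat.pow_le_pow_right (by norm_num) (by omega)
      omega
    rw [pow_add]
    have h6 := Nat.mul_le_mul h1 ih
    have h7 : 0 < 2 ^ Pool.Agent.NPC.sz x * 2 ^ Pool.Agent.NPC.sz V := by positivity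
    omega

theorem card_le (V : Inst) : ∏ i : Fin V.length, (frq V i + 1) ≤ KK V := by
  refine le_trans (le_of_eq ?_) (prod_le V)
  rw [← List.prod_ofFn]
  congr 1
  apply List.ext_getElem
  · simp
  · intro i h1 h2
    have h3 : i < V.length := by simpa using h2
    simp only [List.getElem_ofFn, List.getElem_map]
    unfold frq
    rw [List.getD_eq_getElem _ _ h3]

/-- A long finite walk gives a schedule. -/
theorem feasible_of_long {V : Inst} (hV : Valid V) {S : ℕ → ℕ}
    (h : ∀ k < KK V, S k < V.length ∧ okj V (run V S k) (S k) = true) : Feasible V := by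
  classical
  have hmaps : ∀ k ∈ range (KK V + 1), (fun i : Fin V.length => (run V S k).getD i 0) ∈
      Fintype.piFinset (fun i : Fin V.length => range (frq V i + 1)) := by
    intro k hk
    rw [mem_range] at hk
    rw [Fintype.mem_piFinset]
    intro i
    rw [mem_range]
    cases k with
    | zero =>
      show (zer V).getD i 0 < _
      rw [zer_getD]; omega
    | succ k =>
      show (nx V _ _).getD i 0 < _
      rw [nx_getD i.2]
      have h1 := okj_iff.1 (h k (by omega)).2 i.val i.2
      split_ifs <;> omega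
  have hcard : (Fintype.piFinset (fun i : Fin V.length => range (frq V i + 1))).card <
      (range (KK V + 1)).card := by
    rw [Fintype.card_piFinset, card_range]
    simp only [card_range]
    have := card_le V
    omega
  obtain ⟨p, hp, q, hq, hpq, heq⟩ := Finset.exists_ne_map_eq_of_card_lt_of_maps_to hcard hmaps
  rw [mem_range] at hp hq
  have hrun : run V S p = run V S q := by
    apply List.ext_getElem
    · rw [run_length, run_length]
    · intro i h1 h2
      rw [run_length] at h1
      have h3 := congrFun heq ⟨i, h1⟩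
      simp only at h3
      rw [List.getD_eq_getElem _ _ (by rw [run_length]; exact h1),
        List.getD_eq_getElem _ _ (by rw [run_length]; exact h1)] at h3
      exact h3
  have main : ∀ p q, p < q → q < KK V + 1 → run V S p = run V S q → Feasible V := by
    intro p q hpq hq hrun
    refine feasible_of_walk hV (r := fun t => run V S (p + t % (q - p)))
      (S := fun t => S (p + t % (q - p))) fun t => ?_
    have hlt : t % (q - p) < q - p := Nat.mod_lt _ (by omega)
    obtain ⟨h1, h2⟩ := h (p + t % (q - p)) (by omega)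
    refine ⟨h1, h2, ?_⟩
    show run V S (p + (t + 1) % (q - p)) = run V S (p + t % (q - p) + 1)
    by_cases h3 : t % (q - p) + 1 = q - p
    · have h4 : (t + 1) % (q - p) = 0 := by
        rw [Nat.add_mod]
        rcases Nat.lt_or_ge 1 (q - p) with h5 | h5
        · rw [Nat.mod_eq_of_lt h5, h3, Nat.mod_self]
        · have h6 : q - p = 1 := by omega
          rw [h6]; simp [Nat.mod_one]
      rw [h4, Nat.add_zero, hrun]
      congr 1
      omega
    · have h4 : (t + 1) % (q - p) = t % (q - p) + 1 := by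
        rw [Nat.add_mod, Nat.mod_eq_of_lt (by omega : 1 < q - p), Nat.mod_eq_of_lt (by omega)]
      rw [h4, Nat.add_assoc]
  rcases Nat.lt_or_gt_of_ne hpq with h1 | h1
  · exact main p q h1 hq hrun
  · exact main q p h1 hp hrun.symm

/-! ### Reachability -/

open Pool.Agent Pool.Agent.NPC

/-- the relation between states: elapsed times and a counter -/
def Rl (V : Inst) (b c : List ℕ × ℕ) : Bool :=
  (decide (b.2 < KK V) && (decide (c.2 = b.2 + 1) && ((List.range V.length).any fun j =>
    okj V b.1 j && decide (c.1 = nx V b.1 j)))) ||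
  (decide (b.2 = KK V) && (decide (c.2 = KK V) && decide (c.1 = zer V)))

theorem reach_of {V : Inst} {S : ℕ → ℕ}
    (h : ∀ k < KK V, S k < V.length ∧ okj V (run V S k) (S k) = true) :
    Relation.ReflTransGen (fun b c => Rl V b c = true) (zer V, 0) (zer V, KK V) := by
  have h1 : ∀ k ≤ KK V, Relation.ReflTransGen (fun b c => Rl V b c = true) (zer V, 0)
      (run V S k, k) := by
    intro k
    induction k with
    | zero => intro _; exact Relation.ReflTransGen.refl
    | succ k ih =>
      intro hk
      refine (ih (by omega)).tail ?_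
      obtain ⟨h2, h3⟩ := h k (by omega)
      have h4 : (List.range V.length).any (fun j => okj V (run V S k) j &&
          decide (run V S (k + 1) = nx V (run V S k) j)) = true := by
        rw [List.any_eq_true]
        refine ⟨S k, List.mem_range.2 h2, ?_⟩
        rw [Bool.and_eq_true, decide_eq_true_eq]
        exact ⟨h3, rfl⟩
      unfold Rl
      simp only [h4, show k < KK V from by omega, decide_true, Bool.true_and, Bool.true_or]
  refine (h1 _ le_rfl).tail ?_
  unfold Rl
  simp

theorem of_reach {V : Inst} (b : List ℕ × ℕ)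
    (h : Relation.ReflTransGen (fun b c => Rl V b c = true) (zer V, 0) b) :
    b.2 ≤ KK V ∧ ∃ S : ℕ → ℕ, (∀ k < b.2, S k < V.length ∧ okj V (run V S k) (S k) = true) ∧
      (b.2 < KK V → b.1 = run V S b.2) := by
  induction h with
  | refl => exact ⟨Nat.zero_le _, fun _ => 0, fun k hk => absurd hk (Nat.not_lt_zero _),
      fun _ => rfl⟩
  | @tail b c _ h2 ih =>
    obtain ⟨h3, S, h4, h5⟩ := ih
    unfold Rl at h2
    rw [Bool.or_eq_true, Bool.and_eq_true, Bool.and_eq_true, Bool.and_eq_true, Bool.and_eq_true,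
      decide_eq_true_eq, decide_eq_true_eq, decide_eq_true_eq, decide_eq_true_eq,
      decide_eq_true_eq, List.any_eq_true] at h2
    rcases h2 with ⟨h6, h7, j, hj, h8⟩ | ⟨h6, h7, h8⟩
    · rw [List.mem_range] at hj
      rw [Bool.and_eq_true, decide_eq_true_eq] at h8
      have h9 := h5 h6
      have hrun : ∀ k ≤ b.2, run V (fun t => if t = b.2 then j else S t) k = run V S k := by
        intro k hk
        refine run_congr fun t ht => ?_
        rw [if_neg (by omega)]
      refine ⟨by omega, fun t => if t = b.2 then j else S t, ?_, ?_⟩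
      · intro k hk
        rw [hrun k (by omega)]
        by_cases h10 : k = b.2
        · subst h10
          simp only [if_true]
          rw [← h9]
          exact ⟨hj, h8.1⟩
        · simp only [if_neg h10]
          exact h4 k (by omega)
      · intro _
        rw [h7, h8.2]
        show nx V b.1 j = nx V (run V (fun t => if t = b.2 then j else S t) b.2)
          (if b.2 = b.2 then j else S b.2)
        rw [hrun _ le_rfl, if_pos rfl, ← h9]
    · rw [h6] at h4
      refine ⟨by omega, S, by rw [h7]; exact h4, fun h9 => by omega⟩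

theorem feasible_iff {V : Inst} (hV : Valid V) : Feasible V ↔
    Relation.ReflTransGen (fun b c => Rl V b c = true) (zer V, 0) (zer V, KK V) := by
  constructor
  · intro h
    obtain ⟨S, hS⟩ := walk_of_feasible h
    exact reach_of fun k _ => hS k
  · intro h
    obtain ⟨-, S, hS, -⟩ := of_reach _ h
    exact feasible_of_long hV hS

/-! ### Sizes -/

/-- a bound for the sizes of the states -/
def wd (V : Inst) : ℕ := V.length * (2 * sz V + 1) + (8 * sz V + 12)

theorem frq_sz {V : Inst} {i : ℕ} (hi : i < V.length) : sz (frq V i) ≤ sz V := by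
  unfold frq
  rw [List.getD_eq_getElem _ _ hi]
  have h1 := sz_le_of_mem (List.getElem_mem hi)
  have h2 : sz V[i] = sz V[i].1 + sz V[i].2 + 1 := sz_pair _ _
  omega

theorem sz_KK {V : Inst} {k : ℕ} (hk : k ≤ KK V) : sz k ≤ 8 * sz V + 10 := by
  have h1 := sz_nat_mono_le hk
  have h2 := sz_nat_le (KK V)
  have h3 : (KK V).size = sz V + 1 := by
    unfold KK
    exact Nat.size_pow
  omega

theorem sz_state {V : Inst} {r : List ℕ} {k : ℕ} (hr : r.length = V.length)
    (hr' : ∀ i < V.length, r.getD i 0 ≤ frq V i) (hk : k ≤ KK V) : sz (r, k) ≤ wd V := by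
  have h1 : sz r ≤ r.length * (2 * sz V + 1) + 1 := by
    refine sz_le_length_mul r (2 * sz V) fun a ha => ?_
    obtain ⟨i, hi, rfl⟩ := List.mem_iff_getElem.1 ha
    have h2 := hr' i (by omega)
    rw [List.getD_eq_getElem _ _ hi] at h2
    have h3 := sz_nat_mono_le h2
    have h4 := frq_sz (V := V) (i := i) (by omega)
    omega
  have h2 := sz_KK hk
  have h3 : sz (r, k) = sz r + sz k + 1 := sz_pair _ _
  unfold wd
  rw [hr] at h1
  omega

theorem zer_length (V : Inst) : (zer V).length = V.length := by simp [zer]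

theorem sz_zer {V : Inst} {k : ℕ} (hk : k ≤ KK V) : sz (zer V, k) ≤ wd V :=
  sz_state (zer_length V) (fun i _ => by rw [zer_getD]; exact Nat.zero_le _) hk

theorem sz_Rl {V : Inst} {b c : List ℕ × ℕ} (h : Rl V b c = true) : sz c ≤ wd V := by
  unfold Rl at h
  rw [Bool.or_eq_true, Bool.and_eq_true, Bool.and_eq_true, Bool.and_eq_true, Bool.and_eq_true,
    decide_eq_true_eq, decide_eq_true_eq, decide_eq_true_eq, decide_eq_true_eq,
    decide_eq_true_eq, List.any_eq_true] at h
  obtain ⟨c1, c2⟩ := c
  rcases h with ⟨h6, h7, j, hj, h8⟩ | ⟨h6, h7, h8⟩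
  · rw [Bool.and_eq_true, decide_eq_true_eq] at h8
    simp only at h6 h7 h8
    obtain ⟨h8, rfl⟩ := h8
    refine sz_state (by simp [nx]) (fun i hi => ?_) (by omega)
    rw [nx_getD hi]
    have := okj_iff.1 h8 i hi
    split_ifs <;> omega
  · simp only at h6 h7 h8
    rw [h8, h7]
    exact sz_zer le_rfl

/-! ### Polynomial time -/

variable {α : Type} [TEnc α]

theorem upoly_sz {V : α → Inst} (hV : NPC.Poly V) : UPoly (fun a => sz (V a)) :=
  UPoly.length (l := fun a => bits (V a)) (PIso.poly_bits.comp hV)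

@[fun_prop]
theorem poly_KK {V : α → Inst} (hV : NPC.Poly V) : NPC.Poly (fun a => KK (V a)) :=
  NPC.Poly.npow (NPC.Poly.const 2) (upoly_sz hV)

@[fun_prop]
theorem poly_dur {V : α → Inst} {j : α → ℕ} (hV : NPC.Poly V) (hj : NPC.Poly j) :
    NPC.Poly (fun a => dur (V a) (j a)) := by unfold dur; fun_prop

@[fun_prop]
theorem poly_frq {V : α → Inst} {j : α → ℕ} (hV : NPC.Poly V) (hj : NPC.Poly j) :
    NPC.Poly (fun a => frq (V a) (j a)) := by unfold frq; fun_prop

@[fun_prop]
theorem poly_rng {V : α → Inst} (hV : NPC.Poly V) :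
    NPC.Poly (fun a => List.range (V a).length) := (UPoly.length hV).range

@[fun_prop]
theorem poly_nx {V : α → Inst} {r : α → List ℕ} {j : α → ℕ} (hV : NPC.Poly V) (hr : NPC.Poly r)
    (hj : NPC.Poly j) : NPC.Poly (fun a => nx (V a) (r a) (j a)) := by unfold nx; fun_prop

@[fun_prop]
theorem poly_okj {V : α → Inst} {r : α → List ℕ} {j : α → ℕ} (hV : NPC.Poly V)
    (hr : NPC.Poly r) (hj : NPC.Poly j) : NPC.Poly (fun a => okj (V a) (r a) (j a)) := by
  unfold okj; fun_prop

@[fun_prop]
theorem poly_zer {V : α → Inst} (hV : NPC.Poly V) : NPC.Poly (fun a => zer (V a)) := by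
  unfold zer; fun_prop

theorem poly_Rl : NPC.Poly (fun p : Inst × (List ℕ × ℕ) × (List ℕ × ℕ) =>
    Rl p.1 p.2.1 p.2.2) := by
  unfold Rl; fun_prop

/-- the test of validity -/
def good (V : Inst) : Bool :=
  !(V.isEmpty) && (V.all (fun x => decide (0 < x.1) && decide (0 < x.2)) &&
    V.zipIdx.all (fun p => V.zipIdx.all fun q => !(decide (p.2 < q.2)) || decide (p.1.1 ≤ q.1.1)))

theorem poly_good : NPC.Poly good := by unfold good; fun_prop

theorem good_iff (V : Inst) : good V = true ↔ Valid V := by
  unfold good Valid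
  rw [Bool.and_eq_true, Bool.and_eq_true, List.all_eq_true, List.all_eq_true,
    List.pairwise_iff_getElem]
  refine and_congr (by cases V <;> simp) (and_congr ?_ ?_)
  · refine forall₂_congr fun x _ => ?_
    simp
  · constructor
    · intro h i j hi hj hij
      have h1 := h (V[i], i) (List.mem_zipIdx_iff_getElem?.2 (List.getElem?_eq_getElem hi))
      rw [List.all_eq_true] at h1
      have h2 := h1 (V[j], j) (List.mem_zipIdx_iff_getElem?.2 (List.getElem?_eq_getElem hj))
      simpa [hij] using h2
    · intro h p hp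
      rw [List.all_eq_true]
      intro q hq
      rw [List.mem_zipIdx_iff_getElem?] at hp hq
      obtain ⟨hp1, hp2⟩ := List.getElem?_eq_some_iff.1 hp
      obtain ⟨hq1, hq2⟩ := List.getElem?_eq_some_iff.1 hq
      by_cases h1 : p.2 < q.2
      · have h2 := h p.2 q.2 hp1 hq1 h1
        rw [hp2, hq2] at h2
        simp [h2]
      · simp [h1]

theorem member : Pool.Agent.H623R2.PS.InPSPACE (lang fun V : Inst => Valid V ∧ Feasible V) := by
  have hinit : NPC.Poly (fun x : List Bool => (unbits Inst x).getD []) :=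
    NPC.Poly.optGetD poly_unbits (NPC.Poly.const _)
  have hw : UPoly wd := UPoly.add
    (UPoly.mul (UPoly.length NPC.Poly.id) (UPoly.add (UPoly.mul (UPoly.const 2)
      (upoly_sz NPC.Poly.id)) (UPoly.const 1)))
    (UPoly.add (UPoly.mul (UPoly.const 8) (upoly_sz NPC.Poly.id)) (UPoly.const 12))
  refine Q229.RG.inPSPACE_of_reachG hinit hw poly_good (R := Rl) poly_Rl
    (s := fun V => (zer V, 0)) (t := fun V => (zer V, KK V)) (by fun_prop) (by fun_prop)
    (fun V => sz_zer (Nat.zero_le _)) (fun V => sz_zer le_rfl) (fun V b c h => sz_Rl h) ?_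
  intro x
  rw [mem_lang_iff, good_iff]
  constructor
  · rintro ⟨V, h1, h2, h3⟩
    rw [h1, Option.getD_some]
    exact ⟨h2, (feasible_iff h2).1 h3⟩
  · rintro ⟨h1, h2⟩
    have h3 := (feasible_iff h1).2 h2
    cases hx : unbits Inst x with
    | none =>
      rw [hx] at h1
      exact absurd rfl h1.1
    | some V =>
      rw [hx] at h1 h3
      exact ⟨V, rfl, h1, h3⟩

end Q229.DPM
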