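import Pool.Agent.Q229.DP.Inst
import Pool.Agent.H687R2.IntPoly

set_option autoImplicit false

/-!
# The list of jobs is computable in polynomial time
-/

namespace Q229.DP

open Pool.Agent Pool.Agent.NPC Pool.Agent.NPC.Mix

variable {α : Type} [TEnc α]

@[fun_prop]
theorem poly_nn {N : α → NC} (hN : NPC.Poly N) : NPC.Poly (fun a => nn (N a)) := by
  unfold nn; fun_prop

@[fun_prop]
theorem poly_ww {N : α → NC} (hN : NPC.Poly N) : NPC.Poly (fun a => ww (N a)) := by
  unfold ww; fun_prop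

theorem upoly_nn {N : α → NC} (hN : NPC.Poly N) : UPoly (fun a => nn (N a)) := by
  unfold nn; exact UPoly.length (by fun_prop)

theorem upoly_ww {N : α → NC} (hN : NPC.Poly N) : UPoly (fun a => ww (N a)) := by
  unfold ww; exact UPoly.length (by fun_prop)

@[fun_prop]
theorem poly_Rb {n : α → ℕ} (hn : NPC.Poly n) : NPC.Poly (fun a => Rb (n a)) := by
  unfold Rb; fun_prop

@[fun_prop]
theorem poly_pr {N : α → NC} {j : α → ℕ} (hN : NPC.Poly N) (hj : NPC.Poly j) :
    NPC.Poly (fun a => pr (N a) (j a)) := by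
  unfold pr
  refine NPC.Poly.npow (by fun_prop) ?_
  refine UPoly.of_le (n := fun a => 3 + nn (N a) + ww (N a)) (by fun_prop)
    (UPoly.add (UPoly.add (UPoly.const 3) (upoly_nn hN)) (upoly_ww hN)) fun a => min_le_right _ _

@[fun_prop]
theorem poly_bI {N : α → NC} {x v : α → ℕ} (hN : NPC.Poly N) (hx : NPC.Poly x)
    (hv : NPC.Poly v) : NPC.Poly (fun a => bI (N a) (x a) (v a)) := by
  unfold bI; fun_prop

@[fun_prop]
theorem poly_mkI {u : α → ℕ × ℕ × ℕ} {x v : α → ℕ} (hu : NPC.Poly u) (hx : NPC.Poly x)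
    (hv : NPC.Poly v) : NPC.Poly (fun a => mkI (u a) (x a) (v a)) := by
  unfold mkI; fun_prop

@[fun_prop]
theorem poly_range_nn {N : α → NC} (hN : NPC.Poly N) :
    NPC.Poly (fun a => List.range (nn (N a))) := (upoly_nn hN).range

@[fun_prop]
theorem poly_range_ww {N : α → NC} (hN : NPC.Poly N) :
    NPC.Poly (fun a => List.range (ww (N a))) := (upoly_ww hN).range

@[fun_prop]
theorem poly_items {N : α → NC} {u : α → ℕ × ℕ × ℕ} (hN : NPC.Poly N) (hu : NPC.Poly u) :
    NPC.Poly (fun a => items (N a) (u a)) := by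
  have e : List.range 3 = [0, 1, 2] := rfl
  unfold items
  rw [e]
  fun_prop

@[fun_prop]
theorem poly_geo {N : α → NC} (hN : NPC.Poly N) : NPC.Poly (fun a => geo (N a)) := by
  unfold geo
  have h : NPC.Poly (fun a => List.range (nn (N a) + ww (N a))) :=
    (UPoly.add (upoly_nn hN) (upoly_ww hN)).range
  fun_prop

@[fun_prop]
theorem poly_tot {N : α → NC} {u : α → ℕ × ℕ × ℕ} (hN : NPC.Poly N) (hu : NPC.Poly u) :
    NPC.Poly (fun a => tot (N a) (u a)) := by
  unfold tot; fun_prop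

@[fun_prop]
theorem poly_Zn {N : α → NC} {u : α → ℕ × ℕ × ℕ} (hN : NPC.Poly N) (hu : NPC.Poly u) :
    NPC.Poly (fun a => Zn (N a) (u a)) := by
  unfold Zn; fun_prop

@[fun_prop]
theorem poly_capN {N : α → NC} {u : α → ℕ × ℕ × ℕ} {κ : α → ℕ} (hN : NPC.Poly N)
    (hu : NPC.Poly u) (hκ : NPC.Poly κ) : NPC.Poly (fun a => capN (N a) (u a) (κ a)) := by
  unfold capN; fun_prop

@[fun_prop]
theorem poly_wn {N : α → NC} {u : α → ℕ × ℕ × ℕ} (hN : NPC.Poly N) (hu : NPC.Poly u) :
    NPC.Poly (fun a => wn (N a) (u a)) := by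
  have h : NPC.Poly (fun a => 2 ^ (2 * nn (N a) + 2)) :=
    NPC.Poly.npow (NPC.Poly.const 2)
      (UPoly.add (UPoly.mul (UPoly.const 2) (upoly_nn hN)) (UPoly.const 2))
  unfold wn; fun_prop

@[fun_prop]
theorem poly_fr {N : α → NC} {u : α → ℕ × ℕ × ℕ} {g : α → ℕ} (hN : NPC.Poly N)
    (hu : NPC.Poly u) (hg : NPC.Poly g) : NPC.Poly (fun a => fr (N a) (u a) (g a)) := by
  unfold fr; fun_prop

theorem poly_daps {N : α → NC} {u : α → ℕ × ℕ × ℕ} (hN : NPC.Poly N) (hu : NPC.Poly u) :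
    NPC.Poly (fun a => daps (N a) (u a)) := by
  have h : NPC.Poly (fun a => 2 ^ (2 * nn (N a) + 2)) :=
    NPC.Poly.npow (NPC.Poly.const 2)
      (UPoly.add (UPoly.mul (UPoly.const 2) (upoly_nn hN)) (UPoly.const 2))
  have hr : NPC.Poly (fun a => List.range (2 * nn (N a) + 2)) :=
    (UPoly.add (UPoly.mul (UPoly.const 2) (upoly_nn hN)) (UPoly.const 2)).range
  have hp : NPC.Poly (fun p : α × ℕ => 2 ^ (min p.2 (2 * nn (N p.1) + 2) + 1)) := by
    refine NPC.Poly.npow (NPC.Poly.const 2) (UPoly.add ?_ (UPoly.const 1))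
    exact UPoly.of_le (n := fun p : α × ℕ => 2 * nn (N p.1) + 2) (by fun_prop)
      (UPoly.add (UPoly.mul (UPoly.const 2) (upoly_nn (by fun_prop))) (UPoly.const 2))
      fun a => min_le_right _ _
  have h5 : NPC.Poly (fun a => (List.range (2 * nn (N a) + 2)).map
      (fun j => (fr (N a) (u a) (4 * 2 ^ (j + 1)), 5))) := by
    have h6 : NPC.Poly (fun a => (List.range (2 * nn (N a) + 2)).map
        (fun j => (fr (N a) (u a) (4 * 2 ^ (min j (2 * nn (N a) + 2) + 1)), 5))) := by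
      refine NPC.Poly.map (F := fun a j =>
        (fr (N a) (u a) (4 * 2 ^ (min j (2 * nn (N a) + 2) + 1)), 5)) hr ?_
      fun_prop
    refine h6.congr fun a => ?_
    refine List.map_congr_left fun j hj => ?_
    rw [List.mem_range] at hj
    rw [min_eq_left (by omega)]
  have e : List.range 4 = [0, 1, 2, 3] := rfl
  unfold daps
  rw [e]
  fun_prop

end Q229.DP
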