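import Pool.Agent.H623R2.PS.Savitch
import Pool.Agent.H671R2.PolyAuto
import Pool.Agent.H550R2.Iso.Space

set_option autoImplicit false

/-!
# Reachability between structured states in polynomial space
-/

namespace Q229.RG

open Pool.Agent Pool.Agent.NPC
open Pool.Agent.H623R2.PS (InPSPACE inPSPACE_of_reach poly_replicate)

/-- padding to length `w + 1` -/
def padb (w : ℕ) (l : List Bool) : List Bool := l ++ true :: List.replicate (w - l.length) false

/-- one step of the removal of the padding -/
def ust (b : Bool) (s : Bool × List Bool) : Bool × List Bool :=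
  if s.1 = true then (true, b :: s.2) else (b, [])

/-- removal of the padding -/
def unpadb (u : List Bool) : Bool × List Bool := u.foldr ust (false, [])

theorem padb_length {w : ℕ} {l : List Bool} (h : l.length ≤ w) : (padb w l).length = w + 1 := by
  simp only [padb, List.length_append, List.length_cons, List.length_replicate]
  omega

theorem foldr_false (k : ℕ) : (List.replicate k false).foldr ust (false, []) = (false, []) := by
  induction k with
  | zero => rfl
  | succ k ih =>
    rw [List.replicate_succ, List.foldr_cons, ih]
    rfl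

theorem foldr_true (l l' : List Bool) : l.foldr ust (true, l') = (true, l ++ l') := by
  induction l with
  | nil => rfl
  | cons b l ih =>
    rw [List.foldr_cons, ih]
    rfl

theorem unpadb_padb (w : ℕ) (l : List Bool) : unpadb (padb w l) = (true, l) := by
  unfold unpadb padb
  rw [List.foldr_append, List.foldr_cons, foldr_false]
  show l.foldr ust (true, []) = _
  rw [foldr_true, List.append_nil]

theorem unpadb_false {u : List Bool} (h : (unpadb u).1 = false) :
    u = List.replicate u.length false := by
  induction u with
  | nil => rfl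
  | cons b u ih =>
    have h1 : unpadb (b :: u) = ust b (unpadb u) := rfl
    rw [h1] at h
    unfold ust at h
    split_ifs at h with h2
    have h3 : b = false := h
    rw [h3, List.length_cons, List.replicate_succ, ← ih (by simpa using h2)]

theorem unpadb_spec {u l : List Bool} (h : unpadb u = (true, l)) :
    ∃ k, u = l ++ true :: List.replicate k false := by
  induction u generalizing l with
  | nil => simp [unpadb] at h
  | cons b u ih =>
    have h1 : unpadb (b :: u) = ust b (unpadb u) := rfl
    rw [h1] at h
    unfold ust at h
    split_ifs at h with h2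
    · obtain ⟨k, hk⟩ := ih (l := (unpadb u).2) (by rw [← h2])
      have h3 : l = b :: (unpadb u).2 := (Prod.mk.inj h).2.symm
      exact ⟨k, by rw [h3, List.cons_append, ← hk]⟩
    · obtain ⟨h3, h4⟩ := Prod.mk.inj h
      have h5 := unpadb_false (u := u) (by simpa using h2)
      exact ⟨u.length, by rw [← h4, h3, List.nil_append, ← h5]⟩

theorem eq_padb {w : ℕ} {u l : List Bool} (h : unpadb u = (true, l)) (hu : u.length = w + 1) :
    u = padb w l ∧ l.length ≤ w := by
  obtain ⟨k, hk⟩ := unpadb_spec h
  have h1 := congrArg List.length hk
  simp only [List.length_append, List.length_cons, List.length_replicate] at h1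
  refine ⟨?_, by omega⟩
  rw [hk, padb]
  congr 3
  omega

theorem sz_unpadb (u : List Bool) : sz (unpadb u) ≤ sz u + 4 := by
  have key : ∀ u : List Bool, sz (unpadb u).2 ≤ sz u := by
    intro u
    induction u with
    | nil => exact le_rfl
    | cons b u ih =>
      have h1 : unpadb (b :: u) = ust b (unpadb u) := rfl
      rw [h1]
      unfold ust
      split_ifs
      · simp only [sz_list_cons]; omega
      · simp only [sz_list_nil, sz_list_cons]; omega
  have h1 := key u
  have h2 := sz_bool_le (unpadb u).1
  have h3 : sz (unpadb u) = sz (unpadb u).1 + sz (unpadb u).2 + 1 := sz_pair _ _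
  omega

theorem sz_drop_le' (l : List Bool) (k : ℕ) : sz (l.drop k) ≤ sz l := NPC.Poly.sz_drop_le l k

variable {α : Type} [TEnc α]

@[fun_prop]
theorem poly_unpadb {u : α → List Bool} (hu : NPC.Poly u) : NPC.Poly (fun a => unpadb (u a)) := by
  have h : NPC.Poly unpadb := by
    unfold unpadb
    refine NPC.Poly.foldr (l := fun u : List Bool => u) (s := fun _ => (false, []))
      (F := fun _ b s => ust b s) NPC.Poly.id (NPC.Poly.const _) ?_
      (Polynomial.X + Polynomial.C 4) ?_
    · unfold ust
      fun_prop
    · intro a k _
      have h1 := sz_unpadb (a.drop k)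
      have h2 := sz_drop_le' a k
      simp only [Polynomial.eval_add, Polynomial.eval_X, Polynomial.eval_C]
      exact h1.trans (by omega)
  exact h.comp hu

variable {β : Type} [TEnc β] [TDec β]

/-- the relation on strings -/
def RB (w : ℕ) (R : β → β → Bool) (u v : List Bool) : Bool :=
  decide (v.length = w + 1) && ((unpadb u).1 && ((unpadb v).1 &&
    (unbits β (unpadb u).2).any fun b => (unbits β (unpadb v).2).any fun c => R b c))

theorem RB_iff {w : ℕ} {R : β → β → Bool} {b : β} {v : List Bool} :
    RB w R (padb w (bits b)) v = true ↔ ∃ c, v = padb w (bits c) ∧ sz c ≤ w ∧ R b c = true := by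
  unfold RB
  rw [unpadb_padb, unbits_bits]
  simp only [Bool.true_and, Option.any_some, Bool.and_eq_true, decide_eq_true_eq,
    Option.any_eq_true]
  constructor
  · rintro ⟨h1, h2, c, h3, h4⟩
    have h5 := bits_of_unbits h3
    have h6 : unpadb v = (true, bits c) := by rw [h5, ← h2]
    obtain ⟨h7, h8⟩ := eq_padb h6 h1
    exact ⟨c, h7, h8, h4⟩
  · rintro ⟨c, rfl, h2, h3⟩
    rw [unpadb_padb]
    exact ⟨padb_length h2, rfl, c, unbits_bits c, h3⟩

theorem reach_iff {w : ℕ} {R : β → β → Bool} {s t : β} (hs : sz s ≤ w)
    (hR : ∀ b c, R b c = true → sz c ≤ w) :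
    Relation.ReflTransGen (fun u v => RB w R u v = true) (padb w (bits s)) (padb w (bits t)) ↔
      Relation.ReflTransGen (fun b c => R b c = true) s t := by
  constructor
  · intro h
    have key : ∀ v, Relation.ReflTransGen (fun u v => RB w R u v = true) (padb w (bits s)) v →
        ∃ c, v = padb w (bits c) ∧ Relation.ReflTransGen (fun b c => R b c = true) s c := by
      intro v hv
      induction hv with
      | refl => exact ⟨s, rfl, Relation.ReflTransGen.refl⟩
      | tail _ h2 ih =>
        obtain ⟨c, rfl, h3⟩ := ih
        obtain ⟨d, h4, _, h5⟩ := RB_iff.1 h2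
        exact ⟨d, h4, h3.tail h5⟩
    obtain ⟨c, h1, h2⟩ := key _ h
    have h3 := congrArg unpadb h1
    rw [unpadb_padb, unpadb_padb] at h3
    rw [bits_injective (Prod.mk.inj h3).2]
    exact h2
  · intro h
    induction h with
    | refl => exact Relation.ReflTransGen.refl
    | tail _ h2 ih => exact ih.tail (RB_iff.2 ⟨_, rfl, hR _ _ h2, h2⟩)

/-- Reachability between structured states of polynomial size, for a polynomial-time relation, can
be decided in polynomial space. -/
theorem inPSPACE_of_reachG {L : Set (List Bool)} {init : List Bool → α} (hinit : NPC.Poly init)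
    {w : α → ℕ} (hw : UPoly w) {good : α → Bool} (hgood : NPC.Poly good)
    {R : α → β → β → Bool} (hR : NPC.Poly (fun p : α × β × β => R p.1 p.2.1 p.2.2))
    {s t : α → β} (hs : NPC.Poly s) (ht : NPC.Poly t) (hsw : ∀ a, sz (s a) ≤ w a)
    (htw : ∀ a, sz (t a) ≤ w a) (hRw : ∀ a b c, R a b c = true → sz c ≤ w a)
    (hL : ∀ x, x ∈ L ↔ good (init x) = true ∧
      Relation.ReflTransGen (fun b c => R (init x) b c = true) (s (init x)) (t (init x))) :
    InPSPACE L := by
  have hpad : ∀ {g : α → β}, NPC.Poly g → (∀ a, sz (g a) ≤ w a) →
      NPC.Poly (fun a => padb (w a) (bits (g a))) := by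
    intro g hg hgw
    have h1 : NPC.Poly (fun a => bits (g a)) := PIso.poly_bits.comp hg
    have h2 : UPoly (fun a => w a - (bits (g a)).length) :=
      UPoly.of_le (NPC.Poly.sub hw.toPoly (NPC.Poly.length h1)) hw fun a => Nat.sub_le _ _
    exact NPC.Poly.append h1 (NPC.Poly.cons (NPC.Poly.const _) (poly_replicate h2 false))
  refine inPSPACE_of_reach hinit (w := fun a => w a + 1) (UPoly.add hw (UPoly.const 1)) hgood
    (R := fun a => RB (w a) (R a)) ?_ (s := fun a => padb (w a) (bits (s a)))
    (t := fun a => padb (w a) (bits (t a))) (hpad hs hsw) (hpad ht htw) ?_ ?_ ?_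
  · have hw' := hw.toPoly
    unfold RB
    have hu : NPC.Poly (fun p : α × List Bool × List Bool => unbits β (unpadb p.2.1).2) :=
      poly_unbits.comp (by fun_prop)
    have hv : NPC.Poly (fun p : α × List Bool × List Bool => unbits β (unpadb p.2.2).2) :=
      poly_unbits.comp (by fun_prop)
    have h1 : NPC.Poly (fun p : α × List Bool × List Bool =>
        (unbits β (unpadb p.2.1).2).any fun b => (unbits β (unpadb p.2.2).2).any fun c =>
          R p.1 b c) := by
      refine NPC.Poly.optAny_fp (h := fun p b => (unbits β (unpadb p.2.2).2).any fun c =>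
          R p.1 b c) hu ?_
      refine NPC.Poly.optAny_fp (o := fun q : (α × List Bool × List Bool) × β =>
        unbits β (unpadb q.1.2.2).2) (h := fun q c => R q.1.1 q.2 c) (hv.comp (by fun_prop)) ?_
      exact hR.comp (f := fun q : ((α × List Bool × List Bool) × β) × β =>
        (q.1.1.1, q.1.2, q.2)) (by fun_prop)
    fun_prop
  · intro a
    exact padb_length (hsw a)
  · intro a u v _ h
    unfold RB at h
    rw [Bool.and_eq_true, decide_eq_true_eq] at h
    exact h.1
  · intro x
    rw [hL x, reach_iff (hsw _) (hRw _)]

end Q229.RG
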