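import Pool.Agent.Q229.DP.Bin
import Pool.Agent.Q229.PW.Defs

set_option autoImplicit false

/-!
# Finite families and lists
-/

namespace Q229.DP

open Finset

variable {α : Type}

/-- The list `l` enumerates the family `a`. -/
def MRep {ι : Type} [Fintype ι] (a : ι → α) (l : List α) : Prop :=
  (Finset.univ : Finset ι).val.map a = (l : Multiset α)

theorem mrep_sum {ι κ : Type} [Fintype ι] [Fintype κ] {a : ι ⊕ κ → α} {l l' : List α}
    (h : MRep (fun i => a (Sum.inl i)) l) (h' : MRep (fun j => a (Sum.inr j)) l') :
    MRep a (l ++ l') := by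
  unfold MRep at *
  rw [← Multiset.coe_add, ← h, ← h', ← Finset.univ_disjSum_univ, Finset.val_disjSum,
    Multiset.disjSum, Multiset.map_add, Multiset.map_map, Multiset.map_map]
  rfl

theorem mrep_fin {n : ℕ} (g : ℕ → α) : MRep (fun i : Fin n => g i) ((List.range n).map g) := by
  unfold MRep
  rw [Fin.univ_val_map]
  congr 1
  apply List.ext_getElem
  · simp
  · intro i h1 h2
    simp

theorem mrep_unit (a : Unit → α) : MRep a [a ()] := rfl

theorem mrep_bool (a : Bool → α) : MRep a [a true, a false] := rfl

theorem mrep_option {ι : Type} [Fintype ι] {a : Option ι → α} {l : List α}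
    (h : MRep (fun i => a (some i)) l) : MRep a (a none :: l) := by
  unfold MRep at *
  rw [← Multiset.cons_coe, ← h]
  have h1 : (Finset.univ : Finset (Option ι)).val =
      none ::ₘ (Finset.univ : Finset ι).val.map some := rfl
  rw [h1, Multiset.map_cons, Multiset.map_map]
  rfl

theorem mrep_congr {ι : Type} [Fintype ι] {a b : ι → α} {l : List α} (h : MRep a l)
    (hab : ∀ i, b i = a i) : MRep b l := by
  rw [show b = a from funext hab]
  exact h

theorem mrep_prod {κ : Type} [Fintype κ] {n : ℕ} {a : Fin n × κ → α} {l : ℕ → List α}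
    (h : ∀ x : Fin n, MRep (fun j => a (x, j)) (l x)) :
    MRep a ((List.range n).flatMap l) := by
  unfold MRep at *
  rw [← Finset.univ_product_univ, Finset.product_val]
  show Multiset.map a (Multiset.product _ _) = _
  unfold Multiset.product
  rw [Multiset.map_bind]
  simp only [Multiset.map_map, Function.comp_def]
  rw [Multiset.bind_congr (fun x _ => h x)]
  have h2 : ((List.range n).flatMap l) = (List.ofFn (fun x : Fin n => x.val)).flatMap l := by
    congr 1
    apply List.ext_getElem
    · simp
    · intro i h1 h2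
      simp
  rw [h2, ← Multiset.coe_bind]
  have h3 : ((List.ofFn (fun x : Fin n => x.val) : List ℕ) : Multiset ℕ) =
      (Finset.univ : Finset (Fin n)).val.map (fun x => x.val) := (Fin.univ_val_map _).symm
  rw [h3, Multiset.bind_map]

theorem mrep_sum_eq {ι : Type} [Fintype ι] {a : ι → ℕ} {l : List ℕ} (h : MRep a l) :
    l.sum = ∑ i, a i := by
  unfold MRep at h
  have h1 := congrArg Multiset.sum h
  rw [Multiset.sum_coe] at h1
  exact h1.symm

theorem mrep_map {ι β : Type} [Fintype ι] {a : ι → α} {l : List α} (h : MRep a l) (f : α → β) :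
    MRep (fun i => f (a i)) (l.map f) := by
  unfold MRep at *
  rw [← Multiset.map_coe, ← h, Multiset.map_map]
  rfl

theorem mrep_equiv {ι : Type} [Fintype ι] {a : ι → α} {l : List α} (h : MRep a l) :
    ∃ e : ι ≃ Fin l.length, ∀ i, l.get (e i) = a i := by
  classical
  have h1 : (Finset.univ : Finset ι).val.map a =
      (Finset.univ : Finset (Fin l.length)).val.map l.get := by
    rw [Fin.univ_val_map, List.ofFn_get]
    exact h
  have h2 : ∀ y, Nonempty ({i // a i = y} ≃ {k // l.get k = y}) := by
    intro y
    refine Fintype.card_eq.1 ?_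
    have h3 := congrArg (Multiset.count y) h1
    rw [Multiset.count_map, Multiset.count_map] at h3
    rw [Fintype.card_subtype, Fintype.card_subtype]
    simpa [Finset.card, Finset.filter, eq_comm] using h3
  exact ⟨Equiv.ofFiberEquiv (fun y => (h2 y).some), fun i => Equiv.ofFiberEquiv_map _ i⟩

/-- Feasibility of a list of jobs. -/
theorem feas_list {ι : Type} [Fintype ι] {f p : ι → ℕ} {l : List (ℕ × ℕ)}
    (h : MRep (fun i => (f i, p i)) l) : Q229.PW.Feasible l ↔ FeasJ f p := by
  obtain ⟨e, he⟩ := mrep_equiv h
  have hf : ∀ i, (l.get (e i)).1 = f i := fun i => by rw [he]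
  have hp : ∀ i, (l.get (e i)).2 = p i := fun i => by rw [he]
  constructor
  · rintro ⟨S, hS⟩
    refine ⟨fun t => e.symm (S t), fun i => ⟨?_, ?_⟩⟩
    · intro t
      obtain ⟨s, hs, hs'⟩ := (hS (e i)).1.exists_gt t
      refine ⟨s, le_of_lt hs', ?_⟩
      have h1 : S s = e i := hs
      show e.symm (S s) = i
      rw [h1, Equiv.symm_apply_apply]
    · intro a b hab ha hb hm
      have h1 := (hS (e i)).2 a b hab (by rw [← ha, Equiv.apply_symm_apply])
        (by rw [← hb, Equiv.apply_symm_apply])
        (fun t h1 h2 h3 => hm t h1 h2 (by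
          show e.symm (S t) = i
          rw [h3, Equiv.symm_apply_apply]))
      rw [hf] at h1
      refine le_trans (le_of_eq ?_) h1
      refine Finset.sum_congr rfl fun t _ => ?_
      rw [← hp, Equiv.apply_symm_apply]
  · rintro ⟨S, hS⟩
    refine ⟨fun t => e (S t), fun i => ⟨?_, ?_⟩⟩
    · refine Set.infinite_of_forall_exists_gt fun t => ?_
      obtain ⟨s, hs, hs'⟩ := (hS (e.symm i)).1 (t + 1)
      refine ⟨s, ?_, by omega⟩
      show e (S s) = i
      rw [hs', Equiv.apply_symm_apply]
    · intro a b hab ha hb hm
      have h1 := (hS (e.symm i)).2 a b hab (by rw [← ha, Equiv.symm_apply_apply])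
        (by rw [← hb, Equiv.symm_apply_apply])
        (fun t h1 h2 h3 => hm t h1 h2 (by
          show e (S t) = i
          rw [h3, Equiv.apply_symm_apply]))
      rw [← hf, Equiv.apply_symm_apply] at h1
      refine le_trans (le_of_eq ?_) h1
      exact Finset.sum_congr rfl fun t _ => hp _

end Q229.DP
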