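import Pool.Agent.Q229.DP.Zone

set_option autoImplicit false

/-!
# Packings of the bin instance are sequences of positions
-/

namespace Q229.DP

open Finset Classical

namespace Sys

variable {I : Type} [Fintype I] {Q : Sys I}

section cnt

variable (A : ℕ → Finset (JJ I Q.m))

/-- weight of the items in a bin -/
noncomputable def nI (ζ : ℕ) : ℕ := ∑ i, if Q.jI i ∈ A ζ then Q.β i else 0
/-- marks of the items in a bin -/
noncomputable def mI (ζ : ℕ) : ℕ := ∑ i, if Q.jI i ∈ A ζ then Q.z i else 0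
/-- number of ruler jobs in a bin -/
noncomputable def nC (ζ : ℕ) : ℕ := ∑ j, if Q.jC j ∈ A ζ then 1 else 0
/-- the clock job is in a bin -/
noncomputable def iY (ζ : ℕ) : ℕ := if Q.jY ∈ A ζ then 1 else 0
/-- the rare jobs in a bin -/
noncomputable def iR (b : Bool) (ζ : ℕ) : ℕ := if Q.jR b ∈ A ζ then 1 else 0

end cnt

theorem walls (h : Q.Ok) {A : ℕ → Finset (JJ I Q.m)} (hc : ∀ ζ, ∑ j ∈ A ζ, Q.pJ j ≤ Q.Z)
    {ζ : ℕ} {κ κ' : Fin 4} (h1 : Q.jE κ ∈ A ζ) (h2 : Q.jE κ' ∈ A ζ) : κ = κ' := by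
  by_contra hne
  have h3 : ∑ j ∈ {Q.jE κ, Q.jE κ'}, Q.pJ j ≤ ∑ j ∈ A ζ, Q.pJ j := by
    refine sum_le_sum_of_subset ?_
    intro j hj
    rw [mem_insert, mem_singleton] at hj
    rcases hj with rfl | rfl
    · exact h1
    · exact h2
  rw [sum_pair (by intro he; exact hne (Sum.inl.inj (Sum.inr.inj he)))] at h3
  have h4 := hc ζ
  have h5 := cap_add h (κ := κ.val) (κ' := κ'.val) (fun he => hne (Fin.ext he)) κ.isLt κ'.isLt
  have h6 : Q.pJ (Q.jE κ) = Q.Z - Q.cap κ.val := rfl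
  have h7 : Q.pJ (Q.jE κ') = Q.Z - Q.cap κ'.val := rfl
  omega

theorem exists_ty (h : Q.Ok) {A : ℕ → Finset (JJ I Q.m)}
    (hc : ∀ ζ, ∑ j ∈ A ζ, Q.pJ j ≤ Q.Z) (hg : ∀ j ζ, ∃ i, i < Q.gJ j ∧ j ∈ A (ζ + i)) :
    ∃ ty : ℕ → Fin 4, (∀ ζ, Q.jE (ty ζ) ∈ A ζ) ∧ (∀ ζ, ty (ζ + 4) = ty ζ) ∧
      (∀ ζ i i', i < 4 → i' < 4 → ty (ζ + i) = ty (ζ + i') → i = i') ∧
      ∀ ζ κ, ∃ i, i < 4 ∧ ty (ζ + i) = κ := by
  have he : ∀ ζ κ, ∃ i, i < 4 ∧ Q.jE κ ∈ A (ζ + i) := fun ζ κ => hg (Q.jE κ) ζ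
  choose e he1 he2 using he
  have hinj : ∀ ζ, Function.Injective (fun κ : Fin 4 => (⟨e ζ κ, he1 ζ κ⟩ : Fin 4)) := by
    intro ζ κ κ' hk
    have hk' : e ζ κ = e ζ κ' := congrArg Fin.val hk
    have h1 := he2 ζ κ
    rw [hk'] at h1
    exact walls h hc h1 (he2 ζ κ')
  have hex : ∀ ζ, ∃ κ, Q.jE κ ∈ A ζ := by
    intro ζ
    obtain ⟨κ, hκ⟩ := Finite.injective_iff_surjective.1 (hinj ζ) 0
    have h1 : e ζ κ = 0 := congrArg Fin.val hκ
    have h2 := he2 ζ κ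
    rw [h1] at h2
    exact ⟨κ, h2⟩
  choose ty hty using hex
  have hs : ∀ ζ κ, ∃ i, i < 4 ∧ ty (ζ + i) = κ := fun ζ κ =>
    ⟨e ζ κ, he1 ζ κ, walls h hc (hty _) (he2 ζ κ)⟩
  have hi : ∀ ζ i i', i < 4 → i' < 4 → ty (ζ + i) = ty (ζ + i') → i = i' := by
    intro ζ i i' h1 h2 h3
    have hsur : Function.Surjective (fun i : Fin 4 => ty (ζ + i.val)) := by
      intro κ
      obtain ⟨i, hi, hi'⟩ := hs ζ κ
      exact ⟨⟨i, hi⟩, hi'⟩
    have := Finite.injective_iff_surjective.2 hsur (a₁ := ⟨i, h1⟩) (a₂ := ⟨i', h2⟩) h3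
    exact congrArg Fin.val this
  refine ⟨ty, hty, ?_, hi, hs⟩
  intro ζ
  obtain ⟨i, h1, h2⟩ := hs (ζ + 1) (ty ζ)
  rcases Nat.lt_or_ge i 3 with h3 | h3
  · have := hi ζ (i + 1) 0 (by omega) (by omega) (by
      rw [show ζ + (i + 1) = ζ + 1 + i by omega, h2, add_zero])
    omega
  · rw [show ζ + 4 = ζ + 1 + i by omega, h2]

theorem zone_le (h : Q.Ok) {A : ℕ → Finset (JJ I Q.m)}
    (hc : ∀ ζ, ∑ j ∈ A ζ, Q.pJ j ≤ Q.Z) {ty : ℕ → Fin 4} (hty : ∀ ζ, Q.jE (ty ζ) ∈ A ζ)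
    (ζ : ℕ) : 9 * iY A ζ + (32 * nI A ζ + mI A ζ) + 5 * nC A ζ + 8 * iR A true ζ +
      4 * iR A false ζ ≤ Q.cap (ty ζ).val := by
  have h1 := hc ζ
  rw [sum_split] at h1
  have h2 : Q.Z - Q.cap (ty ζ).val ≤
      ∑ κ : Fin 4, if Q.jE κ ∈ A ζ then Q.Z - Q.cap κ.val else 0 := by
    refine le_trans ?_ (Finset.single_le_sum (fun _ _ => Nat.zero_le _) (mem_univ (ty ζ)))
    rw [if_pos (hty ζ)]
  have h3 : ∑ i, (if Q.jI i ∈ A ζ then 32 * Q.β i + Q.z i else 0) = 32 * nI A ζ + mI A ζ := by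
    unfold nI mI
    rw [mul_sum, ← sum_add_distrib]
    refine sum_congr rfl fun i _ => ?_
    split_ifs <;> simp
  have h4 : ∑ j, (if Q.jC j ∈ A ζ then 5 else 0) = 5 * nC A ζ := by
    unfold nC
    rw [mul_sum]
    refine sum_congr rfl fun i _ => ?_
    split_ifs <;> simp
  rw [h3, h4] at h1
  have h5 := cap_le h (ty ζ).val
  have h6 : (if Q.jY ∈ A ζ then 9 else 0) = 9 * iY A ζ := by
    unfold iY; split_ifs <;> rfl
  have h7 : (if Q.jR true ∈ A ζ then 8 else 0) = 8 * iR A true ζ := by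
    unfold iR; split_ifs <;> rfl
  have h8 : (if Q.jR false ∈ A ζ then 4 else 0) = 4 * iR A false ζ := by
    unfold iR; split_ifs <;> rfl
  rw [h6, h7, h8] at h1
  omega

theorem no_item (h : Q.Ok) {A : ℕ → Finset (JJ I Q.m)}
    (hc : ∀ ζ, ∑ j ∈ A ζ, Q.pJ j ≤ Q.Z) {ty : ℕ → Fin 4} (hty : ∀ ζ, Q.jE (ty ζ) ∈ A ζ)
    {ζ : ℕ} (h3 : ty ζ = 3) (i : I) : Q.jI i ∉ A ζ := by
  intro hi
  have h1 := zone_le h hc hty ζ
  rw [h3] at h1
  have h2 : Q.cap ((3 : Fin 4)).val = 9 := rfl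
  rw [h2] at h1
  have h4 : Q.β i ≤ nI A ζ := by
    unfold nI
    refine le_trans ?_ (Finset.single_le_sum (fun _ _ => Nat.zero_le _) (mem_univ i))
    rw [if_pos hi]
  have h5 := h.pos i
  omega

/-- blocks: a property that holds at least once in any `b` consecutive numbers -/
theorem le_card_blocks (P : ℕ → Prop) [DecidablePred P] {b : ℕ} (hP : ∀ τ, ∃ i, i < b ∧ P (τ + i)) (s n : ℕ) :
    n ≤ ∑ τ ∈ range (n * b), if P (s + τ) then 1 else 0 := by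
  induction n with
  | zero => simp
  | succ n ih =>
    rw [Nat.succ_mul, sum_range_add]
    have h1 : 1 ≤ ∑ τ ∈ range b, if P (s + (n * b + τ)) then 1 else 0 := by
      obtain ⟨i, hi, hi'⟩ := hP (s + n * b)
      have h2 : (1 : ℕ) ≤ if P (s + (n * b + i)) then 1 else 0 := by
        rw [if_pos (by rw [← add_assoc]; exact hi')]
      exact le_trans h2 (Finset.single_le_sum
        (f := fun τ => if P (s + (n * b + τ)) then 1 else 0) (fun _ _ => Nat.zero_le _)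
        (mem_range.2 hi))
    omega

theorem sum_ruler (m : ℕ) : ∑ j : Fin m, 2 ^ (m - (j.val + 1)) = 2 ^ m - 1 := by
  rw [Fin.sum_univ_eq_sum_range (fun j => 2 ^ (m - (j + 1)))]
  have h1 : ∑ j ∈ range m, 2 ^ (m - (j + 1)) = ∑ j ∈ range m, 2 ^ j := by
    rw [← Finset.sum_range_reflect]
    refine sum_congr rfl fun j hj => ?_
    rw [mem_range] at hj
    congr 1
    omega
  rw [h1]
  induction m with
  | zero => rfl
  | succ m ih =>
    rw [sum_range_succ, ih]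
    · have := Nat.one_le_two_pow (n := m)
      rw [pow_succ]
      omega
    · rw [← Finset.sum_range_reflect]
      refine sum_congr rfl fun j hj => ?_
      rw [mem_range] at hj
      congr 1
      omega

end Sys

end Q229.DP
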