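import Pool.Agent.Q229.DP.Sound

set_option autoImplicit false

/-!
# Packings of the bin instance are sequences of positions, main statement
-/

namespace Q229.DP

open Finset Classical

namespace Sys

variable {I : Type} [Fintype I] {Q : Sys I}

/-- the marks that fit into a bin of kind `κ` -/
def mu (κ : ℕ) : ℕ := if κ = 0 then 8 else if κ = 1 then 10 else 4

omit [Fintype I] in
theorem cap_eq {κ : ℕ} (hκ : κ < 3) : Q.cap κ = 32 * Q.bc κ + mu κ := by
  unfold cap bc mu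
  interval_cases κ <;> simp

theorem mu_lt (κ : ℕ) : mu κ < 32 := by
  unfold mu; split_ifs <;> norm_num

omit [Fintype I] in
theorem bc_sum {a b c : Fin 4} (ha : a ≠ 3) (hb : b ≠ 3) (hc : c ≠ 3) (hab : a ≠ b) (hac : a ≠ c)
    (hbc : b ≠ c) : Q.bc a.val + Q.bc b.val + Q.bc c.val = Q.bS + Q.bX + Q.bH := by
  obtain ⟨a, h1⟩ := a
  obtain ⟨b, h2⟩ := b
  obtain ⟨c, h3⟩ := c
  have e3 : ((3 : Fin 4)).val = 3 := rfl
  simp only [ne_eq, Fin.ext_iff, e3] at *
  unfold bc
  interval_cases a <;> interval_cases b <;> interval_cases c <;> simp_all <;> omega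

theorem sound (h : Q.Ok) (hb : BinJ Q.Z Q.gJ Q.pJ) : ∃ pos : ℕ → I → ℕ,
    (∀ τ i, pos τ i < 3) ∧
    (∀ τ κ, κ < 3 → ∑ i, (if pos τ i = κ then Q.β i else 0) = Q.bc κ) ∧
    ((∀ τ i, ¬ (pos τ i = 0 ∧ pos (τ + 1) i = 2)) ∨
      (∀ τ i, ¬ (pos τ i = 2 ∧ pos (τ + 1) i = 0))) ∧
    (∃ τ, ∀ i, pos τ i = 2 → Q.z i = 0) ∧ (∃ τ, ∀ i, pos τ i = 0 → Q.z i = 0) := by
  obtain ⟨A, hc, hg⟩ := hb
  obtain ⟨ty, hty, hper, hinj, hsur⟩ := exists_ty h hc hg
  obtain ⟨t0, _, ht0⟩ := hsur 0 3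
  rw [zero_add] at ht0
  have hp : ∀ τ a, ty (t0 + 4 * τ + a) = ty (t0 + a) := by
    intro τ a
    induction τ with
    | zero => rfl
    | succ τ ih => rw [← ih, ← hper (t0 + 4 * τ + a)]; congr 1; ring
  have hT : ∀ τ, ty (t0 + 4 * τ) = 3 := by
    intro τ
    have := hp τ 0
    rw [add_zero, add_zero, ht0] at this
    exact this
  have hne3 : ∀ a, 1 ≤ a → a ≤ 3 → ty (t0 + a) ≠ 3 := by
    intro a h1 h2 h3
    have := hinj t0 a 0 (by omega) (by omega) (by rw [h3, add_zero, ht0])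
    omega
  have hlt3 : ∀ a, 1 ≤ a → a ≤ 3 → (ty (t0 + a)).val < 3 := by
    intro a h1 h2
    have h3 := hne3 a h1 h2
    have h4 := (ty (t0 + a)).isLt
    have h5 : (ty (t0 + a)).val ≠ 3 := fun he => h3 (Fin.ext he)
    omega
  have hitem : ∀ τ i, ∃ a, 1 ≤ a ∧ a ≤ 3 ∧ Q.jI i ∈ A (t0 + 4 * τ + a) := by
    intro τ i
    obtain ⟨a, ha, ha'⟩ := hg (Q.jI i) (t0 + 4 * τ)
    have ha5 : a < 5 := ha
    have h0 : a ≠ 0 := by
      rintro rfl
      exact no_item h hc hty (hT τ) i ha'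
    have h4 : a ≠ 4 := by
      rintro rfl
      refine no_item h hc hty (hT (τ + 1)) i ?_
      rw [show t0 + 4 * (τ + 1) = t0 + 4 * τ + 4 by ring]
      exact ha'
    exact ⟨a, by omega, by omega, ha'⟩
  -- weights
  have hz : ∀ τ a, 1 ≤ a → a ≤ 3 → 9 * iY A (t0 + 4 * τ + a) +
      (32 * nI A (t0 + 4 * τ + a) + mI A (t0 + 4 * τ + a)) + 5 * nC A (t0 + 4 * τ + a) +
      8 * iR A true (t0 + 4 * τ + a) + 4 * iR A false (t0 + 4 * τ + a) ≤
      32 * Q.bc (ty (t0 + a)).val + mu (ty (t0 + a)).val := by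
    intro τ a h1 h2
    have h3 := zone_le h hc hty (t0 + 4 * τ + a)
    rw [hp, cap_eq (hlt3 a h1 h2)] at h3
    exact h3
  have hn : ∀ τ a, 1 ≤ a → a ≤ 3 → nI A (t0 + 4 * τ + a) ≤ Q.bc (ty (t0 + a)).val := by
    intro τ a h1 h2
    have h3 := hz τ a h1 h2
    have h4 := mu_lt (ty (t0 + a)).val
    omega
  have htot : Q.bc (ty (t0 + 1)).val + Q.bc (ty (t0 + 2)).val + Q.bc (ty (t0 + 3)).val =
      ∑ i, Q.β i := by
    rw [h.tot]
    refine bc_sum (hne3 1 le_rfl (by norm_num)) (hne3 2 (by norm_num) (by norm_num))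
      (hne3 3 (by norm_num) le_rfl) ?_ ?_ ?_
    · intro he
      have := hinj t0 1 2 (by norm_num) (by norm_num) he
      omega
    · intro he
      have := hinj t0 1 3 (by norm_num) (by norm_num) he
      omega
    · intro he
      have := hinj t0 2 3 (by norm_num) (by norm_num) he
      omega
  let c : ℕ → ℕ → I → ℕ := fun τ a i => if Q.jI i ∈ A (t0 + 4 * τ + a) then 1 else 0
  have hcn : ∀ τ a, ∑ i, c τ a i * Q.β i = nI A (t0 + 4 * τ + a) := by
    intro τ a
    unfold nI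
    refine sum_congr rfl fun i _ => ?_
    simp only [c]
    split_ifs <;> simp
  have hc1 : ∀ τ i, 1 ≤ c τ 1 i + c τ 2 i + c τ 3 i := by
    intro τ i
    obtain ⟨a, h1, h2, h3⟩ := hitem τ i
    have h4 : c τ a i = 1 := if_pos h3
    interval_cases a <;> omega
  have hle : ∀ τ, ∑ i, (c τ 1 i + c τ 2 i + c τ 3 i) * Q.β i ≤ ∑ i, Q.β i := by
    intro τ
    have h1 : ∑ i, (c τ 1 i + c τ 2 i + c τ 3 i) * Q.β i = nI A (t0 + 4 * τ + 1) +
        nI A (t0 + 4 * τ + 2) + nI A (t0 + 4 * τ + 3) := by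
      rw [← hcn, ← hcn, ← hcn, ← sum_add_distrib, ← sum_add_distrib]
      refine sum_congr rfl fun i _ => ?_
      ring
    rw [h1, ← htot]
    have h2 := hn τ 1 le_rfl (by norm_num)
    have h3 := hn τ 2 (by norm_num) (by norm_num)
    have h4 := hn τ 3 (by norm_num) le_rfl
    omega
  have hge : ∀ τ, ∀ i ∈ (univ : Finset I), Q.β i ≤ (c τ 1 i + c τ 2 i + c τ 3 i) * Q.β i := by
    intro τ i _
    exact Nat.le_mul_of_pos_left _ (hc1 τ i)
  have heq : ∀ τ, ∑ i, Q.β i = ∑ i, (c τ 1 i + c τ 2 i + c τ 3 i) * Q.β i := fun τ =>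
    le_antisymm (sum_le_sum (hge τ)) (hle τ)
  have hone : ∀ τ i, c τ 1 i + c τ 2 i + c τ 3 i = 1 := by
    intro τ i
    have h1 := (Finset.sum_eq_sum_iff_of_le (hge τ)).1 (heq τ) i (mem_univ i)
    have h2 := h.pos i
    have h3 : (c τ 1 i + c τ 2 i + c τ 3 i) * Q.β i = 1 * Q.β i := by rw [← h1, one_mul]
    exact Nat.eq_of_mul_eq_mul_right (by omega) h3
  have hneq : ∀ τ a, 1 ≤ a → a ≤ 3 → nI A (t0 + 4 * τ + a) = Q.bc (ty (t0 + a)).val := by
    intro τ a h1 h2
    have h5 : ∑ i, (c τ 1 i + c τ 2 i + c τ 3 i) * Q.β i = nI A (t0 + 4 * τ + 1) +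
        nI A (t0 + 4 * τ + 2) + nI A (t0 + 4 * τ + 3) := by
      rw [← hcn, ← hcn, ← hcn, ← sum_add_distrib, ← sum_add_distrib]
      refine sum_congr rfl fun i _ => ?_
      ring
    rw [← heq τ, ← htot] at h5
    have h2' := hn τ 1 le_rfl (by norm_num)
    have h3' := hn τ 2 (by norm_num) (by norm_num)
    have h4' := hn τ 3 (by norm_num) le_rfl
    interval_cases a <;> omega
  -- unique offsets
  have hoff : ∀ τ i, ∃ a, 1 ≤ a ∧ a ≤ 3 ∧ Q.jI i ∈ A (t0 + 4 * τ + a) ∧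
      ∀ b, 1 ≤ b → b ≤ 3 → Q.jI i ∈ A (t0 + 4 * τ + b) → b = a := by
    intro τ i
    obtain ⟨a, h1, h2, h3⟩ := hitem τ i
    refine ⟨a, h1, h2, h3, ?_⟩
    intro b h4 h5 h6
    by_contra hne
    have h7 : c τ a i = 1 := if_pos h3
    have h8 : c τ b i = 1 := if_pos h6
    have h9 := hone τ i
    interval_cases a <;> interval_cases b <;> first | omega | exact hne rfl
  choose off hoff1 hoff2 hoff3 hoff4 using hoff
  have hofz : ∀ τ i a, 1 ≤ a → a ≤ 3 → (Q.jI i ∈ A (t0 + 4 * τ + a) ↔ off τ i = a) := by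
    intro τ i a h1 h2
    constructor
    · intro h3; exact (hoff4 τ i a h1 h2 h3).symm
    · intro h3; rw [← h3]; exact hoff3 τ i
  have hposk : ∀ τ i a, 1 ≤ a → a ≤ 3 → ((ty (t0 + off τ i)).val = (ty (t0 + a)).val ↔
      off τ i = a) := by
    intro τ i a h1 h2
    constructor
    · intro h3
      exact hinj t0 _ _ (by have := hoff2 τ i; omega) (by omega) (Fin.ext h3)
    · intro h3; rw [h3]
  -- marks
  have hm : ∀ τ a, 1 ≤ a → a ≤ 3 → 9 * iY A (t0 + 4 * τ + a) + mI A (t0 + 4 * τ + a) +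
      5 * nC A (t0 + 4 * τ + a) + 8 * iR A true (t0 + 4 * τ + a) +
      4 * iR A false (t0 + 4 * τ + a) ≤ mu (ty (t0 + a)).val := by
    intro τ a h1 h2
    have h3 := hz τ a h1 h2
    rw [hneq τ a h1 h2] at h3
    omega
  have hiY : ∀ ζ, Q.jY ∈ A ζ → iY A ζ = 1 := fun ζ hζ => if_pos hζ
  have hYk : ∀ τ a, 1 ≤ a → a ≤ 3 → Q.jY ∈ A (t0 + 4 * τ + a) → (ty (t0 + a)).val = 1 := by
    intro τ a h1 h2 h3
    have h4 := hm τ a h1 h2
    rw [hiY _ h3] at h4
    by_contra hne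
    have h5 : mu (ty (t0 + a)).val ≤ 8 := by
      unfold mu; split_ifs <;> omega
    omega
  have hY2 : ∀ ζ, Q.jY ∈ A ζ ∨ Q.jY ∈ A (ζ + 1) := by
    intro ζ
    obtain ⟨i, hi, hi'⟩ := hg Q.jY ζ
    have hi2 : i < 2 := hi
    interval_cases i
    · exact Or.inl hi'
    · exact Or.inr hi'
  have hk2 : (ty (t0 + 2)).val = 1 := by
    rcases hY2 (t0 + 4 * 0 + 2) with h1 | h1
    · exact hYk 0 2 (by norm_num) (by norm_num) h1
    · have h2 := hYk 0 3 (by norm_num) (by norm_num) h1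
      rcases hY2 (t0 + 4 * 0 + 1) with h3 | h3
      · have h4 := hYk 0 1 (by norm_num) (by norm_num) h3
        have := hinj t0 1 3 (by norm_num) (by norm_num) (Fin.ext (by rw [h4, h2]))
        omega
      · exact hYk 0 2 (by norm_num) (by norm_num) h3
  have hk13 : ((ty (t0 + 1)).val = 0 ∧ (ty (t0 + 3)).val = 2) ∨
      ((ty (t0 + 1)).val = 2 ∧ (ty (t0 + 3)).val = 0) := by
    have h1 := hlt3 1 le_rfl (by norm_num)
    have h2 := hlt3 3 (by norm_num) le_rfl
    have h3 : (ty (t0 + 1)).val ≠ 1 := by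
      intro he
      have := hinj t0 1 2 (by norm_num) (by norm_num) (Fin.ext (by rw [he, hk2]))
      omega
    have h4 : (ty (t0 + 3)).val ≠ 1 := by
      intro he
      have := hinj t0 3 2 (by norm_num) (by norm_num) (Fin.ext (by rw [he, hk2]))
      omega
    have h5 : (ty (t0 + 1)).val ≠ (ty (t0 + 3)).val := by
      intro he
      have := hinj t0 1 3 (by norm_num) (by norm_num) (Fin.ext he)
      omega
    omega
  have hYX : ∀ τ, Q.jY ∈ A (t0 + 4 * τ + 2) := by
    intro τ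
    rcases hY2 (t0 + 4 * τ + 1) with h1 | h1
    · have := hYk τ 1 (by norm_num) (by norm_num) h1
      omega
    · exact h1
  have hYT : ∀ τ, Q.jY ∈ A (t0 + 4 * τ) := by
    intro τ
    rcases hY2 (t0 + 4 * τ) with h1 | h1
    · exact h1
    · have := hYk τ 1 (by norm_num) (by norm_num) h1
      omega
  have hTz : ∀ τ, nC A (t0 + 4 * τ) = 0 ∧ iR A true (t0 + 4 * τ) = 0 ∧
      iR A false (t0 + 4 * τ) = 0 := by
    intro τ
    have h1 := zone_le h hc hty (t0 + 4 * τ)
    rw [hT τ, hiY _ (hYT τ)] at h1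
    have h2 : Q.cap ((3 : Fin 4)).val = 9 := rfl
    rw [h2] at h1
    omega
  have hXz : ∀ τ, nC A (t0 + 4 * τ + 2) = 0 ∧ iR A true (t0 + 4 * τ + 2) = 0 ∧
      iR A false (t0 + 4 * τ + 2) = 0 := by
    intro τ
    have h1 := hm τ 2 (by norm_num) (by norm_num)
    rw [hk2, hiY _ (hYX τ)] at h1
    have h2 : mu 1 = 10 := rfl
    rw [h2] at h1
    omega
  have hmS : ∀ τ a, 1 ≤ a → a ≤ 3 → (ty (t0 + a)).val = 0 → mI A (t0 + 4 * τ + a) +
      5 * nC A (t0 + 4 * τ + a) + 8 * iR A true (t0 + 4 * τ + a) +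
      4 * iR A false (t0 + 4 * τ + a) ≤ 8 := by
    intro τ a h1 h2 h3
    have h4 := hm τ a h1 h2
    rw [h3] at h4
    have h5 : mu 0 = 8 := rfl
    rw [h5] at h4
    omega
  have hmH : ∀ τ a, 1 ≤ a → a ≤ 3 → (ty (t0 + a)).val = 2 → mI A (t0 + 4 * τ + a) +
      5 * nC A (t0 + 4 * τ + a) + 8 * iR A true (t0 + 4 * τ + a) +
      4 * iR A false (t0 + 4 * τ + a) ≤ 4 := by
    intro τ a h1 h2 h3
    have h4 := hm τ a h1 h2
    rw [h3] at h4
    have h5 : mu 2 = 4 := rfl
    rw [h5] at h4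
    omega
  have hnC1 : ∀ ζ j, Q.jC j ∈ A ζ → 1 ≤ nC A ζ := by
    intro ζ j hj
    unfold nC
    refine le_trans ?_ (Finset.single_le_sum (fun _ _ => Nat.zero_le _) (mem_univ j))
    rw [if_pos hj]
  have hiR1 : ∀ b ζ, Q.jR b ∈ A ζ → iR A b ζ = 1 := fun b ζ hζ => if_pos hζ
  have hiRle : ∀ b ζ, iR A b ζ ≤ 1 := by
    intro b ζ; unfold iR; split_ifs <;> omega
  -- the kind of the bins of ruler jobs and of the rare jobs
  have hSk : ∀ e, (1 ≤ nC A (t0 + e) ∨ 1 ≤ iR A true (t0 + e)) →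
      1 ≤ e % 4 ∧ (ty (t0 + e % 4)).val = 0 := by
    intro e he
    have h1 : t0 + e = t0 + 4 * (e / 4) + e % 4 := by omega
    rw [h1] at he
    have h2 : e % 4 < 4 := Nat.mod_lt _ (by norm_num)
    generalize e % 4 = a at *
    generalize e / 4 = τ at *
    have h3 := hTz τ
    have h4 := hXz τ
    have h5 := hmH τ
    interval_cases a
    · rw [add_zero] at he
      omega
    · refine ⟨le_rfl, ?_⟩
      have h6 := h5 1 le_rfl (by norm_num)
      by_contra h7
      have h8 := h6 (by omega)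
      omega
    · omega
    · refine ⟨by norm_num, ?_⟩
      have h6 := h5 3 (by norm_num) le_rfl
      by_contra h7
      have h8 := h6 (by omega)
      omega
  have hmz : ∀ ζ i, Q.jI i ∈ A ζ → Q.z i ≤ mI A ζ := by
    intro ζ i hi
    unfold mI
    refine le_trans ?_ (Finset.single_le_sum (fun _ _ => Nat.zero_le _) (mem_univ i))
    rw [if_pos hi]
  refine ⟨fun τ i => (ty (t0 + off τ i)).val, ?_, ?_, ?_, ?_, ?_⟩
  · intro τ i
    exact hlt3 _ (hoff1 τ i) (hoff2 τ i)
  · intro τ κ hκ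
    obtain ⟨a, ha, ha'⟩ := hsur t0 ⟨κ, by omega⟩
    have h0 : a ≠ 0 := by
      rintro rfl
      rw [add_zero, ht0] at ha'
      have := congrArg Fin.val ha'
      have h3 : ((3 : Fin 4)).val = 3 := rfl
      rw [h3] at this
      simp only at this
      omega
    have hka : κ = (ty (t0 + a)).val := by rw [ha']
    rw [hka, ← hneq τ a (by omega) (by omega)]
    unfold nI
    refine sum_congr rfl fun i _ => ?_
    have h1 := hposk τ i a (by omega) (by omega)
    have h2 := hofz τ i a (by omega) (by omega)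
    by_cases h3 : off τ i = a
    · rw [if_pos (h1.2 h3), if_pos (h2.2 h3)]
    · rw [if_neg (fun h4 => h3 (h1.1 h4)), if_neg (fun h4 => h3 (h2.1 h4))]
  · have key : ∀ τ i, ¬ (off τ i = 1 ∧ off (τ + 1) i = 3) := by
      rintro τ i ⟨h1, h2⟩
      obtain ⟨e, he, he'⟩ := hg (Q.jI i) (t0 + 4 * τ + 2)
      have he5 : e < 5 := he
      interval_cases e
      · have := (hofz τ i 2 (by norm_num) (by norm_num)).1 he'
        omega
      · have := (hofz τ i 3 (by norm_num) (by norm_num)).1 he'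
        omega
      · refine no_item h hc hty (hT (τ + 1)) i ?_
        rw [show t0 + 4 * (τ + 1) = t0 + 4 * τ + 2 + 2 by ring]
        exact he'
      · have := (hofz (τ + 1) i 1 (by norm_num) (by norm_num)).1 (by
          rw [show t0 + 4 * (τ + 1) + 1 = t0 + 4 * τ + 2 + 3 by ring]
          exact he')
        omega
      · have := (hofz (τ + 1) i 2 (by norm_num) (by norm_num)).1 (by
          rw [show t0 + 4 * (τ + 1) + 2 = t0 + 4 * τ + 2 + 4 by ring]
          exact he')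
        omega
    rcases hk13 with ⟨h1, h3⟩ | ⟨h1, h3⟩
    · left
      rintro τ i ⟨h4, h5⟩
      rw [← h1] at h4
      rw [← h3] at h5
      exact key τ i ⟨(hposk τ i 1 (by norm_num) (by norm_num)).1 h4,
        (hposk (τ + 1) i 3 (by norm_num) (by norm_num)).1 h5⟩
    · right
      rintro τ i ⟨h4, h5⟩
      rw [← h1] at h4
      rw [← h3] at h5
      exact key τ i ⟨(hposk τ i 1 (by norm_num) (by norm_num)).1 h4,
        (hposk (τ + 1) i 3 (by norm_num) (by norm_num)).1 h5⟩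
  · -- the rare job of size four
    obtain ⟨e, -, he⟩ := hg (Q.jR false) t0
    have h1 : t0 + e = t0 + 4 * (e / 4) + e % 4 := by omega
    rw [h1] at he
    have h2 : e % 4 < 4 := Nat.mod_lt _ (by norm_num)
    generalize e % 4 = a at *
    generalize e / 4 = τ at *
    have h3 := hiR1 _ _ he
    have ha0 : a ≠ 0 := by
      rintro rfl
      have h4 := hTz τ
      rw [add_zero] at h3
      omega
    have ha2 : a ≠ 2 := by
      rintro rfl
      have h4 := hXz τ
      omega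
    have ha : 1 ≤ a ∧ a ≤ 3 := by omega
    have hk : (ty (t0 + a)).val = 0 ∨ (ty (t0 + a)).val = 2 := by
      have : a = 1 ∨ a = 3 := by omega
      rcases this with rfl | rfl
      · omega
      · omega
    rcases hk with hk | hk
    · -- counting
      exfalso
      have hP : ∀ (J : JJ I Q.m) (b : ℕ), Q.gJ J = 4 * b →
          (∀ e, J ∈ A (t0 + e) → 1 ≤ e % 4 ∧ (ty (t0 + e % 4)).val = 0) →
          ∀ τ', ∃ i, i < b ∧ J ∈ A (t0 + 4 * (τ' + i) + a) := by
        intro J b hJ hJ' τ'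
        obtain ⟨i', hi', hi''⟩ := hg J (t0 + 4 * τ' + 1)
        rw [hJ] at hi'
        rw [show t0 + 4 * τ' + 1 + i' = t0 + (4 * τ' + 1 + i') by ring] at hi''
        obtain ⟨h4, h5⟩ := hJ' _ hi''
        have h6 : (4 * τ' + 1 + i') % 4 = a := by
          refine hinj t0 _ _ (Nat.mod_lt _ (by norm_num)) (by omega) (Fin.ext ?_)
          rw [h5, hk]
        refine ⟨(1 + i') / 4, by omega, ?_⟩
        rw [show t0 + 4 * (τ' + (1 + i') / 4) + a = t0 + (4 * τ' + 1 + i') by omega]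
        exact hi''
      have hsum : ∀ n, ∑ s ∈ range n, (nC A (t0 + 4 * (τ + s) + a) +
          iR A true (t0 + 4 * (τ + s) + a) + iR A false (t0 + 4 * (τ + s) + a)) ≤ n := by
        intro n
        calc _ ≤ ∑ s ∈ range n, 1 := by
              refine sum_le_sum fun s _ => ?_
              have h4 := hmS (τ + s) a ha.1 ha.2 hk
              have h5 := hiRle true (t0 + 4 * (τ + s) + a)
              have h6 := hiRle false (t0 + 4 * (τ + s) + a)
              omega
          _ = n := by simp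
      have h4 := hsum (2 ^ Q.m)
      rw [sum_add_distrib, sum_add_distrib] at h4
      have h5 : 2 ^ Q.m - 1 ≤ ∑ s ∈ range (2 ^ Q.m), nC A (t0 + 4 * (τ + s) + a) := by
        unfold nC
        rw [sum_comm, ← sum_ruler]
        refine sum_le_sum fun j _ => ?_
        have h6 := le_card_blocks (fun τ' => Q.jC j ∈ A (t0 + 4 * τ' + a))
          (b := 2 ^ (j.val + 1)) (hP (Q.jC j) _ rfl
            (fun e he => hSk e (Or.inl (hnC1 _ _ he)))) τ (2 ^ (Q.m - (j.val + 1)))
        rw [← pow_add, show Q.m - (j.val + 1) + (j.val + 1) = Q.m by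
          have := j.isLt; omega] at h6
        exact h6
      have h6 : 1 ≤ ∑ s ∈ range (2 ^ Q.m), iR A true (t0 + 4 * (τ + s) + a) := by
        have h7 := le_card_blocks (fun τ' => Q.jR true ∈ A (t0 + 4 * τ' + a))
          (b := 2 ^ Q.m) (hP (Q.jR true) _ rfl
            (fun e he => hSk e (Or.inr (by rw [hiR1 _ _ he])))) τ 1
        rw [one_mul] at h7
        exact h7
      have h7 : 1 ≤ ∑ s ∈ range (2 ^ Q.m), iR A false (t0 + 4 * (τ + s) + a) := by
        have h8 : (1 : ℕ) ≤ iR A false (t0 + 4 * (τ + 0) + a) := by rw [add_zero, h3]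
        refine le_trans h8 (Finset.single_le_sum (f := fun s => iR A false
          (t0 + 4 * (τ + s) + a)) (fun _ _ => Nat.zero_le _) (mem_range.2 (by positivity)))
      have h8 := Nat.one_le_two_pow (n := Q.m)
      omega
    · refine ⟨τ, fun i hi => ?_⟩
      have h4 := hmH τ a ha.1 ha.2 hk
      rw [h3] at h4
      have h5 : Q.jI i ∈ A (t0 + 4 * τ + a) := by
        rw [hofz τ i a ha.1 ha.2]
        refine (hposk τ i a ha.1 ha.2).1 ?_
        rw [hk]
        exact hi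
      have h6 := hmz _ _ h5
      omega
  · obtain ⟨e, -, he⟩ := hg (Q.jR true) t0
    obtain ⟨h0, hk⟩ := hSk e (Or.inr (by rw [hiR1 _ _ he]))
    have h1 : t0 + e = t0 + 4 * (e / 4) + e % 4 := by omega
    rw [h1] at he
    have h2 : e % 4 < 4 := Nat.mod_lt _ (by norm_num)
    generalize e % 4 = a at *
    generalize e / 4 = τ at *
    have h3 := hiR1 _ _ he
    refine ⟨τ, fun i hi => ?_⟩
    have h4 := hmS τ a h0 (by omega) hk
    rw [h3] at h4
    have h5 : Q.jI i ∈ A (t0 + 4 * τ + a) := by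
      rw [hofz τ i a h0 (by omega)]
      refine (hposk τ i a h0 (by omega)).1 ?_
      rw [hk]
      exact hi
    have h6 := hmz _ _ h5
    omega

end Sys

end Q229.DP
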