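import Pool.Agent.Q229.DP.Bin

set_option autoImplicit false

/-!
# The bin instance of a packing system
-/

namespace Q229.DP

open Finset

/-- A packing system: items with weights `β` and marks `z`, the capacities of the three kinds of
bins, and the exponent of the long period. -/
structure Sys (I : Type) where
  m : ℕ
  β : I → ℕ
  z : I → ℕ
  bS : ℕ
  bX : ℕ
  bH : ℕ

/-- the jobs: a clock job, four wall jobs, the items, the ruler jobs, two rare jobs -/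
abbrev JJ (I : Type) (m : ℕ) : Type := Unit ⊕ (Fin 4 ⊕ (I ⊕ (Fin m ⊕ Bool)))

namespace Sys

variable {I : Type} [Fintype I] (Q : Sys I)

/-- the capacity of a bin -/
def Z : ℕ := 32 * (∑ i, Q.β i + 1)

/-- the free capacity of a bin of kind `κ` -/
def cap (κ : ℕ) : ℕ :=
  if κ = 0 then 32 * Q.bS + 8 else if κ = 1 then 32 * Q.bX + 10 else
    if κ = 2 then 32 * Q.bH + 4 else 9

/-- weight capacities -/
def bc (κ : ℕ) : ℕ := if κ = 0 then Q.bS else if κ = 1 then Q.bX else Q.bH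

/-- the windows -/
def gJ : JJ I Q.m → ℕ
  | Sum.inl _ => 2
  | Sum.inr (Sum.inl _) => 4
  | Sum.inr (Sum.inr (Sum.inl _)) => 5
  | Sum.inr (Sum.inr (Sum.inr (Sum.inl j))) => 4 * 2 ^ (j.val + 1)
  | Sum.inr (Sum.inr (Sum.inr (Sum.inr _))) => 4 * 2 ^ Q.m

/-- the sizes -/
def pJ : JJ I Q.m → ℕ
  | Sum.inl _ => 9
  | Sum.inr (Sum.inl κ) => Q.Z - Q.cap κ.val
  | Sum.inr (Sum.inr (Sum.inl i)) => 32 * Q.β i + Q.z i
  | Sum.inr (Sum.inr (Sum.inr (Sum.inl _))) => 5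
  | Sum.inr (Sum.inr (Sum.inr (Sum.inr b))) => if b then 8 else 4

/-- well-formed systems -/
structure Ok : Prop where
  pos : ∀ i, 1 ≤ Q.β i
  tot : ∑ i, Q.β i = Q.bS + Q.bX + Q.bH
  m1 : 1 ≤ Q.m

/-- the clock job -/
abbrev jY : JJ I Q.m := Sum.inl ()
/-- the wall jobs -/
abbrev jE (κ : Fin 4) : JJ I Q.m := Sum.inr (Sum.inl κ)
/-- the items -/
abbrev jI (i : I) : JJ I Q.m := Sum.inr (Sum.inr (Sum.inl i))
/-- the ruler jobs -/
abbrev jC (j : Fin Q.m) : JJ I Q.m := Sum.inr (Sum.inr (Sum.inr (Sum.inl j)))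
/-- the rare jobs -/
abbrev jR (b : Bool) : JJ I Q.m := Sum.inr (Sum.inr (Sum.inr (Sum.inr b)))

variable {Q}

open Classical in
theorem sum_split (A : Finset (JJ I Q.m)) : ∑ j ∈ A, Q.pJ j =
    (if Q.jY ∈ A then 9 else 0) + ((∑ κ : Fin 4, if Q.jE κ ∈ A then Q.Z - Q.cap κ.val else 0) +
      ((∑ i, if Q.jI i ∈ A then 32 * Q.β i + Q.z i else 0) +
        ((∑ j, if Q.jC j ∈ A then 5 else 0) +
          ((if Q.jR true ∈ A then 8 else 0) + (if Q.jR false ∈ A then 4 else 0))))) := by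
  have h : ∑ j ∈ A, Q.pJ j = ∑ j, if j ∈ A then Q.pJ j else 0 := by
    rw [Finset.sum_ite_mem, Finset.univ_inter]
  rw [h]
  simp only [Fintype.sum_sum_type, Fintype.sum_bool, Finset.univ_unique, Finset.sum_singleton, pJ]
  rfl

theorem cap_le (h : Q.Ok) (κ : ℕ) : Q.cap κ ≤ Q.Z := by
  have h1 := h.tot
  unfold cap Z
  split_ifs <;> omega

theorem cap_add (h : Q.Ok) {κ κ' : ℕ} (hne : κ ≠ κ') (h1 : κ < 4) (h2 : κ' < 4) :
    Q.cap κ + Q.cap κ' < Q.Z := by
  have h3 := h.tot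
  unfold cap Z
  interval_cases κ <;> interval_cases κ' <;> simp_all <;> omega

end Sys

end Q229.DP
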